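import Mathlib

/-!
# Sums of two squares and Gaussian integers
-/

set_option autoImplicit false

namespace Pool.Agent.Q8.MC

/-- uniqueness of the representation of a prime as a sum of two squares -/
lemma unique_sq {p a b x y : ℤ} (hp : Prime p) (hp0 : 0 < p) (h1 : a ^ 2 + b ^ 2 = p)
    (h2 : x ^ 2 + y ^ 2 = p) : (a ^ 2 = x ^ 2 ∧ b ^ 2 = y ^ 2) ∨ (a ^ 2 = y ^ 2 ∧ b ^ 2 = x ^ 2) := by
  have key : a ^ 2 * x ^ 2 = b ^ 2 * y ^ 2 ∨ a ^ 2 * y ^ 2 = b ^ 2 * x ^ 2 := by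
    have main : ∀ x : ℤ, x ^ 2 + y ^ 2 = p → p ∣ a * x - b * y →
        a ^ 2 * x ^ 2 = b ^ 2 * y ^ 2 ∨ a ^ 2 * y ^ 2 = b ^ 2 * x ^ 2 := by
      intro x h2 hdvd
      obtain ⟨k, hk⟩ := hdvd
      have h3 : (a * x - b * y) ^ 2 + (a * y + b * x) ^ 2 = p ^ 2 := by
        have : (a * x - b * y) ^ 2 + (a * y + b * x) ^ 2 = (a ^ 2 + b ^ 2) * (x ^ 2 + y ^ 2) := by
          ring
        rw [this, h1, h2]
        ring
      rw [hk] at h3
      have h4 : p ^ 2 * k ^ 2 ≤ p ^ 2 * 1 := by nlinarith [sq_nonneg (a * y + b * x)]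
      have h5 : k ^ 2 ≤ 1 := le_of_mul_le_mul_left h4 (by positivity)
      have h6 : -1 ≤ k ∧ k ≤ 1 := by constructor <;> nlinarith
      have h7 : k = 0 ∨ k ^ 2 = 1 := by
        have : k = -1 ∨ k = 0 ∨ k = 1 := by omega
        rcases this with rfl | rfl | rfl <;> norm_num
      rcases h7 with rfl | h7
      · left
        have h8 : a * x = b * y := by linarith
        calc a ^ 2 * x ^ 2 = (a * x) ^ 2 := by ring
          _ = (b * y) ^ 2 := by rw [h8]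
          _ = b ^ 2 * y ^ 2 := by ring
      · right
        have h8 : (a * y + b * x) ^ 2 = 0 := by
          have : p ^ 2 * k ^ 2 = p ^ 2 := by rw [h7, mul_one]
          nlinarith
        have h9 : a * y + b * x = 0 := by simpa using h8
        have h10 : a * y = -(b * x) := by linarith
        calc a ^ 2 * y ^ 2 = (a * y) ^ 2 := by ring
          _ = (-(b * x)) ^ 2 := by rw [h10]
          _ = b ^ 2 * x ^ 2 := by ring
    have h3 : p ∣ (a * x - b * y) * (a * -x - b * y) := by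
      refine ⟨y ^ 2 - a ^ 2, ?_⟩
      linear_combination (-a ^ 2) * h2 + y ^ 2 * h1
    rcases hp.dvd_or_dvd h3 with h4 | h4
    · exact main x h2 h4
    · have := main (-x) (by rw [neg_sq]; exact h2) h4
      simpa only [neg_sq] using this
  rcases key with h | h
  · right
    have h3 : p * a ^ 2 = p * y ^ 2 := by
      calc p * a ^ 2 = a ^ 2 * x ^ 2 + a ^ 2 * y ^ 2 := by rw [← h2]; ring
        _ = b ^ 2 * y ^ 2 + a ^ 2 * y ^ 2 := by rw [h]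
        _ = p * y ^ 2 := by rw [← h1]; ring
    have h4 := mul_left_cancel₀ hp0.ne' h3
    exact ⟨h4, by linarith⟩
  · left
    have h3 : p * a ^ 2 = p * x ^ 2 := by
      calc p * a ^ 2 = a ^ 2 * x ^ 2 + a ^ 2 * y ^ 2 := by rw [← h2]; ring
        _ = a ^ 2 * x ^ 2 + b ^ 2 * x ^ 2 := by rw [h]
        _ = p * x ^ 2 := by rw [← h1]; ring
    have h4 := mul_left_cancel₀ hp0.ne' h3
    exact ⟨h4, by linarith⟩

/-- the hypotheses on the representations of `p` and `q` -/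
structure Reps (p q xp yp xq yq : ℤ) : Prop where
  prime_p : Prime p
  prime_q : Prime q
  p_pos : 0 < p
  p_lt : p < q
  p_mod : p % 4 = 1
  q_mod : q % 4 = 1
  xp_pos : 0 < xp
  xp_lt : xp < yp
  rep_p : xp ^ 2 + yp ^ 2 = p
  xq_pos : 0 < xq
  xq_lt : xq < yq
  rep_q : xq ^ 2 + yq ^ 2 = q
  parity : xp % 2 ≠ xq % 2

lemma sq_mod_two (a : ℤ) : a ^ 2 % 2 = a % 2 := by
  rcases Int.emod_two_eq_zero_or_one a with h | h <;> simp [sq, Int.mul_emod, h]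

lemma Reps.yp_par {p q xp yp xq yq : ℤ} (h : Reps p q xp yp xq yq) : yp % 2 = xq % 2 := by
  have h1 := h.rep_p
  have h2 := h.p_mod
  have h3 := sq_mod_two xp
  have h4 := sq_mod_two yp
  have h5 := h.parity
  omega

lemma Reps.yq_par {p q xp yp xq yq : ℤ} (h : Reps p q xp yp xq yq) : yq % 2 = xp % 2 := by
  have h1 := h.rep_q
  have h2 := h.q_mod
  have h3 := sq_mod_two xq
  have h4 := sq_mod_two yq
  have h5 := h.parity
  omega

/-- the sign `(-1) ^ xp` -/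
def eps (xp : ℤ) : ℤ := if xp % 2 = 0 then 1 else -1

lemma sq_mod_four_even {a : ℤ} (h : a % 2 = 0) : a ^ 2 % 4 = 0 := by
  obtain ⟨b, rfl⟩ : ∃ b, a = 2 * b := ⟨a / 2, by omega⟩
  have : (2 * b) ^ 2 = 4 * b ^ 2 := by ring
  omega

lemma sq_mod_four_odd {a : ℤ} (h : a % 2 = 1) : a ^ 2 % 4 = 1 := by
  obtain ⟨b, rfl⟩ : ∃ b, a = 2 * b + 1 := ⟨a / 2, by omega⟩
  have : (2 * b + 1) ^ 2 = 4 * (b ^ 2 + b) + 1 := by ring
  omega

lemma Reps.prod_mod {p q xp yp xq yq : ℤ} (h : Reps p q xp yp xq yq) :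
    yp ^ 2 * xq ^ 2 - xp ^ 2 * yq ^ 2 ≡ eps xp [ZMOD 4] := by
  have h1 := h.yp_par
  have h2 := h.yq_par
  have h3 := h.parity
  unfold eps
  split_ifs with h4
  · have e1 := sq_mod_four_odd (a := yp) (by omega)
    have e2 := sq_mod_four_odd (a := xq) (by omega)
    have e3 := sq_mod_four_even (a := xp) (by omega)
    have e4 := sq_mod_four_even (a := yq) (by omega)
    rw [Int.ModEq, Int.sub_emod, Int.mul_emod (yp ^ 2), Int.mul_emod (xp ^ 2), e1, e2, e3, e4]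
    norm_num
  · have e1 := sq_mod_four_even (a := yp) (by omega)
    have e2 := sq_mod_four_even (a := xq) (by omega)
    have e3 := sq_mod_four_odd (a := xp) (by omega)
    have e4 := sq_mod_four_odd (a := yq) (by omega)
    rw [Int.ModEq, Int.sub_emod, Int.mul_emod (yp ^ 2), Int.mul_emod (xp ^ 2), e1, e2, e3, e4]
    norm_num

/-- The product of the two middle coefficients modulo four. -/
theorem Reps.hh_mod {p q xp yp xq yq : ℤ} (h : Reps p q xp yp xq yq) {k₁ k₂ r₁ r₂ m m' h₁ h₂ : ℤ}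
    (hk : k₁ ^ 2 + k₂ ^ 2 = p) (hr : r₁ ^ 2 + r₂ ^ 2 = q) (hm : 2 * m = -(k₁ * r₁ - k₂ * r₂))
    (hm' : 2 * m' = -(k₁ * r₁ + k₂ * r₂)) (hm0 : 0 < m) (hm0' : 0 < m')
    (hh₁ : h₁ = -(k₁ * r₂ + k₂ * r₁)) (hh₂ : h₂ = -(k₁ * r₂ - k₂ * r₁)) :
    h₁ * h₂ ≡ eps xp [ZMOD 4] := by
  have hq0 : 0 < q := h.p_pos.trans h.p_lt
  have hpos : 0 < k₁ ^ 2 * r₁ ^ 2 - k₂ ^ 2 * r₂ ^ 2 := by
    have : k₁ ^ 2 * r₁ ^ 2 - k₂ ^ 2 * r₂ ^ 2 = (2 * m) * (2 * m') := by rw [hm, hm']; ring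
    rw [this]
    positivity
  have hprod : h₁ * h₂ = k₁ ^ 2 * r₂ ^ 2 - k₂ ^ 2 * r₁ ^ 2 := by rw [hh₁, hh₂]; ring
  have hpar : (k₁ * r₁) % 2 = (k₂ * r₂) % 2 := by omega
  have hpar2 : (k₁ ^ 2 * r₁ ^ 2) % 2 = (k₂ ^ 2 * r₂ ^ 2) % 2 := by
    have e1 : k₁ ^ 2 * r₁ ^ 2 = (k₁ * r₁) ^ 2 := by ring
    have e2 : k₂ ^ 2 * r₂ ^ 2 = (k₂ * r₂) ^ 2 := by ring
    rw [e1, e2, sq_mod_two, sq_mod_two, hpar]
  have p1 := h.yp_par
  have p2 := h.yq_par
  have p3 := h.parity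
  have hx := sq_mod_two xp
  have hy := sq_mod_two yp
  have hx' := sq_mod_two xq
  have hy' := sq_mod_two yq
  rcases unique_sq h.prime_p h.p_pos hk h.rep_p with ⟨h1, h2⟩ | ⟨h1, h2⟩ <;>
    rcases unique_sq h.prime_q hq0 hr h.rep_q with ⟨h3, h4⟩ | ⟨h3, h4⟩
  · exfalso
    rw [h1, h2, h3, h4] at hpos
    have e1 : xp ^ 2 < yp ^ 2 := by have := h.xp_pos; have := h.xp_lt; nlinarith
    have e2 : xq ^ 2 < yq ^ 2 := by have := h.xq_pos; have := h.xq_lt; nlinarith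
    nlinarith [sq_nonneg xp, sq_nonneg xq]
  · exfalso
    rw [h1, h2, h3, h4] at hpar2
    rw [Int.mul_emod, Int.mul_emod (yp ^ 2), hx, hy, hx', hy', p1, p2] at hpar2
    rcases Int.emod_two_eq_zero_or_one xp with e | e <;>
      rcases Int.emod_two_eq_zero_or_one xq with e' | e' <;> rw [e, e'] at hpar2 p3 <;> simp at hpar2 p3
  · exfalso
    rw [h1, h2, h3, h4] at hpar2
    rw [Int.mul_emod, Int.mul_emod (xp ^ 2), hx, hy, hx', hy', p1, p2] at hpar2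
    rcases Int.emod_two_eq_zero_or_one xp with e | e <;>
      rcases Int.emod_two_eq_zero_or_one xq with e' | e' <;> rw [e, e'] at hpar2 p3 <;> simp at hpar2 p3
  · rw [hprod, h1, h2, h3, h4]
    exact h.prod_mod

/-- the data of half a period -/
structure Half (D t u a m h : ℤ) : Prop where
  ex : ∃ c x y z s : ℤ, a ^ 2 + 4 * a * c = D ∧ x * s - y * z = 1 ∧ y ^ 2 + s ^ 2 = a * u ∧
    2 * (x * y + z * s) = t - a * u ∧ a * x ^ 2 + a * x * y - c * y ^ 2 = m ∧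
    a * z ^ 2 + a * z * s - c * s ^ 2 = -m ∧
    2 * a * x * z + a * (x * s + y * z) - 2 * c * y * s = h

/-- The formula `a u² (2 m + i h) = -(y + i s)² (2 + i t)`. -/
lemma half_formula {D t u a m h c x y z s : ℤ} (ha : a ≠ 0) (hP : t ^ 2 - D * u ^ 2 = -4)
    (h1 : a ^ 2 + 4 * a * c = D) (h2 : x * s - y * z = 1) (h3 : y ^ 2 + s ^ 2 = a * u)
    (h4 : 2 * (x * y + z * s) = t - a * u) (h5 : a * x ^ 2 + a * x * y - c * y ^ 2 = m)
    (h6 : a * z ^ 2 + a * z * s - c * s ^ 2 = -m)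
    (h7 : 2 * a * x * z + a * (x * s + y * z) - 2 * c * y * s = h) :
    a * u ^ 2 * (2 * m) = -(2 * (y ^ 2 - s ^ 2) - 2 * t * (y * s)) ∧
      a * u ^ 2 * h = -(t * (y ^ 2 - s ^ 2) + 4 * (y * s)) := by
  obtain ⟨w, hw⟩ : ∃ w, w = x * y + z * s := ⟨_, rfl⟩
  have ht : t = 2 * w + a * u := by linarith
  have hX : a * u * x = w * y + s := by
    rw [← h3, hw]
    linear_combination s * h2
  have hZ : a * u * z = w * s - y := by
    rw [← h3, hw]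
    linear_combination (-y) * h2
  have hPell : w ^ 2 + w * (a * u) - a * c * u ^ 2 = -1 := by
    rw [ht, ← h1] at hP
    linarith
  constructor
  · have e1 : a * (a * u ^ 2 * (2 * m)) = a * -(2 * (y ^ 2 - s ^ 2) - 2 * t * (y * s)) := by
      have e2 : a * (a * u ^ 2 * (2 * m)) = a * (a * u * x) ^ 2 - a * (a * u * z) ^ 2 +
          a * (a * u) * ((a * u * x) * y - (a * u * z) * s) - c * (a * u) ^ 2 * (y ^ 2 - s ^ 2) := by
        linear_combination (-(a * u) ^ 2) * h5 + (a * u) ^ 2 * h6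
      rw [e2, hX, hZ, ht]
      linear_combination (a * (y ^ 2 - s ^ 2)) * hPell
    exact mul_left_cancel₀ ha e1
  · have e1 : a * (a * u ^ 2 * h) = a * -(t * (y ^ 2 - s ^ 2) + 4 * (y * s)) := by
      have e2 : a * (a * u ^ 2 * h) = 2 * a * (a * u * x) * (a * u * z) +
          a * (a * u) * ((a * u * x) * s + y * (a * u * z)) - 2 * c * (a * u) ^ 2 * y * s := by
        linear_combination (-(a * u) ^ 2) * h7
      rw [e2, hX, hZ, ht]
      linear_combination (2 * a * y * s) * hPell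
    exact mul_left_cancel₀ ha e1

/-- The product of the middle coefficients, from two half periods. -/
theorem Reps.gauss {p q xp yp xq yq : ℤ} (h : Reps p q xp yp xq yq) {t u m h₁ m' h₂ : ℤ}
    (hP : t ^ 2 - (p * q) * u ^ 2 = -4) (hu : 0 < u) (H₁ : Half (p * q) t u 1 m h₁)
    (H₂ : Half (p * q) t u p m' h₂) (hm : 0 < m) (hm' : 0 < m') (hn : h₁ ^ 2 + 4 * m ^ 2 = p * q) :
    h₁ * h₂ ≡ eps xp [ZMOD 4] := by
  obtain ⟨c, x₁, y₁, z₁, s₁, a1, a2, a3, a4, a5, a6, a7⟩ := H₁.ex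
  obtain ⟨c', x₂, y₂, z₂, s₂, b1, b2, b3, b4, b5, b6, b7⟩ := H₂.ex
  have hp0 := h.p_pos
  obtain ⟨f1, f2⟩ := half_formula one_ne_zero hP a1 a2 a3 a4 a5 a6 a7
  obtain ⟨g1, g2⟩ := half_formula hp0.ne' hP b1 b2 b3 b4 b5 b6 b7
  obtain ⟨r, hr⟩ : ∃ r, p = 4 * r + 1 := ⟨p / 4, by have := h.p_mod; omega⟩
  obtain ⟨K, hK⟩ : ∃ K, K = 2 * r * s₂ + p * z₂ := ⟨_, rfl⟩
  obtain ⟨k₁, hk₁⟩ : ∃ k₁, k₁ = s₂ * x₁ - K * y₁ := ⟨_, rfl⟩
  obtain ⟨k₂, hk₂⟩ : ∃ k₂, k₂ = s₂ * z₁ - K * s₁ := ⟨_, rfl⟩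
  have F2 : s₂ = s₁ * k₁ - y₁ * k₂ := by
    rw [hk₁, hk₂]
    linear_combination (-s₂) * a2
  have F1 : y₂ = y₁ * k₁ + s₁ * k₂ := by
    have : 2 * (y₁ * k₁ + s₁ * k₂) = 2 * y₂ := by
      rw [hk₁, hk₂, hK]
      linear_combination s₂ * a4 - 2 * (2 * r * s₂ + p * z₂) * a3 - s₂ * b4 + 2 * z₂ * b3
        + 2 * y₂ * b2 + s₂ * u * hr
    linarith
  have hk : k₁ ^ 2 + k₂ ^ 2 = p := by
    have : u * (k₁ ^ 2 + k₂ ^ 2) = u * p := by
      have e1 : y₂ ^ 2 + s₂ ^ 2 = (y₁ ^ 2 + s₁ ^ 2) * (k₁ ^ 2 + k₂ ^ 2) := by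
        rw [F1, F2]
        ring
      rw [a3, b3] at e1
      linarith
    exact mul_left_cancel₀ hu.ne' this
  have hu2 : u ^ 2 ≠ 0 := by positivity
  have E1 : p * (2 * m') = (k₁ ^ 2 - k₂ ^ 2) * (2 * m) + 2 * k₁ * k₂ * h₁ := by
    apply mul_left_cancel₀ hu2
    rw [F1, F2] at g1
    linear_combination g1 - (k₁ ^ 2 - k₂ ^ 2) * f1 - 2 * k₁ * k₂ * f2
  have E2 : p * h₂ = (k₁ ^ 2 - k₂ ^ 2) * h₁ - 2 * k₁ * k₂ * (2 * m) := by
    apply mul_left_cancel₀ hu2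
    rw [F1, F2] at g2
    linear_combination g2 - (k₁ ^ 2 - k₂ ^ 2) * f2 + 2 * k₁ * k₂ * f1
  -- `p` does not divide `2 k₁`
  have hnd : ¬ p ∣ 2 * k₁ := by
    intro hd
    have h2 : ¬ p ∣ 2 := by
      intro h2
      have := Int.le_of_dvd (by norm_num) h2
      have := h.p_mod
      have := h.prime_p.ne_one
      omega
    have hd' : p ∣ k₁ := (h.prime_p.dvd_or_dvd hd).resolve_left h2
    obtain ⟨j, hj⟩ := hd'
    have e1 : p ∣ k₂ ^ 2 := by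
      refine ⟨1 - p * j ^ 2, ?_⟩
      rw [hj] at hk
      linear_combination hk
    obtain ⟨l, hl⟩ := h.prime_p.dvd_of_dvd_pow e1
    have e2 : p * (j ^ 2 + l ^ 2) = 1 := by
      apply mul_left_cancel₀ hp0.ne'
      rw [hj, hl] at hk
      linear_combination hk
    exact h.prime_p.not_isUnit (IsUnit.of_mul_eq_one _ e2)
  have hd1 : p ∣ k₁ * (2 * m) + k₂ * h₁ := by
    have : p ∣ (2 * k₁) * (k₁ * (2 * m) + k₂ * h₁) := by
      refine ⟨2 * m + 2 * m', ?_⟩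
      rw [← hk] at E1 ⊢
      linear_combination (-1 : ℤ) * E1
    exact (h.prime_p.dvd_or_dvd this).resolve_left hnd
  have hd2 : p ∣ k₁ * h₁ - k₂ * (2 * m) := by
    have : p ∣ (2 * k₁) * (k₁ * h₁ - k₂ * (2 * m)) := by
      refine ⟨h₁ + h₂, ?_⟩
      rw [← hk] at E2 ⊢
      linear_combination (-1 : ℤ) * E2
    exact (h.prime_p.dvd_or_dvd this).resolve_left hnd
  obtain ⟨r₁, hr₁⟩ := hd1
  obtain ⟨r₂, hr₂⟩ := hd2
  refine h.hh_mod (k₁ := k₁) (k₂ := k₂) (r₁ := -r₁) (r₂ := -r₂) (m := m) (m' := m') hk ?_ ?_ ?_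
    hm hm' ?_ ?_
  · have : p * (p * ((-r₁) ^ 2 + (-r₂) ^ 2)) = p * (p * q) := by
      have e1 : p * (p * ((-r₁) ^ 2 + (-r₂) ^ 2)) = (p * r₁) ^ 2 + (p * r₂) ^ 2 := by ring
      rw [e1, ← hr₁, ← hr₂, ← hn]
      linear_combination (h₁ ^ 2 + 4 * m ^ 2) * hk
    exact mul_left_cancel₀ hp0.ne' (mul_left_cancel₀ hp0.ne' this)
  · apply mul_left_cancel₀ hp0.ne'
    have : p * -(k₁ * -r₁ - k₂ * -r₂) = k₁ * (p * r₁) - k₂ * (p * r₂) := by ring
    rw [this, ← hr₁, ← hr₂]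
    linear_combination (-(2 * m)) * hk
  · apply mul_left_cancel₀ hp0.ne'
    have : p * -(k₁ * -r₁ + k₂ * -r₂) = k₁ * (p * r₁) + k₂ * (p * r₂) := by ring
    rw [this, ← hr₁, ← hr₂]
    linear_combination E1
  · apply mul_left_cancel₀ hp0.ne'
    have : p * -(k₁ * -r₂ + k₂ * -r₁) = k₁ * (p * r₂) + k₂ * (p * r₁) := by ring
    rw [this, ← hr₁, ← hr₂]
    linear_combination (-h₁) * hk
  · apply mul_left_cancel₀ hp0.ne'
    have : p * -(k₁ * -r₂ - k₂ * -r₁) = k₁ * (p * r₂) - k₂ * (p * r₁) := by ring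
    rw [this, ← hr₁, ← hr₂]
    linear_combination E2

end Pool.Agent.Q8.MC
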