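import Mathlib

/-!
# The forms `a x² + b x y - c y²` with `a, c > 0` and their steps
-/

set_option autoImplicit false

namespace Pool.Agent.Q8.MC

open Matrix

/-- The form `a x² + b x y - c y²`. -/
@[ext] structure T where
  /-- coefficient -/
  a : ℤ
  /-- coefficient -/
  b : ℤ
  /-- coefficient -/
  c : ℤ
deriving DecidableEq

/-- integral matrices -/
abbrev M := Matrix (Fin 2) (Fin 2) ℤ

/-- the value of the form -/
def fv (e : T) (x y : ℤ) : ℤ := e.a * x ^ 2 + e.b * x * y - e.c * y ^ 2

/-- the discriminant -/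
def disc (e : T) : ℤ := e.b ^ 2 + 4 * e.a * e.c

/-- the twisted action `det g • (f ∘ g)` -/
def tw (e : T) (g : M) : T :=
  ⟨g.det * fv e (g 0 0) (g 1 0),
   g.det * (2 * e.a * (g 0 0 * g 0 1) + e.b * (g 0 0 * g 1 1 + g 1 0 * g 0 1)
     - 2 * e.c * (g 1 0 * g 1 1)),
   -(g.det * fv e (g 0 1) (g 1 1))⟩

lemma tw_mul (e : T) (g h : M) : tw (tw e g) h = tw e (g * h) := by
  ext <;> simp only [tw, fv, Matrix.det_mul, Matrix.mul_apply, Fin.sum_univ_two] <;> ring

lemma tw_one (e : T) : tw e 1 = e := by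
  ext <;> simp [tw, fv]

lemma tw_neg (e : T) (g : M) : tw e (-g) = tw e g := by
  have : (-g).det = g.det := by
    rw [Matrix.det_fin_two, Matrix.det_fin_two]
    simp
  ext <;> simp only [tw, fv, this, Matrix.neg_apply] <;> ring

lemma disc_tw (e : T) (g : M) : disc (tw e g) = g.det ^ 4 * disc e := by
  simp only [disc, tw, fv, Matrix.det_fin_two]
  ring

/-- letter -/
def lA : M := !![0, 1; 1, 1]
/-- letter -/
def lB : M := !![1, 1; 1, 0]

/-- the letter of the next step -/
def letter (e : T) : M := if 0 < e.a + e.b - e.c then lA else lB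

/-- the step -/
def Phi (e : T) : T :=
  if 0 < e.a + e.b - e.c then ⟨e.c, 2 * e.c - e.b, e.a + e.b - e.c⟩
  else ⟨e.c - e.a - e.b, -e.b - 2 * e.a, e.a⟩

/-- the first symmetry -/
def tau (e : T) : T := ⟨e.c, e.b, e.a⟩

/-- the second symmetry -/
def psi (e : T) : T :=
  if 0 < e.a + e.b - e.c then ⟨e.a + e.b - e.c, 2 * e.c - e.b, e.c⟩
  else ⟨e.a, -e.b - 2 * e.a, e.c - e.a - e.b⟩

/-- the product of the letters of `k` steps -/
def N : ℕ → T → M
  | 0, _ => 1
  | k + 1, e => letter e * N k (Phi e)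

lemma tau_psi (e : T) : tau (psi e) = Phi e := by
  unfold tau psi Phi
  split_ifs <;> rfl

lemma tau_tau (e : T) : tau (tau e) = e := rfl

lemma Phi_eq_tw (e : T) : Phi e = tw e (letter e) := by
  unfold Phi letter
  split_ifs with h
  · ext <;> simp [tw, fv, lA, Matrix.det_fin_two]
  · ext <;> simp [tw, fv, lB, Matrix.det_fin_two] <;> ring

lemma det_letter (e : T) : (letter e).det = -1 := by
  unfold letter
  split_ifs <;> simp [lA, lB, Matrix.det_fin_two]

lemma det_N (k : ℕ) : ∀ e : T, (N k e).det = (-1) ^ k := by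
  induction k with
  | zero => intro e; simp [N]
  | succ k ih =>
    intro e
    simp only [N, Matrix.det_mul, det_letter, ih]
    ring

lemma iter_eq_tw (k : ℕ) : ∀ e : T, Phi^[k] e = tw e (N k e) := by
  induction k with
  | zero => intro e; simp [N, tw_one]
  | succ k ih =>
    intro e
    rw [Function.iterate_succ_apply, ih, N, ← tw_mul, ← Phi_eq_tw]

lemma N_add (j k : ℕ) : ∀ e : T, N (j + k) e = N j e * N k (Phi^[j] e) := by
  induction j with
  | zero => intro e; simp [N]
  | succ j ih =>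
    intro e
    rw [show j + 1 + k = (j + k) + 1 by omega]
    simp only [N]
    rw [ih, Function.iterate_succ_apply, Matrix.mul_assoc]

lemma N_succ' (k : ℕ) (e : T) : N (k + 1) e = N k e * letter (Phi^[k] e) := by
  rw [N_add]
  simp [N]

/-- the color -/
def Pos (e : T) : Prop :=
  (e.b % 4 = 1 ∧ ¬ (e.a % 2 = 0 ∧ e.c % 2 = 0)) ∨ (e.b % 4 = 3 ∧ e.a % 2 = 0 ∧ e.c % 2 = 0)

instance (e : T) : Decidable (Pos e) := by unfold Pos; infer_instance

/-- The forms `a x² + b x y - c y²` of discriminant `D`, `a, c > 0`, of positive color. -/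
structure InX (D : ℤ) (e : T) : Prop where
  apos : 0 < e.a
  cpos : 0 < e.c
  disc : disc e = D
  pos : Pos e

lemma sum_ne_zero {D : ℤ} (hD : ¬ IsSquare D) {e : T} (h : disc e = D) : e.a + e.b - e.c ≠ 0 := by
  intro h0
  apply hD
  refine ⟨e.b + 2 * e.a, ?_⟩
  rw [← h, disc]
  have : e.c = e.a + e.b := by linarith
  rw [this]
  ring

lemma InX.tau {D : ℤ} {e : T} (h : InX D e) : InX D (tau e) := by
  obtain ⟨h1, h2, h3, h4⟩ := h
  refine ⟨h2, h1, ?_, ?_⟩
  · rw [← h3]
    simp only [MC.disc, MC.tau]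
    ring
  · simp only [Pos, MC.tau] at *
    omega

lemma InX.psi {D : ℤ} (hD : ¬ IsSquare D) {e : T} (h : InX D e) : InX D (psi e) := by
  have h0 := sum_ne_zero hD h.disc
  obtain ⟨h1, h2, h3, h4⟩ := h
  unfold MC.psi
  split_ifs with h5
  · refine ⟨by simpa using h5, h2, ?_, ?_⟩
    · rw [← h3]
      simp only [MC.disc]
      ring
    · simp only [Pos] at *
      omega
  · refine ⟨h1, by simp only; omega, ?_, ?_⟩
    · rw [← h3]
      simp only [MC.disc]
      ring
    · simp only [Pos] at *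
      omega

lemma InX.Phi {D : ℤ} (hD : ¬ IsSquare D) {e : T} (h : InX D e) : InX D (Phi e) := by
  rw [← tau_psi]
  exact (h.psi hD).tau

lemma InX.iter {D : ℤ} (hD : ¬ IsSquare D) {e : T} (h : InX D e) (k : ℕ) :
    InX D (MC.Phi^[k] e) := by
  induction k with
  | zero => exact h
  | succ k ih =>
    rw [Function.iterate_succ_apply']
    exact ih.Phi hD

lemma psi_psi {D : ℤ} (hD : ¬ IsSquare D) {e : T} (h : InX D e) : psi (psi e) = e := by
  have h0 := sum_ne_zero hD h.disc
  obtain ⟨h1, h2, h3, h4⟩ := h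
  unfold psi
  split_ifs with h5 h6 h6
  · ext <;> simp <;> ring
  · exfalso
    simp at h6
    omega
  · exfalso
    simp at h6
    omega
  · ext <;> simp <;> ring

lemma letter_psi {D : ℤ} {e : T} (h : InX D e) : letter (psi e) = letter e := by
  obtain ⟨h1, h2, h3, h4⟩ := h
  unfold psi letter
  split_ifs with h5 h6 h6
  · rfl
  · exfalso
    simp at h6
    omega
  · exfalso
    simp at h6
    omega
  · rfl

lemma lA_transpose : lAᵀ = lA := by
  ext i j
  fin_cases i <;> fin_cases j <;> rfl

lemma lB_transpose : lBᵀ = lB := by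
  ext i j
  fin_cases i <;> fin_cases j <;> rfl

lemma letter_transpose (e : T) : (letter e)ᵀ = letter e := by
  unfold letter
  split_ifs
  · exact lA_transpose
  · exact lB_transpose

/-- the matrix of the reflected path is the transposed matrix -/
lemma N_reflect {D : ℤ} (hD : ¬ IsSquare D) (k : ℕ) : ∀ e : T, InX D e →
    N k (tau (Phi^[k] e)) = (N k e)ᵀ := by
  induction k with
  | zero => intro e _; simp [N]
  | succ k ih =>
    intro e he
    have hk : InX D (Phi^[k] e) := he.iter hD k
    have h1 : tau (Phi^[k + 1] e) = psi (Phi^[k] e) := by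
      rw [Function.iterate_succ_apply', ← tau_psi, tau_tau]
    have h2 : Phi (psi (Phi^[k] e)) = tau (Phi^[k] e) := by
      rw [← tau_psi, psi_psi hD hk]
    rw [h1, N, h2, ih e he, N_succ', Matrix.transpose_mul, letter_transpose, letter_psi hk]

end Pool.Agent.Q8.MC
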