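import Pool.Agent.Q8.MC.CaseTwo

/-!
# The case with solutions of `t² - p q u² = -4`: the two symmetric cycles
-/

set_option autoImplicit false

namespace Pool.Agent.Q8.MC

open Matrix Function

lemma sym_prod (X Z Y S : ℤ) : (!![X, Z; Y, S] : M) * (!![X, Z; Y, S])ᵀ * lA =
    !![X * Y + Z * S, X ^ 2 + Z ^ 2 + X * Y + Z * S; Y ^ 2 + S ^ 2,
      X * Y + Z * S + Y ^ 2 + S ^ 2] := by
  have h : (!![X, Z; Y, S] : M)ᵀ = !![X, Y; Z, S] := by
    ext i j
    fin_cases i <;> fin_cases j <;> rfl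
  rw [h]
  ext i j
  fin_cases i <;> fin_cases j <;> simp [lA, Matrix.mul_apply, Fin.sum_univ_two] <;> ring

/-- the data of half a period -/
lemma half_data {D : ℤ} (hD : Squarefree D) (hD' : ¬ IsSquare D) {t u : ℤ}
    (h4 : 4 < D) (h : t ^ 2 - D * u ^ 2 = -4) (ht : 0 < t) (hu : 0 < u)
    (hmin : ∀ t' u' : ℤ, t' ^ 2 - D * u' ^ 2 = -4 → 0 < u' → u ≤ u') (y : XX D)
    (hy : psiP hD' y = y) (hbc : y.1.b = y.1.c) :
    ∃ (j : ℕ) (m g : ℤ), minimalPeriod (PhiP hD') y = 2 * j + 1 ∧ InX D ⟨m, g, m⟩ ∧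
      Half D t u y.1.c m ((-1) ^ j * g) := by
  obtain ⟨x, hx⟩ : ∃ x, x = tauP D y := ⟨_, rfl⟩
  have hPy : PhiP hD' y = x := by
    rw [PhiP, Equiv.Perm.mul_apply, hy, hx]
  have hty : tauP D x = y := by rw [hx, tauP_tauP]
  have hper : minimalPeriod (PhiP hD') y = minimalPeriod (PhiP hD') x := by
    rw [hx]
    exact (period_tau tauP_tauP (psiP_psiP hD') y).symm
  obtain ⟨hodd, v, w, hv, hw, hN⟩ := period_matrix hD hD' h4 h ht hu hmin x
  obtain ⟨j, hj⟩ := hodd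
  have hn : (PhiP hD' ^ ((2 * j + 1 : ℕ) : ℤ)) x = x := by
    rw [← hj]
    exact (per_iff _ _ _).2 dvd_rfl
  have h2j : (PhiP hD' ^ ((2 * j : ℕ) : ℤ)) x = y := by
    apply (PhiP hD').injective
    rw [hPy]
    conv_rhs => rw [← hn]
    rw [Nat.cast_add, Nat.cast_one, add_comm, zpow_add_apply, zpow_one]
  obtain ⟨G, hG⟩ : ∃ G, G = (PhiP hD' ^ (j : ℤ)) x := ⟨_, rfl⟩
  have hGt : tauP D G = G := by
    rw [hG]
    have := conj_zpow' tauP_tauP (psiP_psiP hD') (j : ℤ) x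
    change tauP D ((PhiP hD' ^ (j : ℤ)) x) = (PhiP hD' ^ (-(j : ℤ))) (tauP D x) at this
    rw [this, hty, ← h2j, ← zpow_add_apply]
    congr 2
    push_cast
    ring
  have hGv : G.1 = Phi^[j] x.1 := by rw [hG, PhiP_pow]
  have hxa : x.1.a = y.1.c := by rw [hx]; rfl
  have hxb : x.1.b = y.1.c := by rw [hx, ← hbc]; rfl
  have hxc : x.1.c = y.1.a := by rw [hx]; rfl
  -- the matrix of the period
  obtain ⟨P, hP⟩ : ∃ P, P = N j x.1 := ⟨_, rfl⟩
  have hNP : N (2 * j + 1) x.1 = P * Pᵀ * lA := by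
    have e1 : N (2 * j + 1) x.1 = N j x.1 * (N j (Phi^[j] x.1) * letter (Phi^[j] (Phi^[j] x.1))) := by
      rw [show 2 * j + 1 = j + (j + 1) by ring, N_add, N_succ']
    have e2 : N j (Phi^[j] x.1) = (N j x.1)ᵀ := by
      have := N_reflect hD' j x.1 x.2
      rw [← this, ← hGv]
      congr 1
      exact congrArg Subtype.val hGt.symm
    have e3 : Phi^[j] (Phi^[j] x.1) = y.1 := by
      rw [← Function.iterate_add_apply, ← two_mul, ← PhiP_pow hD', h2j]
    have e4 : letter y.1 = lA := by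
      rw [letter, if_pos]
      have := y.2.apos
      rw [hbc]
      linarith
    rw [e1, e2, e3, e4, ← hP, Matrix.mul_assoc]
  rw [hj, hNP] at hN
  have hGP : G.1 = tw x.1 P := by rw [hGv, iter_eq_tw, hP]
  have hdet : P.det = (-1) ^ j := by rw [hP, det_N]
  obtain ⟨X, hX⟩ : ∃ X, X = P 0 0 := ⟨_, rfl⟩
  obtain ⟨Z, hZ⟩ : ∃ Z, Z = P 0 1 := ⟨_, rfl⟩
  obtain ⟨Y, hY⟩ : ∃ Y, Y = P 1 0 := ⟨_, rfl⟩
  obtain ⟨S, hS⟩ : ∃ S, S = P 1 1 := ⟨_, rfl⟩
  have hPe : P = !![X, Z; Y, S] := by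
    rw [hX, hZ, hY, hS]
    exact Matrix.eta_fin_two P
  rw [hPe, sym_prod] at hN
  have hN10 : Y ^ 2 + S ^ 2 = x.1.a * u := congrFun (congrFun hN 1) 0
  have hN00 : X * Y + Z * S = v := congrFun (congrFun hN 0) 0
  rw [hPe, Matrix.det_fin_two] at hdet
  simp only [Matrix.of_apply, Matrix.cons_val', Matrix.cons_val_zero, Matrix.cons_val_one,
    Matrix.cons_val_fin_one] at hdet
  have hGa := congrArg T.a hGP
  have hGb := congrArg T.b hGP
  have hGc := congrArg T.c hGP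
  rw [hPe, tw_fields, hxa, hxb, hxc] at hGa hGb hGc
  simp only [fv, hxa, hxb, hxc] at hGa hGb hGc
  have hGac : G.1.c = G.1.a := congrArg (fun z => z.1.a) hGt
  have hGx : G.1 = ⟨G.1.a, G.1.b, G.1.a⟩ := by
    ext
    · rfl
    · rfl
    · exact hGac
  have hdD : y.1.c ^ 2 + 4 * y.1.c * y.1.a = D := by
    have := y.2.disc
    rw [disc, hbc] at this
    linear_combination this
  rw [hxa] at hN10
  rw [hxb] at hv
  refine ⟨j, G.1.a, G.1.b, by rw [hper, hj], by rw [← hGx]; exact G.2, ?_⟩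
  rcases neg_one_pow_eq_or ℤ j with hs | hs
  · rw [hs] at hdet ⊢
    rw [hdet] at hGa hGb hGc
    refine ⟨y.1.a, X, Y, Z, S, hdD, by linarith, by linarith, by linarith, by linarith,
      by linarith, by linarith⟩
  · rw [hs] at hdet ⊢
    rw [hdet] at hGa hGb hGc
    refine ⟨y.1.a, Z, S, X, Y, hdD, by linarith, by linarith, by linarith, by linarith,
      by linarith, by linarith⟩

/-- The sum of the periods of the two symmetric cycles. -/
theorem Reps.periods {p q xp yp xq yq : ℤ} (H : Reps p q xp yp xq yq) {t u : ℤ}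
    (h : t ^ 2 - p * q * u ^ 2 = -4) (ht : 0 < t) (hu : 0 < u)
    (hmin : ∀ t' u' : ℤ, t' ^ 2 - p * q * u' ^ 2 = -4 → 0 < u' → u ≤ u') :
    (minimalPeriod (PhiP H.not_square) H.e1 : ZMod 4) + minimalPeriod (PhiP H.not_square) H.ep
      = 1 + (eps xp : ZMod 4) := by
  have h4 : 4 < p * q := by
    have := H.five_le
    have := H.q_ge
    nlinarith
  obtain ⟨j, m, g, h1, h2, h3⟩ := half_data H.squarefree H.not_square h4 h ht hu hmin H.e1
    ((H.psi_fixed _).2 (Or.inl rfl)) rfl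
  obtain ⟨j', m', g', h1', h2', h3'⟩ := half_data H.squarefree H.not_square h4 h ht hu hmin H.ep
    ((H.psi_fixed _).2 (Or.inr rfl)) rfl
  have hd : g ^ 2 + 4 * m ^ 2 = p * q := by
    rw [← h2.disc]
    simp only [disc]
    ring
  have hd' : g' ^ 2 + 4 * m' ^ 2 = p * q := by
    rw [← h2'.disc]
    simp only [disc]
    ring
  have hj2 : ((-1 : ℤ) ^ j) ^ 2 = 1 := by
    rw [← pow_mul, mul_comm, pow_mul]
    norm_num
  have hg := H.gauss h hu h3 h3' h2.apos h2'.apos (by rw [mul_pow, hj2, one_mul]; exact hd)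
  have hpm := pos_mod h2.pos h2'.pos (by rw [hd, hd'])
  have hsign : (-1 : ℤ) ^ (j + j') = eps xp := by
    have e : (-1) ^ j * g * ((-1) ^ j' * g') = (-1 : ℤ) ^ (j + j') * (g * g') := by
      rw [pow_add]
      ring
    rw [e, Int.ModEq, Int.mul_emod, hpm] at hg
    unfold eps at hg ⊢
    rcases neg_one_pow_eq_or ℤ (j + j') with h | h <;> rw [h] at hg ⊢ <;> split_ifs at hg ⊢ <;>
      simp at hg ⊢
  rw [h1, h1', ← hsign]
  push_cast
  rcases Nat.even_or_odd' (j + j') with ⟨k, hk | hk⟩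
  · rw [hk, pow_mul]
    have e : (j' : ZMod 4) = 2 * k - j := by
      have := congrArg (fun n : ℕ => (n : ZMod 4)) hk
      push_cast at this
      linear_combination this
    rw [e]
    have h4' : (4 : ZMod 4) = 0 := by decide
    have h5 : ((-1 : ZMod 4) ^ 2) ^ k = 1 := by norm_num
    rw [h5]
    linear_combination (k : ZMod 4) * h4'
  · rw [hk, pow_succ, pow_mul]
    have e : (j' : ZMod 4) = 2 * k + 1 - j := by
      have := congrArg (fun n : ℕ => (n : ZMod 4)) hk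
      push_cast at this
      linear_combination this
    rw [e]
    have h4' : (4 : ZMod 4) = 0 := by decide
    have h5 : ((-1 : ZMod 4) ^ 2) ^ k = 1 := by norm_num
    rw [h5]
    linear_combination ((k : ZMod 4) + 1) * h4'

end Pool.Agent.Q8.MC
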