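import Pool.Agent.Q8.MC.Fix

/-!
# The case without solutions of `t² - p q u² = -4`
-/

set_option autoImplicit false

namespace Pool.Agent.Q8.MC

open Matrix Function

lemma mul_mod_two (a b : ℤ) : (a * b) % 2 = ((a % 2) * (b % 2)) % 2 := Int.mul_emod a b 2

lemma pos_or {m h : ℤ} (hh : h % 2 = 1) : Pos ⟨m, h, m⟩ ∨ Pos ⟨m, -h, m⟩ := by
  simp only [Pos]
  omega

lemma pos_pm {m h h' : ℤ} (h1 : Pos ⟨m, h, m⟩) (h2 : Pos ⟨m, h', m⟩) (h3 : h ^ 2 = h' ^ 2) :
    h = h' := by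
  rcases sq_eq_sq_iff_eq_or_eq_neg.1 h3 with h4 | h4
  · exact h4
  · exfalso
    subst h4
    simp only [Pos] at h1 h2
    omega

lemma sq_mod_eight {a : ℤ} (h : a % 2 = 1) : a ^ 2 % 8 = 1 := by
  obtain ⟨b, rfl⟩ : ∃ b, a = 2 * b + 1 := ⟨a / 2, by omega⟩
  have h1 : (2 * b + 1) ^ 2 = 4 * (b * (b + 1)) + 1 := by ring
  have h2 : (b * (b + 1)) % 2 = 0 := by
    rcases Int.emod_two_eq_zero_or_one b with h | h <;> rw [Int.mul_emod, h] <;> omega
  rw [h1]
  omega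

/-- the parity of `m` depends only on `h² + 4 m²` -/
lemma par_m {m h m' h' : ℤ} (h1 : h % 2 = 1) (h2 : h' % 2 = 1)
    (h3 : h ^ 2 + 4 * m ^ 2 = h' ^ 2 + 4 * m' ^ 2) : m % 2 = m' % 2 := by
  have e1 := sq_mod_eight h1
  have e2 := sq_mod_eight h2
  have e3 := sq_mod_two m
  have e4 := sq_mod_two m'
  omega

lemma pos_mod {m h m' h' : ℤ} (h1 : Pos ⟨m, h, m⟩) (h2 : Pos ⟨m', h', m'⟩)
    (h3 : h ^ 2 + 4 * m ^ 2 = h' ^ 2 + 4 * m' ^ 2) : h * h' % 4 = 1 := by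
  have hh : h % 2 = 1 := by simp only [Pos] at h1; omega
  have hh' : h' % 2 = 1 := by simp only [Pos] at h2; omega
  have hm := par_m hh hh' h3
  have h4 : h % 4 = h' % 4 := by
    simp only [Pos] at h1 h2
    omega
  rw [Int.mul_emod, h4]
  have : h' % 4 = 1 ∨ h' % 4 = 3 := by omega
  rcases this with h | h <;> rw [h] <;> rfl

lemma W_swap (m h : ℤ) : W (-1) ⟨m, h, m⟩ ⟨m, -h, m⟩ := by
  refine ⟨0, 1, 1, 0, by norm_num, ?_⟩
  rw [tw_fields]
  simp only [fv, T.mk.injEq]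
  refine ⟨by ring, by ring, by ring⟩

lemma W_sign {σ : ℤ} (hσ : σ = 1 ∨ σ = -1) (m h : ℤ) : W σ ⟨m, h, m⟩ ⟨m, σ * h, m⟩ := by
  rcases hσ with rfl | rfl
  · rw [one_mul]
    exact W_one _
  · rw [neg_one_mul]
    exact W_swap m h

section

variable {p q xp yp xq yq : ℤ} (H : Reps p q xp yp xq yq)
include H

lemma Reps.lt_prod : xp * xq < yp * yq := by
  have h1 := H.xp_pos
  have h2 := H.xp_lt
  have h3 := H.xq_pos
  have h4 := H.xq_lt
  nlinarith

/-- classification of the representations `h² + 4 m² = p q` -/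
lemma Reps.mclass {m h : ℤ} (hm : 0 < m) (h1 : h ^ 2 + 4 * m ^ 2 = p * q) :
    2 * m = yp * yq + xp * xq ∨ 2 * m = yp * yq - xp * xq := by
  have hp0 := H.p_pos
  have hq0 : 0 < q := hp0.trans H.p_lt
  have hlt := H.lt_prod
  have h1p := H.xp_pos
  have h3p := H.xq_pos
  have main : ∀ x : ℤ, x ^ 2 = xp ^ 2 → p ∣ 2 * m * yp - h * x →
      2 * m = yp * yq + xp * xq ∨ 2 * m = yp * yq - xp * xq := by
    rintro x hx ⟨r, hr⟩
    have hrep := H.rep_p
    have e1 : (2 * m * yp - h * x) ^ 2 + (2 * m * x + h * yp) ^ 2 = p * (p * q) := by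
      rw [← h1]
      nth_rewrite 1 [← hrep]
      rw [← hx]
      ring
    have e2 : p ∣ (2 * m * x + h * yp) ^ 2 := by
      refine ⟨p * q - p * r ^ 2, ?_⟩
      rw [hr] at e1
      linear_combination e1
    obtain ⟨r', hr'⟩ := H.prime_p.dvd_of_dvd_pow e2
    have e3 : r ^ 2 + r' ^ 2 = q := by
      apply mul_left_cancel₀ hp0.ne'
      apply mul_left_cancel₀ hp0.ne'
      rw [hr, hr'] at e1
      linear_combination e1
    have e4 : 2 * m = yp * r + x * r' := by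
      apply mul_left_cancel₀ hp0.ne'
      have : p * (yp * r + x * r') = yp * (p * r) + x * (p * r') := by ring
      rw [this, ← hr, ← hr', ← hrep, ← hx]
      ring
    rcases unique_sq H.prime_q hq0 e3 H.rep_q with ⟨f1, f2⟩ | ⟨f1, f2⟩
    · exfalso
      have g1 : r % 2 = xq % 2 := by rw [← sq_mod_two r, ← sq_mod_two xq, f1]
      have g2 : r' % 2 = yq % 2 := by rw [← sq_mod_two r', ← sq_mod_two yq, f2]
      have g3 : x % 2 = xp % 2 := by rw [← sq_mod_two x, ← sq_mod_two xp, hx]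
      have g4 := H.yp_par
      have g5 := H.yq_par
      have g6 := H.parity
      have g7 : (yp * r + x * r') % 2 = ((xq % 2) * (xq % 2) + (xp % 2) * (xp % 2)) % 2 := by
        rw [Int.add_emod, mul_mod_two yp, mul_mod_two x, g1, g2, g3, g4, g5]
        omega
      rw [← e4] at g7
      rcases Int.emod_two_eq_zero_or_one xp with k1 | k1 <;>
        rcases Int.emod_two_eq_zero_or_one xq with k2 | k2 <;>
        rw [k1, k2] at g7 g6 <;> omega
    · rcases sq_eq_sq_iff_eq_or_eq_neg.1 f1 with g1 | g1 <;>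
        rcases sq_eq_sq_iff_eq_or_eq_neg.1 f2 with g2 | g2 <;>
        rcases sq_eq_sq_iff_eq_or_eq_neg.1 hx with g3 | g3 <;>
        rw [g1, g2, g3] at e4
      · left; linarith
      · right; linarith
      · right; linarith
      · left; linarith
      · exfalso; nlinarith
      · exfalso; nlinarith
      · exfalso; nlinarith
      · exfalso; nlinarith
  have h3 : p ∣ (2 * m * yp - h * xp) * (2 * m * yp - h * -xp) := by
    refine ⟨q * yp ^ 2 - h ^ 2, ?_⟩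
    linear_combination yp ^ 2 * h1 - h ^ 2 * H.rep_p
  rcases H.prime_p.dvd_or_dvd h3 with h4 | h4
  · exact main xp rfl h4
  · exact main (-xp) (neg_sq xp) h4

lemma Reps.exists_m : ∃ m₁ m₂ : ℤ, 2 * m₁ = yp * yq + xp * xq ∧ 2 * m₂ = yp * yq - xp * xq := by
  have g4 := H.yp_par
  have g5 := H.yq_par
  have e : (yp * yq) % 2 = (xp * xq) % 2 := by
    rw [mul_mod_two yp, mul_mod_two xp, g4, g5, mul_comm]
  exact ⟨(yp * yq + xp * xq) / 2, (yp * yq - xp * xq) / 2, by omega, by omega⟩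

lemma Reps.h_odd : (yp * xq - xp * yq) % 2 = 1 ∧ (yp * xq + xp * yq) % 2 = 1 := by
  have g4 := H.yp_par
  have g5 := H.yq_par
  have g6 := H.parity
  have e1 : (yp * xq) % 2 = xq % 2 := by
    rw [mul_mod_two yp, g4]
    rcases Int.emod_two_eq_zero_or_one xq with k | k <;> rw [k] <;> rfl
  have e2 : (xp * yq) % 2 = xp % 2 := by
    rw [mul_mod_two xp, g5]
    rcases Int.emod_two_eq_zero_or_one xp with k | k <;> rw [k] <;> rfl
  omega

/-- The transformation between the two symmetric forms. -/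
lemma Reps.transform {m₁ m₂ s X Y : ℤ} (h1 : 2 * m₁ = yp * yq + xp * xq)
    (h2 : 2 * m₂ = yp * yq - xp * xq) (hs : s = 1 ∨ s = -1) (hXY : p * X ^ 2 - q * Y ^ 2 = 4 * s) :
    W s ⟨m₁, yp * xq - xp * yq, m₁⟩ ⟨m₂, yp * xq + xp * yq, m₂⟩ := by
  have g4 := H.yp_par
  have g5 := H.yq_par
  have hpm := H.p_mod
  have hqm := H.q_mod
  have hpar : X % 2 = Y % 2 := by
    have e1 : (p * X ^ 2) % 2 = X % 2 := by
      rw [mul_mod_two, sq_mod_two, show p % 2 = 1 by omega, one_mul]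
      omega
    have e2 : (q * Y ^ 2) % 2 = Y % 2 := by
      rw [mul_mod_two, sq_mod_two, show q % 2 = 1 by omega, one_mul]
      omega
    omega
  have par : ∀ a b : ℤ, a % 2 = b % 2 → (X * a + Y * b) % 2 = 0 := by
    intro a b hab
    rw [Int.add_emod, mul_mod_two X, mul_mod_two Y, hpar, hab]
    omega
  obtain ⟨α, hα⟩ : ∃ α, 2 * α = -(X * yp + Y * xq) := ⟨-(X * yp + Y * xq) / 2, by
    have := par yp xq g4
    omega⟩
  obtain ⟨β, hβ⟩ : ∃ β, 2 * β = -(X * xp) + Y * yq := ⟨(-(X * xp) + Y * yq) / 2, by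
    have := par xp yq g5.symm
    omega⟩
  obtain ⟨γ, hγ⟩ : ∃ γ, 2 * γ = X * xp + Y * yq := ⟨β + X * xp, by linarith⟩
  obtain ⟨δ, hδ⟩ : ∃ δ, 2 * δ = -(X * yp) + Y * xq := ⟨α + Y * xq, by linarith⟩
  have hrp := H.rep_p
  have hrq := H.rep_q
  have hss : s * s = 1 := by rcases hs with h | h <;> rw [h] <;> norm_num
  have hdet : α * δ - γ * β = s := by
    have : 4 * (α * δ - γ * β) = 4 * s := by
      have e : 4 * (α * δ - γ * β) = (2 * α) * (2 * δ) - (2 * γ) * (2 * β) := by ring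
      rw [e, hα, hβ, hγ, hδ, ← hXY, ← hrp, ← hrq]
      ring
    linarith
  refine ⟨α, β, γ, δ, hdet, ?_⟩
  rw [tw_fields]
  have hdet' : α * δ - β * γ = s := by linarith
  rw [hdet']
  have f1 : m₁ * α ^ 2 + (yp * xq - xp * yq) * α * γ - m₁ * γ ^ 2 = s * m₂ := by
    have : 8 * (m₁ * α ^ 2 + (yp * xq - xp * yq) * α * γ - m₁ * γ ^ 2) = 8 * (s * m₂) := by
      have e : 8 * (m₁ * α ^ 2 + (yp * xq - xp * yq) * α * γ - m₁ * γ ^ 2) =
          (2 * m₁) * (2 * α) ^ 2 + 2 * (yp * xq - xp * yq) * (2 * α) * (2 * γ)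
            - (2 * m₁) * (2 * γ) ^ 2 := by ring
      have e' : 8 * (s * m₂) = (4 * s) * (2 * m₂) := by ring
      rw [e, e', hα, hγ, h1, h2, ← hXY, ← hrp, ← hrq]
      ring
    linarith
  have f2 : m₁ * β ^ 2 + (yp * xq - xp * yq) * β * δ - m₁ * δ ^ 2 = -(s * m₂) := by
    have : 8 * (m₁ * β ^ 2 + (yp * xq - xp * yq) * β * δ - m₁ * δ ^ 2) = 8 * -(s * m₂) := by
      have e : 8 * (m₁ * β ^ 2 + (yp * xq - xp * yq) * β * δ - m₁ * δ ^ 2) =
          (2 * m₁) * (2 * β) ^ 2 + 2 * (yp * xq - xp * yq) * (2 * β) * (2 * δ)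
            - (2 * m₁) * (2 * δ) ^ 2 := by ring
      have e' : 8 * -(s * m₂) = -((4 * s) * (2 * m₂)) := by ring
      rw [e, e', hβ, hδ, h1, h2, ← hXY, ← hrp, ← hrq]
      ring
    linarith
  have f3 : 2 * m₁ * (α * β) + (yp * xq - xp * yq) * (α * δ + γ * β) - 2 * m₁ * (γ * δ)
      = s * (yp * xq + xp * yq) := by
    have : 4 * (2 * m₁ * (α * β) + (yp * xq - xp * yq) * (α * δ + γ * β) - 2 * m₁ * (γ * δ))
        = 4 * (s * (yp * xq + xp * yq)) := by
      have e : 4 * (2 * m₁ * (α * β) + (yp * xq - xp * yq) * (α * δ + γ * β) - 2 * m₁ * (γ * δ)) =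
          (2 * m₁) * ((2 * α) * (2 * β)) + (yp * xq - xp * yq) * ((2 * α) * (2 * δ) +
            (2 * γ) * (2 * β)) - (2 * m₁) * ((2 * γ) * (2 * δ)) := by ring
      have e' : 4 * (s * (yp * xq + xp * yq)) = (4 * s) * (yp * xq + xp * yq) := by ring
      rw [e, e', hα, hβ, hγ, hδ, h1, ← hXY, ← hrp, ← hrq]
      ring
    linarith
  simp only [fv, T.mk.injEq]
  refine ⟨?_, ?_, ?_⟩
  · rw [f1]
    linear_combination (-m₂) * hss
  · rw [f3]
    linear_combination (-(yp * xq + xp * yq)) * hss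
  · rw [f2]
    linear_combination (-m₂) * hss

lemma Reps.disc_one {m₁ : ℤ} (h1 : 2 * m₁ = yp * yq + xp * xq) :
    (yp * xq - xp * yq) ^ 2 + 4 * m₁ ^ 2 = p * q := by
  have e : 4 * m₁ ^ 2 = (2 * m₁) ^ 2 := by ring
  rw [e, h1, ← H.rep_p, ← H.rep_q]
  ring

lemma Reps.disc_two {m₂ : ℤ} (h2 : 2 * m₂ = yp * yq - xp * xq) :
    (yp * xq + xp * yq) ^ 2 + 4 * m₂ ^ 2 = p * q := by
  have e : 4 * m₂ ^ 2 = (2 * m₂) ^ 2 := by ring
  rw [e, h2, ← H.rep_p, ← H.rep_q]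
  ring

lemma Reps.exists_inX {m h : ℤ} (hm : 0 < m) (hh : h % 2 = 1) (hd : h ^ 2 + 4 * m ^ 2 = p * q) :
    ∃ σ : ℤ, (σ = 1 ∨ σ = -1) ∧ InX (p * q) ⟨m, σ * h, m⟩ := by
  rcases pos_or (m := m) hh with h1 | h1
  · refine ⟨1, Or.inl rfl, hm, hm, ?_, ?_⟩
    · rw [← hd]
      simp only [disc]
      ring
    · rw [one_mul]
      exact h1
  · refine ⟨-1, Or.inr rfl, hm, hm, ?_, ?_⟩
    · rw [← hd]
      simp only [disc]
      ring
    · rw [neg_one_mul]
      exact h1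

omit H in
lemma cast_even {n : ℕ} {s : ℤ} (hn : Even n) (h : (((n / 2 : ℕ) : ℤ).negOnePow : ℤ) = s) :
    (n : ZMod 4) = 1 - (s : ZMod 4) := by
  obtain ⟨m, rfl⟩ := hn
  rw [show (m + m) / 2 = m by omega] at h
  rcases Nat.even_or_odd' m with ⟨k, rfl | rfl⟩
  · rw [Int.negOnePow_even _ ⟨(k : ℤ), by push_cast; ring⟩] at h
    rw [← h]
    push_cast
    have : (4 : ZMod 4) = 0 := by decide
    linear_combination (k : ZMod 4) * this
  · rw [Int.negOnePow_odd _ ⟨(k : ℤ), by push_cast; ring⟩] at h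
    rw [← h]
    push_cast
    have : (4 : ZMod 4) = 0 := by decide
    linear_combination (k : ZMod 4) * this

/-- The case without solutions. -/
theorem Reps.case_two (hno : ¬ ∃ t u : ℤ, t ^ 2 - p * q * u ^ 2 = -4) :
    (Fintype.card (XX (p * q)) : ZMod 4) = 1 - (eps xp : ZMod 4) ∧
      ∃ X Y s : ℤ, (s = 1 ∨ s = -1) ∧ p * X ^ 2 - q * Y ^ 2 = 4 * s := by
  obtain ⟨m₁, m₂, h1, h2⟩ := H.exists_m
  have hlt := H.lt_prod
  have hx1 := H.xp_pos
  have hx2 := H.xq_pos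
  have hx3 := H.xp_lt
  have hx4 := H.xq_lt
  have hxx : 0 < xp * xq := mul_pos hx1 hx2
  have hm1 : 0 < m₁ := by omega
  have hm2 : 0 < m₂ := by omega
  have d1 := H.disc_one h1
  have d2 := H.disc_two h2
  obtain ⟨o1, o2⟩ := H.h_odd
  obtain ⟨σ₁, hσ₁, g1⟩ := H.exists_inX hm1 o1 d1
  obtain ⟨σ₂, hσ₂, g2⟩ := H.exists_inX hm2 o2 d2
  have hσσ₁ : σ₁ ^ 2 = 1 := by rcases hσ₁ with h | h <;> rw [h] <;> norm_num
  have hσσ₂ : σ₂ ^ 2 = 1 := by rcases hσ₂ with h | h <;> rw [h] <;> norm_num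
  set G₁ : XX (p * q) := ⟨_, g1⟩ with hG₁
  set G₂ : XX (p * q) := ⟨_, g2⟩ with hG₂
  have hGne : G₁ ≠ G₂ := by
    intro h
    have := congrArg (fun x => x.1.a) h
    simp only [hG₁, hG₂] at this
    omega
  have htf : ∀ x, tauP (p * q) x = x ↔ x = G₁ ∨ x = G₂ := by
    intro x
    obtain ⟨⟨a, b, c⟩, hx⟩ := x
    rw [Subtype.ext_iff, tauP_val]
    simp only [tau, hG₁, hG₂, Subtype.mk.injEq, T.mk.injEq]
    constructor
    · rintro ⟨h3, -, -⟩
      subst h3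
      have hd : b ^ 2 + 4 * c ^ 2 = p * q := by
        rw [← hx.disc]
        simp only [disc]
        ring
      have hc0 : 0 < c := hx.cpos
      rcases H.mclass hc0 hd with h4 | h4
      · left
        have h5 : c = m₁ := by omega
        subst h5
        refine ⟨rfl, pos_pm hx.pos g1.pos ?_, rfl⟩
        rw [mul_pow, hσσ₁]
        linarith
      · right
        have h5 : c = m₂ := by omega
        subst h5
        refine ⟨rfl, pos_pm hx.pos g2.pos ?_, rfl⟩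
        rw [mul_pow, hσσ₂]
        linarith
    · rintro (⟨h3, h4, h5⟩ | ⟨h3, h4, h5⟩)
      · simp [h3, h5]
      · simp [h3, h5]
  have heven := even_period H.squarefree H.not_square hno
  obtain ⟨c1, c2, c3⟩ := count_even (τ := tauP (p * q)) (ψ := psiP H.not_square) tauP_tauP
    (psiP_psiP _) heven H.e1_ne_ep hGne H.psi_fixed htf
  change (Fintype.card (XX (p * q)) : ZMod 4) = minimalPeriod (PhiP H.not_square) H.e1 +
    minimalPeriod (PhiP H.not_square) G₁ at c1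
  change (PhiP H.not_square ^ ((minimalPeriod (PhiP H.not_square) H.e1 / 2 : ℕ) : ℤ)) H.e1
    = H.ep at c2
  change (PhiP H.not_square ^ ((minimalPeriod (PhiP H.not_square) G₁ / 2 : ℕ) : ℤ)) G₁
    = G₂ at c3
  -- the sign `s`
  obtain ⟨s, hs⟩ : ∃ s : ℤ, s =
    ((((minimalPeriod (PhiP H.not_square) H.e1 / 2 : ℕ) : ℤ).negOnePow : ℤˣ) : ℤ) := ⟨_, rfl⟩
  have hs1 : s = 1 ∨ s = -1 := by rw [hs]; exact negOnePow_val _
  have hW := W_zpow H.not_square ((minimalPeriod (PhiP H.not_square) H.e1 / 2 : ℕ) : ℤ) H.e1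
  rw [c2, ← hs] at hW
  obtain ⟨x, z, y, w, e1, e2⟩ := hW.symm hs1
  have e3 := congrArg T.c e2
  rw [tw_fields] at e3
  simp only [Reps.e1, Reps.ep, fv] at e3
  have hss : s * s = 1 := by rcases hs1 with h | h <;> rw [h] <;> norm_num
  have hXY : p * (z - 2 * w) ^ 2 - q * z ^ 2 = 4 * s := by
    obtain ⟨r, hr⟩ : ∃ r, q - p = 4 * r := ⟨(q - p) / 4, by
      have := H.p_mod
      have := H.q_mod
      omega⟩
    rw [show (q - p) / 4 = r by omega, show x * w - z * y = s by linarith] at e3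
    have hq : q = p + 4 * r := by linarith
    subst hq
    linear_combination (-4 * s) * e3 + 4 * (p * z * w + r * z ^ 2 - p * w ^ 2) * hss
  refine ⟨?_, z - 2 * w, z, s, hs1, hXY⟩
  -- the second sign
  have hT := H.transform h1 h2 hs1 hXY
  have hWG : W (σ₁ * (s * σ₂)) G₁.1 G₂.1 :=
    ((W_sign hσ₁ m₁ _).symm hσ₁).trans (hT.trans (W_sign hσ₂ m₂ _))
  have hhh := H.hh_mod (k₁ := -yp) (k₂ := xp) (r₁ := yq) (r₂ := xq) (m := m₁) (m' := m₂)
    (by rw [← H.rep_p]; ring) (by rw [← H.rep_q]; ring) (by rw [h1]; ring) (by rw [h2]; ring)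
    hm1 hm2 (h₁ := yp * xq - xp * yq) (h₂ := yp * xq + xp * yq) (by ring) (by ring)
  have hpm := pos_mod g1.pos g2.pos (by
    rw [mul_pow, mul_pow, hσσ₁, hσσ₂]
    linarith)
  have hσε : σ₁ * σ₂ = eps xp := by
    have e4 : σ₁ * (yp * xq - xp * yq) * (σ₂ * (yp * xq + xp * yq)) =
      (σ₁ * σ₂) * ((yp * xq - xp * yq) * (yp * xq + xp * yq)) := by ring
    rw [e4, Int.mul_emod] at hpm
    rw [Int.ModEq] at hhh
    rw [hhh] at hpm
    unfold eps at hpm ⊢
    rcases hσ₁ with h | h <;> rcases hσ₂ with h' | h' <;> rw [h, h'] at hpm ⊢ <;>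
      split_ifs at hpm ⊢ <;> simp at hpm ⊢
  rw [show σ₁ * (s * σ₂) = s * (σ₁ * σ₂) by ring, hσε] at hWG
  have hsε : s * eps xp = 1 ∨ s * eps xp = -1 := by
    unfold eps
    rcases hs1 with h | h <;> rw [h] <;> split_ifs <;> simp
  obtain ⟨k, hk1, hk2⟩ := river_zpow H.not_square hsε hWG
  have hsign : ((((minimalPeriod (PhiP H.not_square) G₁ / 2 : ℕ) : ℤ).negOnePow : ℤˣ) : ℤ)
      = s * eps xp := by
    rw [← hk2]
    have e5 := (eq_iff (PhiP H.not_square) G₁ k _).1 (hk1.trans c3.symm)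
    have e6 : Even (k - ((minimalPeriod (PhiP H.not_square) G₁ / 2 : ℕ) : ℤ)) := by
      obtain ⟨j, hj⟩ := heven G₁
      obtain ⟨i, hi⟩ := e5
      rw [hi, hj]
      push_cast
      exact ⟨j * i, by ring⟩
    rw [(Int.negOnePow_eq_iff _ _).2 e6]
  rw [c1, cast_even (heven H.e1) hs.symm, cast_even (heven G₁) hsign]
  unfold eps
  rcases hs1 with h | h <;> rw [h] <;> split_ifs <;> decide

end

end Pool.Agent.Q8.MC
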