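import Pool.Agent.Q8.MC.Genus

/-!
# The number of cycles modulo four, when all periods are odd
-/

set_option autoImplicit false

namespace Pool.Agent.Q8.MC

open Matrix Function

section

variable {P Q : ℕ} [Fact P.Prime] {xp yp xq yq : ℤ}

/-- A fixed-point count modulo two. -/
lemma card_parity {α : Type} [Fintype α] [DecidableEq α] (G : α → Prop) [DecidablePred G]
    (f : α → α) (hf : ∀ o, f (f o) = o) (hG : ∀ o, G (f o) ↔ G o) {o₁ o₂ : α} (hne : o₁ ≠ o₂)
    (hst : ∀ o, f o = o ↔ o = o₁ ∨ o = o₂) :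
    ((Finset.univ.filter G).card : ZMod 2) = (if G o₁ then 1 else 0) + (if G o₂ then 1 else 0) := by
  have h0 : ∑ o ∈ (Finset.univ.filter fun o => G o ∧ ¬ (o = o₁ ∨ o = o₂)), (1 : ZMod 2) = 0 := by
    apply Finset.sum_involution (fun o _ => f o)
    · intro o _
      decide
    · intro o ho _ h
      rw [Finset.mem_filter] at ho
      exact ho.2.2 ((hst o).1 h)
    · intro o ho
      rw [Finset.mem_filter] at ho ⊢
      refine ⟨Finset.mem_univ _, (hG o).2 ho.2.1, ?_⟩
      intro h
      apply ho.2.2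
      rw [← hst] at h ⊢
      rw [hf] at h
      exact h.symm
    · intro o _
      exact hf o
  have h1 : ∀ o, (if G o then (1 : ZMod 2) else 0) =
      (if (G o ∧ ¬ (o = o₁ ∨ o = o₂)) then 1 else 0) +
      ((if o = o₁ then (if G o₁ then 1 else 0) else 0) +
        (if o = o₂ then (if G o₂ then 1 else 0) else 0)) := by
    intro o
    by_cases e1 : o = o₁
    · subst e1
      have : ¬ o = o₂ := hne
      by_cases hg : G o <;> simp [hg, this]
    · by_cases e2 : o = o₂
      · subst e2
        by_cases hg : G o <;> simp [hg, e1]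
      · by_cases hg : G o <;> simp [hg, e1, e2]
  have h2 : ((Finset.univ.filter G).card : ZMod 2) = ∑ o, (if G o then (1 : ZMod 2) else 0) := by
    rw [← Finset.sum_filter, Finset.sum_const, nsmul_eq_mul, mul_one]
  rw [h2, Finset.sum_congr rfl (fun o _ => h1 o), Finset.sum_add_distrib, Finset.sum_add_distrib,
    ← Finset.sum_filter, h0, zero_add]
  simp

/-- The number of cycles. -/
theorem Reps.classes (H : Reps (P : ℤ) (Q : ℤ) xp yp xq yq)
    (hodd : ∀ x, Odd (minimalPeriod (PhiP H.not_square) x)) {l s : ℤ}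
    (hp : HPrime ((P : ℤ) * Q) l s) (hl : legendreSym P l = -1) :
    (Fintype.card (Cyc (PhiP H.not_square)) : ZMod 4) - 2 = 1 + (legendreSym P Q : ZMod 4) := by
  classical
  have hP5 := H.five_le
  have hP2 : P ≠ 2 := by
    rintro rfl
    norm_num at hP5
  have hneg : legendreSym P (-1) = 1 := by
    rw [legendreSym.at_neg_one hP2, ZMod.χ₄_nat_one_mod_four]
    have := H.p_mod
    omega
  have hD0 : 0 < (P : ℤ) * Q := mul_pos H.p_pos (H.p_pos.trans H.p_lt)
  have hWneg : ∀ x : XX ((P : ℤ) * Q), W (-1) x.1 x.1 := by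
    intro x
    have h2 := W_zpow H.not_square ((minimalPeriod (PhiP H.not_square) x : ℕ) : ℤ) x
    rw [(per_iff _ _ _).2 dvd_rfl, Int.negOnePow_odd _ (by exact_mod_cast hodd x)] at h2
    exact h2
  have cyc_of_W : ∀ x y : XX ((P : ℤ) * Q), W 1 x.1 y.1 →
      cyc (PhiP H.not_square) x = cyc (PhiP H.not_square) y := by
    intro x y h
    obtain ⟨k, hk, -⟩ := river_zpow H.not_square (Or.inl rfl) h
    exact (cyc_eq _ _ _).2 ⟨k, hk⟩
  have W_of_cyc : ∀ x y : XX ((P : ℤ) * Q),
      cyc (PhiP H.not_square) x = cyc (PhiP H.not_square) y → W 1 x.1 y.1 := by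
    intro x y h
    obtain ⟨k, rfl⟩ := (cyc_eq _ _ _).1 h
    have h2 := W_zpow H.not_square k x
    rcases negOnePow_val k with h3 | h3
    · rwa [h3] at h2
    · rw [h3] at h2
      simpa using (hWneg x).trans h2
  -- the genus of a cycle
  set G : Cyc (PhiP H.not_square) → Prop := fun o => gen P o.out.1 with hG
  have hGc : ∀ x, G (cyc (PhiP H.not_square) x) ↔ gen P x.1 := by
    intro x
    exact gen_W hneg (Or.inl rfl) (W_of_cyc _ _ (cyc_out _ _))
  -- the Hecke correspondence
  have hH : ∀ o : Cyc (PhiP H.not_square), ∃ (y : XX ((P : ℤ) * Q)) (a b c : ℤ),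
      W 1 o.out.1 ⟨l * a, b, c⟩ ∧ 2 * l ∣ b - s ∧ W 1 ⟨a, b, l * c⟩ y.1 := by
    intro o
    obtain ⟨a, b, c, h1, h2⟩ := hp.exists_rep H.pq_mod o.out.2.disc
    have h3 : disc ⟨l * a, b, c⟩ = (P : ℤ) * Q := by rw [h1.disc_eq, o.out.2.disc]
    have h4 : disc ⟨a, b, l * c⟩ = (P : ℤ) * Q := by
      rw [← h3]
      simp only [disc]
      ring
    obtain ⟨y, hy⟩ := exists_XX hD0 H.not_square H.pq_mod h4
    exact ⟨y, a, b, c, h1, h2, hy⟩
  choose Y A B C h1 h2 h3 using hH
  set Hk : Cyc (PhiP H.not_square) → Cyc (PhiP H.not_square) :=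
    fun o => cyc (PhiP H.not_square) (Y o) with hHk
  have hinj : Injective Hk := by
    intro o o' h
    have h4 := W_of_cyc _ _ h
    have h5 : W 1 ⟨A o, B o, l * C o⟩ ⟨A o', B o', l * C o'⟩ :=
      ((h3 o).one_trans h4).one_trans (h3 o').one_symm
    have h6 := hp.inj (h2 o) (h2 o') h5
    have h7 := ((h1 o).one_trans h6).one_trans (h1 o').one_symm
    have h8 := cyc_of_W _ _ h7
    rwa [cyc_out, cyc_out] at h8
  have hflip : ∀ o, G (Hk o) ↔ ¬ G o := by
    intro o
    rw [hHk, hGc, ← gen_W hneg (Or.inl rfl) (h3 o)]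
    change _ ↔ ¬ gen P o.out.1
    have h4 : disc ⟨l * A o, B o, C o⟩ = (P : ℤ) * Q := by rw [(h1 o).disc_eq, o.out.2.disc]
    rw [gen_hecke hP2 H.squarefree (Dvd.intro _ rfl) hl h4, gen_W hneg (Or.inl rfl) (h1 o)]
  have hcard : (Finset.univ.filter G).card = (Finset.univ.filter fun o => ¬ G o).card := by
    apply le_antisymm
    · apply Finset.card_le_card_of_injOn Hk
      · intro o ho
        simp only [Finset.coe_filter, Finset.mem_univ, true_and, Set.mem_ofPred_eq] at ho ⊢
        rw [hflip, not_not]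
        exact ho
      · exact hinj.injOn
    · apply Finset.card_le_card_of_injOn Hk
      · intro o ho
        simp only [Finset.coe_filter, Finset.mem_univ, true_and, Set.mem_ofPred_eq] at ho ⊢
        rw [hflip]
        exact ho
      · exact hinj.injOn
  have htot : (Finset.univ.filter G).card + (Finset.univ.filter fun o => ¬ G o).card =
      Fintype.card (Cyc (PhiP H.not_square)) := by
    rw [Finset.card_filter_add_card_filter_not]
    rfl
  -- parity
  obtain ⟨-, hne, hst⟩ := count_odd (τ := tauP ((P : ℤ) * Q)) (ψ := psiP H.not_square) tauP_tauP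
    (psiP_psiP _) hodd H.e1_ne_ep H.psi_fixed
  have hbar : ∀ o : Cyc (PhiP H.not_square), bar tauP_tauP (psiP_psiP H.not_square) o =
      cyc (PhiP H.not_square) (tauP _ o.out) := by
    intro o
    conv_lhs => rw [← cyc_out (PhiP H.not_square) o]
    rfl
  have hgt : ∀ e : T, gen P e → gen P (tau e) := by
    rintro e ⟨x, y, h⟩
    refine ⟨-y, x, ?_⟩
    have e1 : fv (tau e) (-y) x = -1 * fv e x y := by
      simp only [fv, tau]
      ring
    rw [e1, legendreSym.mul, hneg, one_mul, h]
  have hpar := card_parity (α := Cyc (PhiP H.not_square)) G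
    (bar tauP_tauP (psiP_psiP H.not_square)) (bar_bar _ _) (by
      intro o
      rw [hbar, hGc]
      change gen P (tau o.out.1) ↔ gen P o.out.1
      exact ⟨fun h => by simpa [tau_tau] using hgt _ h, hgt _⟩) hne hst
  have hG1 : G (cyc (PhiP H.not_square) H.e1) := by
    rw [hGc]
    refine ⟨0, 1, ?_⟩
    have : fv (H.e1).1 0 1 = -1 := by simp [fv, Reps.e1]
    rw [this, hneg]
  have hPQ : ((Q : ℤ) : ZMod P) ≠ 0 := by
    intro h
    rw [ZMod.intCast_zmod_eq_zero_iff_dvd] at h
    have h5 : P ∣ Q := by exact_mod_cast h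
    have hQp : Q.Prime := Nat.prime_iff_prime_int.2 H.prime_q
    have h6 := (Nat.prime_dvd_prime_iff_eq Fact.out hQp).1 h5
    have := H.p_lt
    rw [h6] at this
    exact lt_irrefl _ this
  have hleg : legendreSym P (((Q : ℤ) - P) / 4) = legendreSym P Q := by
    obtain ⟨r, hr⟩ : ∃ r, (Q : ℤ) - P = 4 * r := ⟨((Q : ℤ) - P) / 4, by
      have := H.p_mod
      have := H.q_mod
      omega⟩
    rw [show ((Q : ℤ) - P) / 4 = r by omega]
    have h20 : ((2 : ℤ) : ZMod P) ≠ 0 := by
      intro h
      rw [ZMod.intCast_zmod_eq_zero_iff_dvd] at h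
      have h3 : P ∣ 2 := by exact_mod_cast h
      exact hP2 ((Nat.prime_dvd_prime_iff_eq Fact.out Nat.prime_two).1 h3)
    have h5 : legendreSym P (2 ^ 2 * r) = legendreSym P Q := by
      apply leg_congr
      have : (2 : ℤ) ^ 2 * r = Q - P := by linarith
      rw [this]
      push_cast
      rw [ZMod.natCast_self, sub_zero]
    rw [legendreSym.mul, legendreSym.sq_one' P h20, one_mul] at h5
    exact h5
  have hG2 : G (cyc (PhiP H.not_square) H.ep) ↔ legendreSym P Q = 1 := by
    rw [hGc]
    have e1 : fv (H.ep).1 1 0 = ((Q : ℤ) - P) / 4 := by simp [fv, Reps.ep]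
    have h0 : legendreSym P (fv (H.ep).1 1 0) ≠ 0 := by
      rw [e1, hleg, Ne, legendreSym.eq_zero_iff]
      exact hPQ
    rw [gen_iff hP2 (by rw [H.ep.2.disc]; exact Dvd.intro _ rfl) h0, e1, hleg]
  change _ = (if G (cyc (PhiP H.not_square) H.e1) then (1 : ZMod 2) else 0)
    + (if G (cyc (PhiP H.not_square) H.ep) then (1 : ZMod 2) else 0) at hpar
  rw [if_pos hG1] at hpar
  have h4z : (4 : ZMod 4) = 0 := by decide
  rw [← htot, ← hcard]
  rcases legendreSym.eq_one_or_neg_one P hPQ with h5 | h5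
  · rw [if_pos (hG2.2 h5)] at hpar
    have h6 : Even (Finset.univ.filter G).card := by
      rw [← ZMod.natCast_eq_zero_iff_even, hpar]
      decide
    obtain ⟨k, hk⟩ := h6
    rw [hk, h5]
    push_cast
    linear_combination ((k : ZMod 4) - 1) * h4z
  · rw [if_neg (fun h => by
      have := hG2.1 h
      rw [h5] at this
      norm_num at this), add_zero] at hpar
    have h6 : Odd (Finset.univ.filter G).card := by
      rw [← ZMod.natCast_eq_one_iff_odd, hpar]
    obtain ⟨k, hk⟩ := h6
    rw [hk, h5]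
    push_cast
    linear_combination (k : ZMod 4) * h4z

end

end Pool.Agent.Q8.MC
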