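import Mathlib

/-!
# Two involutions of a finite set and the cycles of their product
-/

set_option autoImplicit false
set_option linter.unusedSectionVars false

namespace Pool.Agent.Q8.MC

open Function

section

variable {X : Type} [Fintype X] [DecidableEq X]

lemma per_iff (f : Equiv.Perm X) (x : X) (k : ℤ) :
    (f ^ k) x = x ↔ (minimalPeriod f x : ℤ) ∣ k :=
  MulAction.zpow_smul_eq_iff_minimalPeriod_dvd (a := f) (b := x) (n := k)

lemma per_pos (f : Equiv.Perm X) (x : X) : 0 < minimalPeriod f x := by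
  have h1 : (f ^ (orderOf f : ℤ)) x = x := by
    rw [zpow_natCast, pow_orderOf_eq_one]
    rfl
  have h2 := (per_iff f x _).1 h1
  have h3 : 0 < orderOf f := orderOf_pos f
  rcases Nat.eq_zero_or_pos (minimalPeriod f x) with h4 | h4
  · rw [h4] at h2
    have h5 : 0 ∣ orderOf f := by exact_mod_cast h2
    exact absurd (zero_dvd_iff.1 h5) h3.ne'
  · exact h4

lemma zpow_add_apply (f : Equiv.Perm X) (j k : ℤ) (x : X) : (f ^ (j + k)) x = (f ^ j) ((f ^ k) x) := by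
  rw [zpow_add]
  rfl

lemma eq_iff (f : Equiv.Perm X) (x : X) (j k : ℤ) :
    (f ^ j) x = (f ^ k) x ↔ (minimalPeriod f x : ℤ) ∣ j - k := by
  rw [← per_iff, sub_eq_neg_add, zpow_add_apply]
  constructor
  · intro h
    rw [h, ← zpow_add_apply]
    simp
  · intro h
    have h1 : (f ^ k) ((f ^ (-k)) ((f ^ j) x)) = (f ^ k) x := by rw [h]
    rw [← zpow_add_apply] at h1
    simpa using h1

/-- the cycles -/
abbrev Cyc (f : Equiv.Perm X) := Quotient (Equiv.Perm.SameCycle.setoid f)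

/-- the cycle of a point -/
def cyc (f : Equiv.Perm X) (x : X) : Cyc f := Quotient.mk (Equiv.Perm.SameCycle.setoid f) x

instance (f : Equiv.Perm X) : DecidableRel (Equiv.Perm.SameCycle.setoid f).r :=
  fun a b => inferInstanceAs (Decidable (f.SameCycle a b))

lemma cyc_eq (f : Equiv.Perm X) (x y : X) : cyc f x = cyc f y ↔ ∃ k : ℤ, (f ^ k) x = y := by
  unfold cyc
  rw [Quotient.eq]
  rfl

lemma period_cyc (f : Equiv.Perm X) {x y : X} (h : cyc f x = cyc f y) :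
    minimalPeriod f x = minimalPeriod f y := by
  obtain ⟨k, rfl⟩ := (cyc_eq f x y).1 h
  have h1 : ∀ m : ℤ, (f ^ m) x = x ↔ (f ^ m) ((f ^ k) x) = (f ^ k) x := by
    intro m
    rw [← zpow_add_apply, add_comm, zpow_add_apply]
    exact ((f ^ k).injective.eq_iff).symm
  apply Nat.dvd_antisymm
  · have h2 := (per_iff f x (minimalPeriod f ((f ^ k) x))).1
      ((h1 _).2 ((per_iff f _ _).2 dvd_rfl))
    exact_mod_cast h2
  · have h2 := (per_iff f ((f ^ k) x) (minimalPeriod f x)).1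
      ((h1 _).1 ((per_iff f _ _).2 dvd_rfl))
    exact_mod_cast h2

lemma card_fibre (f : Equiv.Perm X) (x : X) :
    Fintype.card {y // cyc f y = cyc f x} = minimalPeriod f x := by
  classical
  have := Fintype.ofFinite (MulAction.orbit (Subgroup.zpowers f) x)
  have h := MulAction.minimalPeriod_eq_card (a := f) (b := x)
  rw [show minimalPeriod (⇑f) x = minimalPeriod (f • ·) x from rfl, h]
  apply Fintype.card_congr
  apply Equiv.subtypeEquivRight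
  intro y
  rw [MulAction.mem_orbit_iff, eq_comm, cyc_eq]
  constructor
  · rintro ⟨k, hk⟩
    exact ⟨⟨f ^ k, Subgroup.zpow_mem_zpowers f k⟩, hk⟩
  · rintro ⟨⟨g, hg⟩, hk⟩
    obtain ⟨k, rfl⟩ := Subgroup.mem_zpowers_iff.1 hg
    exact ⟨k, hk⟩

/-- the length of a cycle -/
noncomputable def len (f : Equiv.Perm X) (o : Cyc f) : ℕ := minimalPeriod f o.out

lemma cyc_out (f : Equiv.Perm X) (o : Cyc f) : cyc f o.out = o := Quotient.out_eq o

lemma len_cyc (f : Equiv.Perm X) (x : X) : len f (cyc f x) = minimalPeriod f x :=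
  period_cyc f (cyc_out f _)

lemma card_eq_sum (f : Equiv.Perm X) : Fintype.card X = ∑ o : Cyc f, len f o := by
  classical
  rw [← Fintype.card_congr (Equiv.sigmaFiberEquiv (cyc f)), Fintype.card_sigma]
  apply Finset.sum_congr rfl
  intro o _
  have h := card_fibre f o.out
  rw [cyc_out] at h
  exact h

variable {τ ψ : Equiv.Perm X} (hτ : ∀ x, τ (τ x) = x) (hψ : ∀ x, ψ (ψ x) = x)

include hτ hψ in
lemma conj_zpow' (k : ℤ) (x : X) : τ (((τ * ψ) ^ k) x) = ((τ * ψ) ^ (-k)) (τ x) := by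
  have h1 : τ * τ = 1 := Equiv.ext hτ
  have h2 : ψ * ψ = 1 := Equiv.ext hψ
  have hi : τ⁻¹ = τ := inv_eq_of_mul_eq_one_left h1
  have hj : ψ⁻¹ = ψ := inv_eq_of_mul_eq_one_left h2
  have h3 : τ * (τ * ψ) * τ⁻¹ = (τ * ψ)⁻¹ := by
    rw [mul_inv_rev, hi, hj, ← mul_assoc, h1, one_mul]
  have h4 : τ * (τ * ψ) ^ k * τ⁻¹ = (τ * ψ) ^ (-k) := by
    rw [← conj_zpow, h3, inv_zpow', zpow_neg]
  have h5 : τ * (τ * ψ) ^ k = (τ * ψ) ^ (-k) * τ := by
    rw [← h4]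
    group
  exact congrArg (fun g : Equiv.Perm X => g x) h5

include hτ in
lemma psi_eq (x : X) : ψ x = τ ((τ * ψ) x) := by
  rw [Equiv.Perm.mul_apply, hτ]

include hτ hψ in
lemma psi_zpow (k : ℤ) (x : X) : ψ (((τ * ψ) ^ k) x) = ((τ * ψ) ^ (-k - 1)) (τ x) := by
  rw [psi_eq hτ]
  have h1 : (τ * ψ) (((τ * ψ) ^ k) x) = ((τ * ψ) ^ (k + 1)) x := by
    rw [add_comm, zpow_add_apply, zpow_one]
  rw [h1, conj_zpow' hτ hψ]
  congr 2
  ring

include hτ hψ in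
lemma tt {x : X} (hx : τ x = x) (k : ℤ) :
    τ (((τ * ψ) ^ k) x) = ((τ * ψ) ^ k) x ↔ (minimalPeriod (τ * ψ) x : ℤ) ∣ 2 * k := by
  rw [conj_zpow' hτ hψ, hx, eq_iff, ← dvd_neg]
  congr! 1
  ring

include hτ hψ in
lemma tp {x : X} (hx : τ x = x) (k : ℤ) :
    ψ (((τ * ψ) ^ k) x) = ((τ * ψ) ^ k) x ↔ (minimalPeriod (τ * ψ) x : ℤ) ∣ 2 * k + 1 := by
  rw [psi_zpow hτ hψ, hx, eq_iff, ← dvd_neg]
  congr! 1
  ring

include hτ hψ in
lemma pp {x : X} (hx : ψ x = x) (k : ℤ) :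
    ψ (((τ * ψ) ^ k) x) = ((τ * ψ) ^ k) x ↔ (minimalPeriod (τ * ψ) x : ℤ) ∣ 2 * k := by
  have h1 : τ x = ((τ * ψ) ^ (1 : ℤ)) x := by
    rw [zpow_one, Equiv.Perm.mul_apply, hx]
  rw [psi_zpow hτ hψ, h1, ← zpow_add_apply, eq_iff, ← dvd_neg]
  congr! 1
  ring

/-- the action of the involution on the cycles -/
def bar (hτ : ∀ x, τ (τ x) = x) (hψ : ∀ x, ψ (ψ x) = x) : Cyc (τ * ψ) → Cyc (τ * ψ) :=
  Quotient.map' τ (by
    rintro x y ⟨k, rfl⟩
    exact ⟨-k, (conj_zpow' hτ hψ k x).symm⟩)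

lemma bar_cyc (x : X) : bar hτ hψ (cyc (τ * ψ) x) = cyc (τ * ψ) (τ x) := rfl

lemma bar_bar (o : Cyc (τ * ψ)) : bar hτ hψ (bar hτ hψ o) = o := by
  rw [← cyc_out _ o, bar_cyc, bar_cyc, hτ]

include hτ hψ in
lemma period_tau (x : X) : minimalPeriod (τ * ψ) (τ x) = minimalPeriod (τ * ψ) x := by
  have h1 : ∀ m : ℤ, ((τ * ψ) ^ m) (τ x) = τ x ↔ ((τ * ψ) ^ (-m)) x = x := by
    intro m
    have := conj_zpow' hτ hψ (-m) x
    rw [neg_neg] at this
    rw [← this]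
    exact τ.injective.eq_iff
  apply Nat.dvd_antisymm
  · have h2 := (per_iff (τ * ψ) (τ x) (-(minimalPeriod (τ * ψ) x : ℤ))).1
      ((h1 _).2 ((per_iff _ _ _).2 (by simp)))
    rw [dvd_neg] at h2
    exact_mod_cast h2
  · have h2 := (per_iff (τ * ψ) x (-(minimalPeriod (τ * ψ) (τ x) : ℤ))).1
      ((h1 _).1 ((per_iff _ _ _).2 dvd_rfl))
    rw [dvd_neg] at h2
    exact_mod_cast h2

lemma len_bar (o : Cyc (τ * ψ)) : len (τ * ψ) (bar hτ hψ o) = len (τ * ψ) o := by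
  rw [← cyc_out _ o, bar_cyc, len_cyc, len_cyc, period_tau hτ hψ]

lemma stable_fixed {x : X} (h : bar hτ hψ (cyc (τ * ψ) x) = cyc (τ * ψ) x) :
    ∃ y, cyc (τ * ψ) y = cyc (τ * ψ) x ∧ (τ y = y ∨ ψ y = y) := by
  rw [bar_cyc, eq_comm, cyc_eq] at h
  obtain ⟨k, hk⟩ := h
  rcases Int.even_or_odd' k with ⟨j, rfl | rfl⟩
  · refine ⟨((τ * ψ) ^ j) x, ((cyc_eq _ _ _).2 ⟨j, rfl⟩).symm, Or.inl ?_⟩
    rw [conj_zpow' hτ hψ, ← hk, ← zpow_add_apply]
    congr 2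
    ring
  · refine ⟨((τ * ψ) ^ j) x, ((cyc_eq _ _ _).2 ⟨j, rfl⟩).symm, Or.inr ?_⟩
    rw [psi_zpow hτ hψ, ← hk, ← zpow_add_apply]
    congr 2
    ring

/-- The count modulo four. -/
theorem count (r : ℕ) (hr : ∀ x, minimalPeriod (τ * ψ) x % 2 = r % 2) {o₁ o₂ : Cyc (τ * ψ)}
    (hne : o₁ ≠ o₂) (hst : ∀ o, bar hτ hψ o = o ↔ o = o₁ ∨ o = o₂) :
    (Fintype.card X : ZMod 4) =
      len (τ * ψ) o₁ + len (τ * ψ) o₂ + r * ((Fintype.card (Cyc (τ * ψ)) : ZMod 4) - 2) := by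
  classical
  set S : Finset (Cyc (τ * ψ)) := {o₁, o₂}ᶜ with hS
  have hmem : ∀ o, o ∈ S ↔ ¬ (o = o₁ ∨ o = o₂) := by
    intro o
    simp [hS]
  have h0 : ∑ o ∈ S, ((len (τ * ψ) o : ZMod 4) - r) = 0 := by
    apply Finset.sum_involution (fun o _ => bar hτ hψ o)
    · intro o _
      rw [len_bar]
      have h1 : (len (τ * ψ) o) % 2 = r % 2 := hr _
      have h2 : ∃ k : ℤ, (len (τ * ψ) o : ℤ) - r = 2 * k := ⟨((len (τ * ψ) o : ℤ) - r) / 2, by omega⟩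
      obtain ⟨k, hk⟩ := h2
      have h3 : ((len (τ * ψ) o : ZMod 4) - r) = 2 * (k : ZMod 4) := by
        have := congrArg (fun z : ℤ => (z : ZMod 4)) hk
        push_cast at this
        exact this
      rw [h3]
      have h4 : (4 : ZMod 4) = 0 := by decide
      linear_combination (k : ZMod 4) * h4
    · intro o ho _ h
      exact (hmem o).1 ho ((hst o).1 h)
    · intro o ho
      rw [hmem]
      intro h
      apply (hmem o).1 ho
      rw [← hst] at h ⊢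
      rw [bar_bar] at h
      exact h.symm
    · intro o _
      exact bar_bar hτ hψ o
  have hpair : ∑ o ∈ ({o₁, o₂} : Finset (Cyc (τ * ψ))), (len (τ * ψ) o : ZMod 4) =
      len (τ * ψ) o₁ + len (τ * ψ) o₂ := Finset.sum_pair hne
  have hcard : (S.card : ZMod 4) = (Fintype.card (Cyc (τ * ψ)) : ZMod 4) - 2 := by
    have h1 : S.card + ({o₁, o₂} : Finset (Cyc (τ * ψ))).card = Fintype.card (Cyc (τ * ψ)) := by
      rw [hS]
      exact Finset.card_compl_add_card _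
    rw [Finset.card_pair hne] at h1
    rw [← h1]
    push_cast
    ring
  rw [card_eq_sum (τ * ψ)]
  push_cast
  rw [← Finset.sum_compl_add_sum ({o₁, o₂} : Finset (Cyc (τ * ψ))), hpair, ← hS]
  rw [Finset.sum_sub_distrib, Finset.sum_const, nsmul_eq_mul, hcard, sub_eq_zero] at h0
  rw [h0]
  ring

include hτ hψ in
/-- All periods even. -/
theorem count_even (he : ∀ x, Even (minimalPeriod (τ * ψ) x)) {e₁ e₂ g₁ g₂ : X} (hene : e₁ ≠ e₂)
    (hgne : g₁ ≠ g₂) (hpf : ∀ x, ψ x = x ↔ x = e₁ ∨ x = e₂) (htf : ∀ x, τ x = x ↔ x = g₁ ∨ x = g₂) :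
    (Fintype.card X : ZMod 4) = minimalPeriod (τ * ψ) e₁ + minimalPeriod (τ * ψ) g₁ ∧
      ((τ * ψ) ^ ((minimalPeriod (τ * ψ) e₁ / 2 : ℕ) : ℤ)) e₁ = e₂ ∧
      ((τ * ψ) ^ ((minimalPeriod (τ * ψ) g₁ / 2 : ℕ) : ℤ)) g₁ = g₂ := by
  have hhalf : ∀ x, ((τ * ψ) ^ ((minimalPeriod (τ * ψ) x / 2 : ℕ) : ℤ)) x ≠ x := by
    intro x h
    rw [per_iff] at h
    have h1 := per_pos (τ * ψ) x
    obtain ⟨m, hm⟩ := he x
    have h2 : minimalPeriod (τ * ψ) x ∣ minimalPeriod (τ * ψ) x / 2 := by exact_mod_cast h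
    have h3 := Nat.le_of_dvd (by omega) h2
    omega
  have hA : ((τ * ψ) ^ ((minimalPeriod (τ * ψ) e₁ / 2 : ℕ) : ℤ)) e₁ = e₂ := by
    have h1 : ψ (((τ * ψ) ^ ((minimalPeriod (τ * ψ) e₁ / 2 : ℕ) : ℤ)) e₁) = _ :=
      (pp hτ hψ ((hpf e₁).2 (Or.inl rfl)) _).2 (by
        obtain ⟨m, hm⟩ := he e₁
        exact ⟨1, by omega⟩)
    rcases (hpf _).1 h1 with h2 | h2
    · exact absurd h2 (hhalf e₁)
    · exact h2
  have hB : ((τ * ψ) ^ ((minimalPeriod (τ * ψ) g₁ / 2 : ℕ) : ℤ)) g₁ = g₂ := by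
    have h1 : τ (((τ * ψ) ^ ((minimalPeriod (τ * ψ) g₁ / 2 : ℕ) : ℤ)) g₁) = _ :=
      (tt hτ hψ ((htf g₁).2 (Or.inl rfl)) _).2 (by
        obtain ⟨m, hm⟩ := he g₁
        exact ⟨1, by omega⟩)
    rcases (htf _).1 h1 with h2 | h2
    · exact absurd h2 (hhalf g₁)
    · exact h2
  refine ⟨?_, hA, hB⟩
  have hne : cyc (τ * ψ) e₁ ≠ cyc (τ * ψ) g₁ := by
    intro h
    obtain ⟨k, hk⟩ := (cyc_eq _ _ _).1 h.symm
    have h1 := (tp hτ hψ ((htf g₁).2 (Or.inl rfl)) k).1 (by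
      rw [hk]
      exact (hpf e₁).2 (Or.inl rfl))
    obtain ⟨m, hm⟩ := he g₁
    obtain ⟨c, hc⟩ := h1
    rw [hm] at hc
    push_cast at hc
    have : (2 : ℤ) * (k - m * c) = -1 := by linarith
    omega
  have hst : ∀ o, bar hτ hψ o = o ↔ o = cyc (τ * ψ) e₁ ∨ o = cyc (τ * ψ) g₁ := by
    intro o
    constructor
    · intro h
      rw [← cyc_out _ o] at h
      obtain ⟨y, hy, h1 | h1⟩ := stable_fixed hτ hψ h
      · rw [cyc_out] at hy
        rw [← hy]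
        rcases (htf y).1 h1 with rfl | rfl
        · exact Or.inr rfl
        · right
          rw [eq_comm, cyc_eq]
          exact ⟨_, hB⟩
      · rw [cyc_out] at hy
        rw [← hy]
        rcases (hpf y).1 h1 with rfl | rfl
        · exact Or.inl rfl
        · left
          rw [eq_comm, cyc_eq]
          exact ⟨_, hA⟩
    · rintro (rfl | rfl)
      · rw [bar_cyc, eq_comm, cyc_eq]
        refine ⟨1, ?_⟩
        rw [zpow_one, Equiv.Perm.mul_apply, (hpf e₁).2 (Or.inl rfl)]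
      · rw [bar_cyc, (htf g₁).2 (Or.inl rfl)]
  have h := count hτ hψ 0 (fun x => by
    obtain ⟨m, hm⟩ := he x
    omega) hne hst
  rw [h, len_cyc, len_cyc]
  simp

/-- All periods odd. -/
theorem count_odd (ho : ∀ x, Odd (minimalPeriod (τ * ψ) x)) {e₁ e₂ : X} (hene : e₁ ≠ e₂)
    (hpf : ∀ x, ψ x = x ↔ x = e₁ ∨ x = e₂) :
    (Fintype.card X : ZMod 4) = minimalPeriod (τ * ψ) e₁ + minimalPeriod (τ * ψ) e₂
        + ((Fintype.card (Cyc (τ * ψ)) : ZMod 4) - 2) ∧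
      cyc (τ * ψ) e₁ ≠ cyc (τ * ψ) e₂ ∧
      ∀ o, bar hτ hψ o = o ↔ o = cyc (τ * ψ) e₁ ∨ o = cyc (τ * ψ) e₂ := by
  have hne : cyc (τ * ψ) e₁ ≠ cyc (τ * ψ) e₂ := by
    intro h
    obtain ⟨k, hk⟩ := (cyc_eq _ _ _).1 h
    have h1 := (pp hτ hψ ((hpf e₁).2 (Or.inl rfl)) k).1 (by
      rw [hk]
      exact (hpf e₂).2 (Or.inr rfl))
    have h2 : IsCoprime (minimalPeriod (τ * ψ) e₁ : ℤ) 2 := by
      rw [Int.isCoprime_iff_gcd_eq_one]
      have := (Nat.coprime_two_right).2 (ho e₁)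
      exact_mod_cast this
    have h3 := h2.dvd_of_dvd_mul_left h1
    rw [← per_iff, hk] at h3
    exact hene h3.symm
  have hst : ∀ o, bar hτ hψ o = o ↔ o = cyc (τ * ψ) e₁ ∨ o = cyc (τ * ψ) e₂ := by
    intro o
    constructor
    · intro h
      have key : ∃ y, cyc (τ * ψ) y = o ∧ ψ y = y := by
        rw [← cyc_out _ o] at h
        obtain ⟨y, hy, h1 | h1⟩ := stable_fixed hτ hψ h
        · rw [cyc_out] at hy
          obtain ⟨m, hm⟩ := ho y
          refine ⟨((τ * ψ) ^ (m : ℤ)) y, ?_, (tp hτ hψ h1 m).2 ?_⟩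
          · rw [← hy, eq_comm, cyc_eq]
            exact ⟨_, rfl⟩
          · rw [hm]
            push_cast
            exact dvd_rfl
        · exact ⟨y, by rw [hy, cyc_out], h1⟩
      obtain ⟨y, hy, h1⟩ := key
      rw [← hy]
      rcases (hpf y).1 h1 with rfl | rfl
      · exact Or.inl rfl
      · exact Or.inr rfl
    · have hb : ∀ x, ψ x = x → bar hτ hψ (cyc (τ * ψ) x) = cyc (τ * ψ) x := by
        intro x hx
        rw [bar_cyc, eq_comm, cyc_eq]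
        refine ⟨1, ?_⟩
        rw [zpow_one, Equiv.Perm.mul_apply, hx]
      rintro (rfl | rfl)
      · exact hb _ ((hpf e₁).2 (Or.inl rfl))
      · exact hb _ ((hpf e₂).2 (Or.inr rfl))
  refine ⟨?_, hne, hst⟩
  have h := count hτ hψ 1 (fun x => by
    obtain ⟨m, hm⟩ := ho x
    omega) hne hst
  rw [h, len_cyc, len_cyc]
  simp

end

end Pool.Agent.Q8.MC
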