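import Pool.Agent.Q8.MC.Classes

/-!
# The number of forms modulo four
-/

set_option autoImplicit false

namespace Pool.Agent.Q8.MC

open Matrix Function

lemma exists_hprime {P Q : ℕ} [Fact P.Prime] [Fact Q.Prime] (hP4 : P % 4 = 1) (hQ4 : Q % 4 = 1)
    (hne : P ≠ Q) : ∃ l s : ℤ, HPrime ((P : ℤ) * Q) l s ∧ legendreSym P l = -1 := by
  have hP2 : P ≠ 2 := by rintro rfl; norm_num at hP4
  have hQ2 : Q ≠ 2 := by rintro rfl; norm_num at hQ4
  obtain ⟨a, ha⟩ := FiniteField.exists_nonsquare (F := ZMod P) (by rw [ZMod.ringChar_zmod_n]; exact hP2)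
  obtain ⟨b, hb⟩ := FiniteField.exists_nonsquare (F := ZMod Q) (by rw [ZMod.ringChar_zmod_n]; exact hQ2)
  have hcop : Nat.Coprime P Q := (Nat.coprime_primes Fact.out Fact.out).2 hne
  have : NeZero (P * Q) := ⟨mul_ne_zero (Fact.out : P.Prime).ne_zero (Fact.out : Q.Prime).ne_zero⟩
  have ha0 : a ≠ 0 := by rintro rfl; exact ha (IsSquare.zero)
  have hb0 : b ≠ 0 := by rintro rfl; exact hb (IsSquare.zero)
  have hu : IsUnit ((ZMod.chineseRemainder hcop).symm (a, b)) := by
    apply IsUnit.map
    rw [Prod.isUnit_iff]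
    exact ⟨isUnit_iff_ne_zero.2 ha0, isUnit_iff_ne_zero.2 hb0⟩
  obtain ⟨l, hl2, hlp, hl⟩ := Nat.forall_exists_prime_gt_and_eq_mod hu 2
  have hlab : ((l : ZMod P), (l : ZMod Q)) = (a, b) := by
    have h1 := congrArg (ZMod.chineseRemainder hcop) hl
    rw [RingEquiv.apply_symm_apply, map_natCast] at h1
    rw [← h1]
    rfl
  have hla : (l : ZMod P) = a := congrArg Prod.fst hlab
  have hlb : (l : ZMod Q) = b := congrArg Prod.snd hlab
  have : Fact l.Prime := ⟨hlp⟩
  have h1 : legendreSym P l = -1 := by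
    rw [legendreSym.eq_neg_one_iff', hla]
    exact ha
  have h2 : legendreSym Q l = -1 := by
    rw [legendreSym.eq_neg_one_iff', hlb]
    exact hb
  have h3 : legendreSym l P = -1 := by
    rw [legendreSym.quadratic_reciprocity_one_mod_four hP4 (by omega), h1]
  have h4 : legendreSym l Q = -1 := by
    rw [legendreSym.quadratic_reciprocity_one_mod_four hQ4 (by omega), h2]
  have h5 : legendreSym l ((P : ℤ) * Q) = 1 := by
    rw [legendreSym.mul, h3, h4]
    norm_num
  have h6 : (((P : ℤ) * Q : ℤ) : ZMod l) ≠ 0 := by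
    intro h
    rw [(legendreSym.eq_zero_iff l _).2 h] at h5
    norm_num at h5
  obtain ⟨r, hr⟩ := (legendreSym.eq_one_iff l h6).1 h5
  have hlodd : l % 2 = 1 := by
    rcases hlp.eq_two_or_odd with h | h
    · omega
    · exact h
  -- an odd square root
  obtain ⟨s, hs, hs2⟩ : ∃ s : ℤ, (s : ZMod l) = r ∧ s % 2 = 1 := by
    have h0 : ((r.val : ℤ) : ZMod l) = r := by
      rw [Int.cast_natCast]
      exact ZMod.natCast_zmod_val r
    by_cases h : (r.val : ℤ) % 2 = 1
    · exact ⟨r.val, h0, h⟩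
    · refine ⟨r.val + l, ?_, by omega⟩
      rw [Int.cast_add, h0]
      simp
  refine ⟨l, s, ⟨Nat.prime_iff_prime_int.1 hlp, by omega, hs2, ?_, ?_⟩, h1⟩
  · intro h
    rw [← ZMod.intCast_zmod_eq_zero_iff_dvd, hs] at h
    apply h6
    rw [hr, h, mul_zero]
  · have h7 : (l : ℤ) ∣ s ^ 2 - (P : ℤ) * Q := by
      rw [← ZMod.intCast_zmod_eq_zero_iff_dvd, Int.cast_sub, hr, Int.cast_pow, hs]
      ring
    have h8 : (4 : ℤ) ∣ s ^ 2 - (P : ℤ) * Q := by
      have e1 := sq_mod_four_odd hs2
      have e2 : ((P : ℤ) * Q) % 4 = 1 := by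
        rw [Int.mul_emod]
        have : (P : ℤ) % 4 = 1 := by omega
        have : (Q : ℤ) % 4 = 1 := by omega
        simp [*]
      omega
    have h9 : IsCoprime (4 : ℤ) l := by
      rw [Int.isCoprime_iff_gcd_eq_one]
      have : Nat.Coprime 4 l := by
        rw [show (4 : ℕ) = 2 ^ 2 by norm_num]
        exact Nat.Coprime.pow_left 2 (Nat.coprime_two_left.2 (Nat.odd_iff.2 hlodd))
      exact_mod_cast this
    exact h9.mul_dvd h8 h7

/-- The number of the forms of positive color modulo four. -/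
theorem card_XX {P Q : ℕ} [Fact P.Prime] [Fact Q.Prime] {xp yp xq yq : ℤ}
    (H : Reps (P : ℤ) (Q : ℤ) xp yp xq yq) :
    (Fintype.card (XX ((P : ℤ) * Q)) : ZMod 4) =
      1 - (eps xp : ZMod 4) * (legendreSym P Q : ZMod 4) := by
  have hP4 : P % 4 = 1 := by have := H.p_mod; omega
  have hQ4 : Q % 4 = 1 := by have := H.q_mod; omega
  have hne : P ≠ Q := by
    rintro rfl
    exact lt_irrefl _ H.p_lt
  have hP2 : P ≠ 2 := by rintro rfl; norm_num at hP4
  have h44 : (4 : ZMod 4) = 0 := by decide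
  have hPQ : ((Q : ℤ) : ZMod P) ≠ 0 := by
    intro h
    rw [ZMod.intCast_zmod_eq_zero_iff_dvd] at h
    have h5 : P ∣ Q := by exact_mod_cast h
    exact hne ((Nat.prime_dvd_prime_iff_eq Fact.out Fact.out).1 h5)
  by_cases hpell : ∃ t u : ℤ, t ^ 2 - (P : ℤ) * Q * u ^ 2 = -4
  · have h4 : 4 < (P : ℤ) * Q := by
      have := H.five_le
      have := H.q_ge
      nlinarith
    obtain ⟨t, u, h1, h2, h3, h5⟩ := least_solution h4 hpell
    have hodd : ∀ x, Odd (minimalPeriod (PhiP H.not_square) x) := fun x =>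
      (period_matrix H.squarefree H.not_square h4 h1 h2 h3 h5 x).1
    obtain ⟨l, s, hls, hl⟩ := exists_hprime hP4 hQ4 hne
    have hc := H.classes hodd hls hl
    have hper := H.periods h1 h2 h3 h5
    obtain ⟨hcount, -, -⟩ := count_odd (τ := tauP ((P : ℤ) * Q)) (ψ := psiP H.not_square)
      tauP_tauP (psiP_psiP _) hodd H.e1_ne_ep H.psi_fixed
    change (Fintype.card (XX ((P : ℤ) * Q)) : ZMod 4) = minimalPeriod (PhiP H.not_square) H.e1
      + minimalPeriod (PhiP H.not_square) H.ep +
        ((Fintype.card (Cyc (PhiP H.not_square)) : ZMod 4) - 2) at hcount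
    rw [hcount, hper, hc]
    unfold eps
    rcases legendreSym.eq_one_or_neg_one P hPQ with h | h <;> rw [h] <;> split_ifs <;> decide
  · obtain ⟨h1, X, Y, s, hs, h2⟩ := H.case_two hpell
    have hleg : legendreSym P Q = 1 := by
      have hneg : legendreSym P (-1) = 1 := by
        rw [legendreSym.at_neg_one hP2, ZMod.χ₄_nat_one_mod_four hP4]
      have hls : legendreSym P s = 1 := by
        rcases hs with h | h <;> rw [h]
        · exact legendreSym.at_one P
        · exact hneg
      have h20 : ((2 : ℤ) : ZMod P) ≠ 0 := by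
        intro h
        rw [ZMod.intCast_zmod_eq_zero_iff_dvd] at h
        have h3 : P ∣ 2 := by exact_mod_cast h
        exact hP2 ((Nat.prime_dvd_prime_iff_eq Fact.out Nat.prime_two).1 h3)
      have e1 : legendreSym P ((Q : ℤ) * Y ^ 2) = 1 := by
        have e2 : legendreSym P ((Q : ℤ) * Y ^ 2) = legendreSym P (-1 * (2 ^ 2 * s)) := by
          apply leg_congr
          have : (Q : ℤ) * Y ^ 2 = -1 * (2 ^ 2 * s) + P * X ^ 2 := by linarith
          rw [this]
          push_cast
          rw [ZMod.natCast_self]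
          ring
        rw [e2, legendreSym.mul, hneg, legendreSym.mul, legendreSym.sq_one' P h20, hls]
        norm_num
      have hY : ((Y : ℤ) : ZMod P) ≠ 0 := by
        intro h
        have : legendreSym P ((Q : ℤ) * Y ^ 2) = 0 := by
          rw [legendreSym.eq_zero_iff]
          push_cast
          rw [h]
          ring
        rw [this] at e1
        norm_num at e1
      rw [legendreSym.mul, legendreSym.sq_one' P hY, mul_one] at e1
      exact e1
    rw [h1, hleg]
    push_cast
    ring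

end Pool.Agent.Q8.MC
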