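import Pool.Agent.Q8.MC.Pell
import Pool.Agent.Q8.MC.Arith

/-!
# The fixed points of the two involutions for the discriminant `p q`
-/

set_option autoImplicit false

namespace Pool.Agent.Q8.MC

open Matrix Function

lemma fac {p q n m : ℤ} (hp : Prime p) (hq : Prime q) (hp0 : 0 < p) (hpq : p < q) (hn : 0 < n)
    (hnm : n < m) (h : n * m = p * q) : n = 1 ∨ n = p := by
  have h1 : p ∣ n * m := ⟨q, h⟩
  rcases hp.dvd_or_dvd h1 with ⟨k, hk⟩ | ⟨k, hk⟩
  · right
    have h2 : q = k * m := by
      apply mul_left_cancel₀ hp0.ne'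
      rw [← h, hk]
      ring
    have hk0 : 0 < k := by
      rw [hk] at hn
      exact pos_of_mul_pos_of_pos_left hn hp0.le
    rcases hq.irreducible.isUnit_or_isUnit h2 with h3 | h3
    · rcases Int.isUnit_iff.1 h3 with h4 | h4
      · rw [hk, h4, mul_one]
      · omega
    · rcases Int.isUnit_iff.1 h3 with h4 | h4 <;> omega
  · left
    have h2 : q = n * k := by
      apply mul_left_cancel₀ hp0.ne'
      rw [← h, hk]
      ring
    rcases hq.irreducible.isUnit_or_isUnit h2 with h3 | h3
    · rcases Int.isUnit_iff.1 h3 with h4 | h4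
      · exact h4
      · omega
    · rcases Int.isUnit_iff.1 h3 with h4 | h4
      · exfalso
        rw [h4] at hk h2
        omega
      · exfalso
        rw [h4] at hk
        omega
where
  pos_of_mul_pos_of_pos_left {a b : ℤ} (h : 0 < a * b) (ha : 0 ≤ a) : 0 < b := by
    by_contra hb
    push Not at hb
    nlinarith

section

variable {p q xp yp xq yq : ℤ} (h : Reps p q xp yp xq yq)
include h

lemma Reps.five_le : 5 ≤ p := by
  have h1 := h.p_mod
  have h2 := h.p_pos
  have h3 := h.prime_p.ne_one
  omega

lemma Reps.q_ge : p + 4 ≤ q := by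
  have h1 := h.p_mod
  have h2 := h.q_mod
  have h3 := h.p_lt
  omega

lemma Reps.pq_mod : (p * q) % 4 = 1 := by
  rw [Int.mul_emod, h.p_mod, h.q_mod]
  rfl

lemma Reps.not_square : ¬ IsSquare (p * q) := by
  rintro ⟨r, hr⟩
  have h1 : p ∣ r * r := ⟨q, hr.symm⟩
  have h2 : p ∣ r := by rcases h.prime_p.dvd_or_dvd h1 with h | h <;> exact h
  obtain ⟨k, hk⟩ := h2
  have h3 : q = p * (k * k) := by
    apply mul_left_cancel₀ h.p_pos.ne'
    rw [hr, hk]
    ring
  rcases h.prime_q.irreducible.isUnit_or_isUnit h3 with h4 | h4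
  · exact h.prime_p.not_isUnit h4
  · rcases Int.isUnit_iff.1 h4 with h5 | h5
    · have := h.p_lt
      rw [h5, mul_one] at h3
      omega
    · nlinarith [mul_self_nonneg k]

lemma Reps.squarefree : Squarefree (p * q) := by
  intro r hr
  by_contra hu
  obtain ⟨l, hl, hlr⟩ := Int.exists_prime_and_dvd (n := r) (by
    intro h1
    exact hu (Int.isUnit_iff_natAbs_eq.2 h1))
  have h1 : l * l ∣ p * q := (mul_dvd_mul hlr hlr).trans hr
  have hl0 : l ≠ 0 := hl.ne_zero
  obtain ⟨c, hc⟩ := h1
  have h2 : l ∣ p * q := ⟨l * c, by rw [hc]; ring⟩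
  rcases hl.dvd_or_dvd h2 with h3 | h3
  · have h4 : Associated l p := (hl.dvd_prime_iff_associated h.prime_p).1 h3
    have h5 : p ∣ l := h4.symm.dvd
    have h6 : p ∣ q := by
      obtain ⟨d, hd⟩ := h3
      have h7 : d * q = l * c := by
        apply mul_left_cancel₀ hl0
        rw [← mul_assoc, ← hd, hc]
        ring
      have h8 : p ∣ d * q := by rw [h7]; exact h5.mul_right c
      rcases h.prime_p.dvd_or_dvd h8 with h9 | h9
      · exfalso
        have h10 : l * p ∣ p := by
          have : l * p ∣ l * d := mul_dvd_mul_left l h9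
          rwa [← hd] at this
        have h11 : l ∣ 1 := by
          obtain ⟨f, hf⟩ := h10
          refine ⟨f, ?_⟩
          apply mul_left_cancel₀ h.p_pos.ne'
          linear_combination hf
        exact hl.not_isUnit (isUnit_of_dvd_one h11)
      · exact h9
    have h7 : Associated p q := (h.prime_p.dvd_prime_iff_associated h.prime_q).1 h6
    rcases Int.associated_iff.1 h7 with h8 | h8
    · have := h.p_lt
      omega
    · have := h.p_lt
      have := h.p_pos
      omega
  · have h4 : Associated l q := (hl.dvd_prime_iff_associated h.prime_q).1 h3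
    have h5 : q ∣ l := h4.symm.dvd
    have h6 : q ∣ p := by
      obtain ⟨d, hd⟩ := h3
      have h7 : d * p = l * c := by
        apply mul_left_cancel₀ hl0
        rw [← mul_assoc, ← hd, mul_comm q p, hc]
        ring
      have h8 : q ∣ d * p := by rw [h7]; exact h5.mul_right c
      rcases h.prime_q.dvd_or_dvd h8 with h9 | h9
      · exfalso
        have h10 : l * q ∣ q := by
          have : l * q ∣ l * d := mul_dvd_mul_left l h9
          rwa [← hd] at this
        have h11 : l ∣ 1 := by
          obtain ⟨f, hf⟩ := h10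
          refine ⟨f, ?_⟩
          apply mul_left_cancel₀ (h.p_pos.trans h.p_lt).ne'
          linear_combination hf
        exact hl.not_isUnit (isUnit_of_dvd_one h11)
      · exact h9
    have h7 := Int.le_of_dvd h.p_pos h6
    have := h.p_lt
    omega

lemma Reps.inX_one : InX (p * q) ⟨(p * q - 1) / 4, 1, 1⟩ := by
  have h1 := h.pq_mod
  have h2 := h.five_le
  have h3 := h.q_ge
  have h4 : 5 ≤ p * q := by nlinarith
  refine ⟨?_, ?_, ?_, ?_⟩
  · simp only
    omega
  · simp only
    norm_num
  · simp only [disc]
    omega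
  · simp only [Pos]
    omega

lemma Reps.inX_p : InX (p * q) ⟨(q - p) / 4, p, p⟩ := by
  have h1 := h.pq_mod
  have h2 := h.five_le
  have h3 := h.q_ge
  have h4 := h.p_mod
  have h5 := h.q_mod
  obtain ⟨r, hr⟩ : ∃ r, q - p = 4 * r := ⟨(q - p) / 4, by omega⟩
  have h6 : (q - p) / 4 = r := by omega
  rw [h6]
  refine ⟨?_, ?_, ?_, ?_⟩
  · simp only
    omega
  · simp only
    omega
  · simp only [disc]
    linear_combination (-p) * hr
  · simp only [Pos]
    omega

/-- fixed point -/
def Reps.e1 : XX (p * q) := ⟨⟨(p * q - 1) / 4, 1, 1⟩, h.inX_one⟩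

/-- fixed point -/
def Reps.ep : XX (p * q) := ⟨⟨(q - p) / 4, p, p⟩, h.inX_p⟩

lemma Reps.e1_ne_ep : h.e1 ≠ h.ep := by
  intro h1
  have h2 := congrArg (fun x => x.1.c) h1
  simp only [Reps.e1, Reps.ep] at h2
  have := h.five_le
  omega

lemma Reps.psi_fixed (x : XX (p * q)) : psiP h.not_square x = x ↔ x = h.e1 ∨ x = h.ep := by
  have h1 := h.p_mod
  have h2 := h.q_mod
  have hp0 := h.p_pos
  obtain ⟨⟨a, b, c⟩, hx⟩ := x
  have ha := hx.apos
  have hc := hx.cpos
  have hd := hx.disc
  have hs := hx.pos
  simp only at ha hc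
  simp only [disc] at hd
  simp only [Pos] at hs
  rw [Subtype.ext_iff, psiP_val]
  simp only [Reps.e1, Reps.ep, Subtype.mk.injEq, T.mk.injEq]
  constructor
  · intro h3
    unfold psi at h3
    simp only at h3
    split_ifs at h3 with h4
    · simp only [T.mk.injEq] at h3
      have hbc : b = c := by omega
      subst hbc
      have h5 : b * (b + 4 * a) = p * q := by linarith
      rcases fac h.prime_p h.prime_q hp0 h.p_lt hc (by omega) h5 with h6 | h6
      · left
        subst h6
        omega
      · right
        subst h6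
        have h7 : b + 4 * a = q := mul_left_cancel₀ hp0.ne' h5
        omega
    · simp only [T.mk.injEq] at h3
      have hba : b = -a := by omega
      subst hba
      have h5 : a * (a + 4 * c) = p * q := by linarith
      exfalso
      rcases fac h.prime_p h.prime_q hp0 h.p_lt ha (by omega) h5 with h6 | h6
      · subst h6
        omega
      · subst h6
        omega
  · rintro (⟨h3, h4, h5⟩ | ⟨h3, h4, h5⟩)
    · subst h4 h5
      unfold psi
      rw [if_pos (by simp only; omega)]
      simp
    · subst h4 h5
      unfold psi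
      rw [if_pos (by simp only; omega)]
      simp only [T.mk.injEq, and_true]
      constructor <;> ring

end

end Pool.Agent.Q8.MC
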