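import Pool.Agent.Q8.MC.Hecke
import Pool.Agent.Q8.MC.CaseOne

/-!
# Genera
-/

set_option autoImplicit false

namespace Pool.Agent.Q8.MC

open Matrix Function

section

variable {P : ℕ} [Fact P.Prime]

lemma leg_congr {a b : ℤ} (h : (a : ZMod P) = b) : legendreSym P a = legendreSym P b := by
  unfold legendreSym
  rw [h]

/-- the genus -/
def gen (P : ℕ) [Fact P.Prime] (e : T) : Prop := ∃ x y : ℤ, legendreSym P (fv e x y) = 1

lemma leg_prod (hP2 : P ≠ 2) {e : T} (hd : (P : ℤ) ∣ disc e) {x y z w : ℤ}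
    (h1 : legendreSym P (fv e x y) ≠ 0) (h2 : legendreSym P (fv e z w) ≠ 0) :
    legendreSym P (fv e x y) * legendreSym P (fv e z w) = 1 := by
  have e1 : ((fv e x y : ℤ) : ZMod P) ≠ 0 := fun h => h1 ((legendreSym.eq_zero_iff P _).2 h)
  have e2 : ((fv e z w : ℤ) : ZMod P) ≠ 0 := fun h => h2 ((legendreSym.eq_zero_iff P _).2 h)
  have h20 : ((2 : ℤ) : ZMod P) ≠ 0 := by
    intro h
    rw [ZMod.intCast_zmod_eq_zero_iff_dvd] at h
    have h3 : P ∣ 2 := by exact_mod_cast h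
    exact hP2 ((Nat.prime_dvd_prime_iff_eq Fact.out Nat.prime_two).1 h3)
  set B : ℤ := 2 * e.a * (x * z) + e.b * (x * w + y * z) - 2 * e.c * (y * w) with hB
  have key : 2 ^ 2 * (fv e x y * fv e z w) = B ^ 2 - disc e * (x * w - y * z) ^ 2 := by
    simp only [hB, fv, disc]
    ring
  have hcong : ((2 ^ 2 * (fv e x y * fv e z w) : ℤ) : ZMod P) = ((B ^ 2 : ℤ) : ZMod P) := by
    rw [key]
    obtain ⟨k, hk⟩ := hd
    rw [hk]
    push_cast
    rw [ZMod.natCast_self]
    ring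
  have hB0 : ((B : ℤ) : ZMod P) ≠ 0 := by
    intro h
    rw [Int.cast_pow, h] at hcong
    push_cast at hcong h20
    simp only [ne_eq, OfNat.ofNat_ne_zero, not_false_eq_true, zero_pow, mul_eq_zero] at hcong
    rcases hcong with h3 | h3 | h3
    · have h4 : (2 : ZMod P) * 2 = 0 := by linear_combination h3
      exact h20 (mul_self_eq_zero.1 h4)
    · exact e1 h3
    · exact e2 h3
  have h3 : legendreSym P (2 ^ 2 * (fv e x y * fv e z w)) = 1 := by
    rw [leg_congr hcong]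
    exact legendreSym.sq_one' P hB0
  rw [legendreSym.mul, legendreSym.sq_one' P h20, one_mul, legendreSym.mul] at h3
  exact h3

lemma gen_iff (hP2 : P ≠ 2) {e : T} (hd : (P : ℤ) ∣ disc e) {x y : ℤ}
    (h1 : legendreSym P (fv e x y) ≠ 0) : gen P e ↔ legendreSym P (fv e x y) = 1 := by
  constructor
  · rintro ⟨z, w, h⟩
    have := leg_prod hP2 hd h1 (z := z) (w := w) (by rw [h]; norm_num)
    rwa [h, mul_one] at this
  · intro h
    exact ⟨x, y, h⟩

lemma fv_tw (e : T) (x z y s X Y : ℤ) : fv (tw e !![x, z; y, s]) X Y =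
    (x * s - z * y) * fv e (x * X + z * Y) (y * X + s * Y) := by
  rw [tw_fields]
  simp only [fv]
  ring

lemma gen_of_W (hneg : legendreSym P (-1) = 1) {δ : ℤ} (hδ : δ = 1 ∨ δ = -1) {e e' : T}
    (h : W δ e e') (hg : gen P e') : gen P e := by
  obtain ⟨x, z, y, s, h1, rfl⟩ := h
  obtain ⟨X, Y, hXY⟩ := hg
  refine ⟨x * X + z * Y, y * X + s * Y, ?_⟩
  rw [fv_tw, legendreSym.mul, show x * s - z * y = δ by linarith] at hXY
  rcases hδ with h | h
  · rw [h, legendreSym.at_one, one_mul] at hXY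
    exact hXY
  · rw [h, hneg, one_mul] at hXY
    exact hXY

lemma gen_W (hneg : legendreSym P (-1) = 1) {δ : ℤ} (hδ : δ = 1 ∨ δ = -1) {e e' : T}
    (h : W δ e e') : gen P e ↔ gen P e' :=
  ⟨gen_of_W hneg hδ (h.symm hδ), gen_of_W hneg hδ h⟩

/-- The Hecke correspondence changes the genus. -/
lemma gen_hecke (hP2 : P ≠ 2) {D l : ℤ} (hD : Squarefree D) (hPD : (P : ℤ) ∣ D)
    (hl : legendreSym P l = -1) {a b c : ℤ} (h : disc ⟨l * a, b, c⟩ = D) :
    gen P ⟨a, b, l * c⟩ ↔ ¬ gen P ⟨l * a, b, c⟩ := by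
  have h' : disc ⟨a, b, l * c⟩ = D := by
    rw [← h]
    simp only [disc]
    ring
  have hd : (P : ℤ) ∣ disc ⟨l * a, b, c⟩ := by rw [h]; exact hPD
  have hd' : (P : ℤ) ∣ disc ⟨a, b, l * c⟩ := by rw [h']; exact hPD
  have hone : ∀ v : ℤ, legendreSym P v ≠ 0 → legendreSym P v = 1 ∨ legendreSym P v = -1 := by
    intro v hv
    exact legendreSym.eq_one_or_neg_one P (fun h0 => hv ((legendreSym.eq_zero_iff P _).2 h0))
  by_cases ha : legendreSym P a = 0
  · by_cases hc : legendreSym P c = 0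
    · exfalso
      rw [legendreSym.eq_zero_iff, ZMod.intCast_zmod_eq_zero_iff_dvd] at ha hc
      simp only [disc] at h
      have hPp : Prime (P : ℤ) := Nat.prime_iff_prime_int.1 Fact.out
      have hb : (P : ℤ) ∣ b := by
        apply hPp.dvd_of_dvd_pow (n := 2)
        have : b ^ 2 = D - 4 * (l * a) * c := by linarith
        rw [this]
        exact dvd_sub hPD (Dvd.dvd.mul_left hc _)
      have hsq : (P : ℤ) * P ∣ D := by
        rw [← h, sq]
        refine dvd_add (mul_dvd_mul hb hb) ?_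
        refine mul_dvd_mul ?_ hc
        exact Dvd.dvd.mul_left (Dvd.dvd.mul_left ha _) _
      exact hPp.not_isUnit (hD _ hsq)
    · have e1 : fv ⟨l * a, b, c⟩ 0 1 = -1 * c := by simp [fv]
      have e2 : fv ⟨a, b, l * c⟩ 0 1 = l * (-1 * c) := by simp only [fv]; ring
      have hm1 : legendreSym P (-1) ≠ 0 := by
        rw [Ne, legendreSym.eq_zero_iff]
        push_cast
        rw [neg_eq_zero]
        exact one_ne_zero
      have h1 : legendreSym P (fv ⟨l * a, b, c⟩ 0 1) ≠ 0 := by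
        rw [e1, legendreSym.mul]
        exact mul_ne_zero hm1 hc
      have h2 : legendreSym P (fv ⟨a, b, l * c⟩ 0 1) = -legendreSym P (fv ⟨l * a, b, c⟩ 0 1) := by
        rw [e1, e2, legendreSym.mul P l, hl]
        ring
      have h3 : legendreSym P (fv ⟨a, b, l * c⟩ 0 1) ≠ 0 := by
        rw [h2]
        exact neg_ne_zero.2 h1
      rw [gen_iff hP2 hd h1, gen_iff hP2 hd' h3, h2]
      rcases hone _ h1 with h | h <;> rw [h] <;> norm_num
  · have e1 : fv ⟨l * a, b, c⟩ 1 0 = l * a := by simp [fv]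
    have e2 : fv ⟨a, b, l * c⟩ 1 0 = a := by simp [fv]
    have h2 : legendreSym P (fv ⟨l * a, b, c⟩ 1 0) = -legendreSym P (fv ⟨a, b, l * c⟩ 1 0) := by
      rw [e1, e2, legendreSym.mul P l, hl]
      ring
    have h3 : legendreSym P (fv ⟨a, b, l * c⟩ 1 0) ≠ 0 := by
      rw [e2]
      exact ha
    have h1 : legendreSym P (fv ⟨l * a, b, c⟩ 1 0) ≠ 0 := by
      rw [h2]
      exact neg_ne_zero.2 h3
    rw [gen_iff hP2 hd h1, gen_iff hP2 hd' h3, h2]
    rcases hone _ h3 with h | h <;> rw [h] <;> norm_num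

end

end Pool.Agent.Q8.MC
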