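import Pool.Agent.Q8.MC.Setup

/-!
# Reduction and the Hecke correspondence
-/

set_option autoImplicit false

namespace Pool.Agent.Q8.MC

open Matrix Function

lemma W_trans' (n : ℤ) (a b c : ℤ) : W 1 ⟨a, b, c⟩ ⟨a, b + 2 * a * n, c - b * n - a * n ^ 2⟩ := by
  refine ⟨1, n, 0, 1, by ring, ?_⟩
  rw [tw_fields]
  simp only [fv, T.mk.injEq]
  refine ⟨by ring, by ring, by ring⟩

lemma W_S (a b c : ℤ) : W 1 ⟨a, b, c⟩ ⟨-c, -b, -a⟩ := by
  refine ⟨0, -1, 1, 0, by ring, ?_⟩
  rw [tw_fields]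
  simp only [fv, T.mk.injEq]
  refine ⟨by ring, by ring, by ring⟩

lemma W_R (a b c : ℤ) : W 1 ⟨a, b, c⟩ ⟨a + b - c, b - 2 * c, c⟩ := by
  refine ⟨1, 0, 1, 1, by ring, ?_⟩
  rw [tw_fields]
  simp only [fv, T.mk.injEq]
  refine ⟨by ring, by ring, by ring⟩

lemma W.disc_eq {e e' : T} (h : W 1 e e') : disc e' = disc e := by
  obtain ⟨x, z, y, s, h1, rfl⟩ := h
  rw [disc_tw, Matrix.det_fin_two]
  simp only [Matrix.of_apply, Matrix.cons_val', Matrix.cons_val_zero, Matrix.cons_val_one,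
    Matrix.cons_val_fin_one]
  rw [show x * s - z * y = 1 by linarith]
  ring

lemma W.one_trans {e e' e'' : T} (h : W 1 e e') (h' : W 1 e' e'') : W 1 e e'' := by
  simpa using h.trans h'

lemma W.one_symm {e e' : T} (h : W 1 e e') : W 1 e' e := h.symm (Or.inl rfl)

/-- Reduction. -/
lemma reduction {D : ℤ} (hD0 : 0 < D) (hD : ¬ IsSquare D) (n : ℕ) : ∀ e : T, disc e = D →
    e.a.natAbs ≤ n → ∃ e' : T, W 1 e e' ∧ 0 < e'.a ∧ 0 < e'.c := by
  induction n with
  | zero =>
    rintro ⟨a, b, c⟩ h1 h2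
    exfalso
    simp only [nonpos_iff_eq_zero, Int.natAbs_eq_zero] at h2
    subst h2
    apply hD
    refine ⟨b, ?_⟩
    rw [← h1]
    simp only [disc]
    ring
  | succ n ih =>
    rintro ⟨a, b, c⟩ h1 h2
    simp only [disc] at h1
    simp only at h2
    have ha : a ≠ 0 := by
      rintro rfl
      apply hD
      exact ⟨b, by linarith⟩
    -- translate
    obtain ⟨k, hk1, hk2⟩ : ∃ k : ℤ, -|a| ≤ b + 2 * a * k ∧ b + 2 * a * k ≤ |a| := by
      have hpos : 0 < |a| := abs_pos.2 ha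
      refine ⟨-((b + |a|) / (2 * |a|)) * a.sign, ?_, ?_⟩
      · have e1 := Int.emod_nonneg (b + |a|) (show (2 * |a|) ≠ 0 by omega)
        have e2 := Int.mul_ediv_add_emod (b + |a|) (2 * |a|)
        have e3 : a * a.sign = |a| := (Int.mul_sign_self a).trans (Int.abs_eq_natAbs a).symm
        have e4 : b + 2 * a * (-((b + |a|) / (2 * |a|)) * a.sign) =
          b - 2 * (a * a.sign) * ((b + |a|) / (2 * |a|)) := by ring
        rw [e4, e3]
        linarith
      · have e1 := Int.emod_lt_of_pos (b + |a|) (show 0 < 2 * |a| by omega)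
        have e2 := Int.mul_ediv_add_emod (b + |a|) (2 * |a|)
        have e3 : a * a.sign = |a| := (Int.mul_sign_self a).trans (Int.abs_eq_natAbs a).symm
        have e4 : b + 2 * a * (-((b + |a|) / (2 * |a|)) * a.sign) =
          b - 2 * (a * a.sign) * ((b + |a|) / (2 * |a|)) := by ring
        rw [e4, e3]
        linarith
    have hW := W_trans' k a b c
    obtain ⟨b', hb'⟩ : ∃ b', b' = b + 2 * a * k := ⟨_, rfl⟩
    obtain ⟨c', hc'⟩ : ∃ c', c' = c - b * k - a * k ^ 2 := ⟨_, rfl⟩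
    rw [← hb', ← hc'] at hW
    rw [← hb'] at hk1 hk2
    have hd' : b' ^ 2 + 4 * a * c' = D := by
      rw [hb', hc', ← h1]
      ring
    by_cases hc : c'.natAbs < a.natAbs
    · obtain ⟨e', h3, h4, h5⟩ := ih ⟨-c', -b', -a⟩ (by simp only [disc]; linarith)
        (by simp only [Int.natAbs_neg]; omega)
      exact ⟨e', (hW.one_trans (W_S a b' c')).one_trans h3, h4, h5⟩
    · push Not at hc
      have hac : |a| ≤ |c'| := by
        rw [Int.abs_eq_natAbs, Int.abs_eq_natAbs]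
        exact_mod_cast hc
      have hac' : 0 < a * c' := by
        by_contra hneg
        push Not at hneg
        have e1 : b' ^ 2 ≤ |a| ^ 2 := by
          rw [sq_le_sq, abs_abs]
          exact abs_le.2 ⟨hk1, hk2⟩
        have e2 : a * c' = -(|a| * |c'|) := by
          rw [← abs_mul, abs_of_nonpos hneg]
          ring
        have e3 : |a| * |a| ≤ |a| * |c'| := mul_le_mul_of_nonneg_left hac (abs_nonneg a)
        nlinarith [abs_nonneg a]
      rcases lt_or_gt_of_ne ha with h3 | h3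
      · have h4 : c' < 0 := by
          by_contra hneg
          push Not at hneg
          nlinarith
        exact ⟨⟨-c', -b', -a⟩, hW.one_trans (W_S a b' c'), by simp only; omega, by simp only; omega⟩
      · have h4 : 0 < c' := by
          by_contra hneg
          push Not at hneg
          nlinarith
        exact ⟨⟨a, b', c'⟩, hW, h3, h4⟩

/-- Every form is equivalent to one of the finite set. -/
lemma exists_XX {D : ℤ} (hD0 : 0 < D) (hD : ¬ IsSquare D) (hD4 : D % 4 = 1) {e : T}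
    (h : disc e = D) : ∃ x : XX D, W 1 e x.1 := by
  obtain ⟨⟨a, b, c⟩, h1, h2, h3⟩ := reduction hD0 hD e.a.natAbs e h le_rfl
  have hd : disc ⟨a, b, c⟩ = D := by rw [h1.disc_eq, h]
  simp only at h2 h3
  have hb : b % 2 = 1 := by
    simp only [disc] at hd
    by_contra hne
    have h5 : b % 2 = 0 := by omega
    obtain ⟨b', rfl⟩ : ∃ b', b = 2 * b' := ⟨b / 2, by omega⟩
    have : (2 * b') ^ 2 + 4 * a * c = 4 * (b' ^ 2 + a * c) := by ring
    omega
  by_cases hp : Pos ⟨a, b, c⟩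
  · exact ⟨⟨⟨a, b, c⟩, h2, h3, hd, hp⟩, h1⟩
  · have hne := sum_ne_zero hD hd
    simp only at hne
    rcases lt_or_gt_of_ne hne with h4 | h4
    · have hW := W_trans' 1 a b c
      refine ⟨⟨_, ⟨?_, ?_, ?_, ?_⟩⟩, h1.one_trans hW⟩
      · exact h2
      · simp only
        linarith
      · rw [hW.disc_eq, hd]
      · simp only [Pos] at hp ⊢
        omega
    · have hW := W_R a b c
      refine ⟨⟨_, ⟨?_, ?_, ?_, ?_⟩⟩, h1.one_trans hW⟩
      · simp only
        linarith
      · exact h3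
      · rw [hW.disc_eq, hd]
      · simp only [Pos] at hp ⊢
        omega

/-- data of a Hecke prime -/
structure HPrime (D l s : ℤ) : Prop where
  prime : Prime l
  odd : l % 2 = 1
  s_odd : s % 2 = 1
  ndvd : ¬ l ∣ s
  sq : 4 * l ∣ s ^ 2 - D

lemma HPrime.ndvd_D {D l s : ℤ} (h : HPrime D l s) : ¬ l ∣ D := by
  intro h1
  have h2 : l ∣ s ^ 2 - D := (Dvd.intro_left 4 rfl).trans h.sq
  have h3 : l ∣ s ^ 2 := by
    have := dvd_add h2 h1
    simpa using this
  exact h.ndvd (h.prime.dvd_of_dvd_pow h3)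

/-- Every form is equivalent to `⟨l a, b, c⟩` with `b ≡ s` modulo `2 l`. -/
lemma HPrime.exists_rep {D l s : ℤ} (h : HPrime D l s) (hD4 : D % 4 = 1) {e : T}
    (he : disc e = D) : ∃ a b c : ℤ, W 1 e ⟨l * a, b, c⟩ ∧ 2 * l ∣ b - s := by
  -- a value prime to `l`
  obtain ⟨⟨a, b, c⟩, h1, h2⟩ : ∃ e' : T, W 1 e e' ∧ ¬ l ∣ e'.a := by
    by_cases ha : l ∣ e.a
    · by_cases hc : l ∣ e.c
      · refine ⟨_, W_R e.a e.b e.c, ?_⟩
        simp only
        intro h3
        have h4 : l ∣ e.b := by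
          have := dvd_add (dvd_sub h3 ha) hc
          ring_nf at this
          exact this
        apply h.ndvd_D
        rw [← he, disc]
        exact dvd_add (dvd_pow h4 two_ne_zero) (Dvd.dvd.mul_left hc _)
      · refine ⟨_, W_S e.a e.b e.c, ?_⟩
        simp only [dvd_neg]
        exact hc
    · exact ⟨e, W_one e, ha⟩
  simp only at h2
  have hd : b ^ 2 + 4 * a * c = D := by
    have := h1.disc_eq
    rw [he] at this
    exact this
  have hb : b % 2 = 1 := by
    by_contra hne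
    obtain ⟨b', rfl⟩ : ∃ b', b = 2 * b' := ⟨b / 2, by omega⟩
    have : (2 * b') ^ 2 + 4 * a * c = 4 * (b' ^ 2 + a * c) := by ring
    omega
  -- translation
  have hcop : IsCoprime a l := ((Prime.coprime_iff_not_dvd h.prime).2 h2).symm
  obtain ⟨α, β, hαβ⟩ := hcop
  obtain ⟨r, hr⟩ : ∃ r, b + s = 2 * r := ⟨(b + s) / 2, by have := h.s_odd; omega⟩
  have hW := W_trans' (-(α * r)) a b c
  obtain ⟨b', hb'⟩ : ∃ b', b' = b + 2 * a * (-(α * r)) := ⟨_, rfl⟩
  obtain ⟨c', hc'⟩ : ∃ c', c' = c - b * (-(α * r)) - a * (-(α * r)) ^ 2 := ⟨_, rfl⟩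
  rw [← hb', ← hc'] at hW
  have hbs : b' + s = 2 * l * (β * r) := by
    rw [hb']
    linear_combination hr - 2 * r * hαβ
  have hd' : b' ^ 2 + 4 * a * c' = D := by
    rw [hb', hc', ← hd]
    ring
  obtain ⟨d, hd2⟩ := h.sq
  have hlc : l ∣ a * c' := by
    refine ⟨-(l * (β * r) ^ 2) + s * (β * r) - d, ?_⟩
    have e1 : b' = 2 * l * (β * r) - s := by linarith
    have : 4 * (a * c') = 4 * (l * (-(l * (β * r) ^ 2) + s * (β * r) - d)) := by
      rw [e1] at hd'
      linear_combination hd' - hd2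
    linarith
  have hlc' : l ∣ c' := (h.prime.dvd_or_dvd hlc).resolve_left h2
  obtain ⟨c'', hc''⟩ := hlc'
  refine ⟨-c'', -b', -a, ?_, ?_⟩
  · have h3 := (h1.one_trans hW).one_trans (W_S a b' c')
    rw [hc''] at h3
    rw [show l * -c'' = -(l * c'') by ring]
    exact h3
  · refine ⟨-(β * r), ?_⟩
    linear_combination (-1 : ℤ) * hbs

/-- The injectivity of the Hecke correspondence. -/
lemma HPrime.inj {D l s : ℤ} (h : HPrime D l s) {a₁ b₁ c₁ a₂ b₂ c₂ : ℤ}
    (hb₁ : 2 * l ∣ b₁ - s) (hb₂ : 2 * l ∣ b₂ - s)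
    (hW : W 1 ⟨a₁, b₁, l * c₁⟩ ⟨a₂, b₂, l * c₂⟩) : W 1 ⟨l * a₁, b₁, c₁⟩ ⟨l * a₂, b₂, c₂⟩ := by
  obtain ⟨x, z, y, w, h1, h2⟩ := hW
  rw [tw_fields, show x * w - z * y = 1 by linarith] at h2
  simp only [fv, T.mk.injEq, one_mul] at h2
  obtain ⟨e1, e2, e3⟩ := h2
  have hl0 := h.prime.ne_zero
  have hz : l ∣ z := by
    by_contra hnz
    have h3 : l ∣ z * (a₁ * z + b₁ * w) := by
      refine ⟨c₁ * w ^ 2 - c₂, ?_⟩
      linear_combination e3
    obtain ⟨k, hk⟩ := (h.prime.dvd_or_dvd h3).resolve_left hnz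
    -- `b₂ ≡ -b₁`
    have h4 : l ∣ b₂ + b₁ := by
      refine ⟨2 * x * k - 2 * c₁ * (y * w), ?_⟩
      linear_combination e2 + 2 * x * hk - b₁ * h1
    have h5 : l ∣ 2 * s := by
      have h6 : l ∣ b₁ - s := (Dvd.intro_left 2 rfl).trans hb₁
      have h7 : l ∣ b₂ - s := (Dvd.intro_left 2 rfl).trans hb₂
      have := dvd_sub (dvd_sub h4 h6) h7
      ring_nf at this
      rwa [mul_comm] at this
    rcases h.prime.dvd_or_dvd h5 with h6 | h6
    · have h7 := h.odd
      have h8 : l.natAbs ∣ 2 := by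
        have := Int.natAbs_dvd_natAbs.2 h6
        simpa using this
      have h9 := (Nat.dvd_prime Nat.prime_two).1 h8
      rcases h9 with h9 | h9
      · exact h.prime.not_isUnit (Int.isUnit_iff_natAbs_eq.2 h9)
      · omega
    · exact h.ndvd h6
  obtain ⟨z', rfl⟩ := hz
  refine ⟨x, z', l * y, w, by linarith, ?_⟩
  rw [tw_fields, show x * w - z' * (l * y) = 1 by linarith]
  simp only [fv, T.mk.injEq, one_mul]
  refine ⟨?_, ?_, ?_⟩
  · rw [e1]
    ring
  · rw [e2]
    ring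
  · apply mul_left_cancel₀ hl0
    rw [e3]
    ring

end Pool.Agent.Q8.MC
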