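import Pool.Agent.Q8.MC.Setup

/-!
# Periods and the equation `t² - D u² = -4`
-/

set_option autoImplicit false

namespace Pool.Agent.Q8.MC

open Matrix Function

lemma bezout3 {D : ℤ} (hD : Squarefree D) {e : T} (h : disc e = D) :
    ∃ α β γ : ℤ, α * e.a + β * e.b + γ * e.c = 1 := by
  obtain ⟨g, hg⟩ : ∃ g : ℤ, g = (Int.gcd e.a (Int.gcd e.b e.c : ℤ) : ℤ) := ⟨_, rfl⟩
  have ha : g ∣ e.a := by rw [hg]; exact Int.gcd_dvd_left ..
  have hbc : g ∣ (Int.gcd e.b e.c : ℤ) := by rw [hg]; exact Int.gcd_dvd_right ..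
  have hb : g ∣ e.b := hbc.trans (Int.gcd_dvd_left ..)
  have hc : g ∣ e.c := hbc.trans (Int.gcd_dvd_right ..)
  have h1 : g * g ∣ D := by
    rw [← h, disc, sq]
    refine dvd_add (mul_dvd_mul hb hb) ?_
    rw [mul_assoc]
    exact Dvd.dvd.mul_left (mul_dvd_mul ha hc) 4
  have h2 := hD _ h1
  have h3 : Int.gcd e.a (Int.gcd e.b e.c : ℤ) = 1 := by
    rw [hg] at h2
    have := Int.isUnit_iff_natAbs_eq.1 h2
    simpa using this
  have h4 := Int.gcd_eq_gcd_ab e.a (Int.gcd e.b e.c : ℤ)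
  have h5 := Int.gcd_eq_gcd_ab e.b e.c
  rw [h3] at h4
  refine ⟨Int.gcdA e.a (Int.gcd e.b e.c : ℤ), Int.gcdA e.b e.c * Int.gcdB e.a (Int.gcd e.b e.c : ℤ),
    Int.gcdB e.b e.c * Int.gcdB e.a (Int.gcd e.b e.c : ℤ), ?_⟩
  push_cast at h4
  linear_combination (-1 : ℤ) * h4 - Int.gcdB e.a (Int.gcd e.b e.c : ℤ) * h5

/-- A matrix of determinant `-1` which fixes a form gives a solution of `t² - D u² = -4`. -/
lemma fixed_matrix {D : ℤ} (hD : Squarefree D) {e : T} (he : disc e = D) {x z y s : ℤ}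
    (hdet : x * s - y * z = -1) (h : e = tw e !![x, z; y, s]) :
    ∃ t u : ℤ, t ^ 2 - D * u ^ 2 = -4 ∧ y = e.a * u ∧ z = e.c * u ∧ x + s = t ∧
      s - x = e.b * u := by
  rw [tw_fields] at h
  have hdet' : x * s - z * y = -1 := by linarith
  rw [hdet'] at h
  have h1 := congrArg T.a h
  have h2 := congrArg T.b h
  have h3 := congrArg T.c h
  simp only [fv] at h1 h2 h3
  obtain ⟨α, β, γ, hb⟩ := bezout3 hD he
  rw [disc] at he
  -- the three relations
  have r1 : e.a * (s - x) = e.b * y := by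
    have : 2 * (e.a * (s - x)) = 2 * (e.b * y) := by
      linear_combination 2 * s * h1 - y * h2 - (2 * e.a * x + e.b * y) * hdet
    linarith
  have r2 : e.a * z = e.c * y := by
    have : 2 * (e.a * z) = 2 * (e.c * y) := by
      linear_combination 2 * z * h1 - x * h2 + (x * e.b - 2 * y * e.c) * hdet
    linarith
  have r3 : e.c * (s - x) = e.b * z := by
    have : 2 * (e.c * (s - x)) = 2 * (e.b * z) := by
      linear_combination -z * h2 - 2 * x * h3 - (z * e.b - 2 * s * e.c) * hdet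
    linarith
  have hy : y = e.a * (α * y + β * (s - x) + γ * z) := by
    linear_combination (-y) * hb - β * r1 - γ * r2
  have hz : z = e.c * (α * y + β * (s - x) + γ * z) := by
    linear_combination (-z) * hb - β * r3 + α * r2
  have hs : s - x = e.b * (α * y + β * (s - x) + γ * z) := by
    linear_combination (-(s - x)) * hb + α * r1 + γ * r3
  set u := α * y + β * (s - x) + γ * z with hu
  refine ⟨x + s, u, ?_, hy, hz, rfl, hs⟩
  rw [← he]
  have h5 : (x + s) ^ 2 = (s - x) ^ 2 + 4 * (x * s) := by ring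
  have h6 : x * s = -1 + y * z := by linarith
  rw [h5, h6]
  have h7 : y * z = e.a * e.c * u ^ 2 := by
    have : y * z = (e.a * u) * (e.c * u) := by rw [← hy, ← hz]
    rw [this]
    ring
  rw [h7, hs]
  ring

/-- If `t² - D u² = -4` has no solution, all periods are even. -/
lemma even_period {D : ℤ} (hD : Squarefree D) (hD' : ¬ IsSquare D)
    (h : ¬ ∃ t u : ℤ, t ^ 2 - D * u ^ 2 = -4) (x : XX D) :
    Even (minimalPeriod (PhiP hD') x) := by
  by_contra hodd
  rw [Nat.not_even_iff_odd] at hodd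
  have h1 : (PhiP hD' ^ ((minimalPeriod (PhiP hD') x : ℕ) : ℤ)) x = x :=
    (per_iff _ _ _).2 dvd_rfl
  have h2 := W_zpow hD' ((minimalPeriod (PhiP hD') x : ℕ) : ℤ) x
  rw [h1, Int.negOnePow_odd _ (by exact_mod_cast hodd)] at h2
  obtain ⟨a, b, c, d, h3, h4⟩ := h2
  obtain ⟨t, u, h5, -⟩ := fixed_matrix hD x.2.disc (by rw [h3]; rfl) h4
  exact h ⟨t, u, h5⟩

/-- entries of the matrix -/
lemma N_nonneg (k : ℕ) : ∀ e : T, ∀ i j, 0 ≤ N k e i j := by
  induction k with
  | zero =>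
    intro e i j
    fin_cases i <;> fin_cases j <;> simp [N]
  | succ k ih =>
    intro e i j
    rw [N, Matrix.mul_apply, Fin.sum_univ_two]
    have hl : ∀ i j, 0 ≤ letter e i j := by
      intro i j
      unfold letter
      split_ifs <;> fin_cases i <;> fin_cases j <;> simp [lA, lB]
    have := mul_nonneg (hl i 0) (ih (Phi e) 0 j)
    have := mul_nonneg (hl i 1) (ih (Phi e) 1 j)
    linarith

/-- sum of the entries -/
def wt (g : M) : ℤ := g 0 0 + g 0 1 + g 1 0 + g 1 1

lemma wt_lt (k : ℕ) (e : T) : wt (N k e) < wt (N (k + 1) e) := by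
  rw [N_succ']
  have h := N_nonneg k e
  have hd : (N k e).det ≠ 0 := by
    rw [det_N]
    rcases neg_one_pow_eq_or ℤ k with h | h <;> rw [h] <;> norm_num
  rw [Matrix.det_fin_two] at hd
  set g := N k e
  unfold letter
  split_ifs
  · have h1 : 0 < g 0 1 + g 1 1 := by
      rcases (h 0 1).eq_or_lt with h2 | h2
      · rcases (h 1 1).eq_or_lt with h3 | h3
        · rw [← h2, ← h3] at hd
          simp at hd
        · linarith
      · have := h 1 1
        linarith
    simp only [wt, lA, Matrix.mul_apply, Fin.sum_univ_two]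
    simp
    linarith
  · have h1 : 0 < g 0 0 + g 1 0 := by
      rcases (h 0 0).eq_or_lt with h2 | h2
      · rcases (h 1 0).eq_or_lt with h3 | h3
        · rw [← h2, ← h3] at hd
          simp at hd
        · linarith
      · have := h 1 0
        linarith
    simp only [wt, lB, Matrix.mul_apply, Fin.sum_univ_two]
    simp
    linarith

lemma wt_mono {j k : ℕ} (h : j < k) (e : T) : wt (N j e) < wt (N k e) :=
  strictMono_nat_of_lt_succ (fun n => wt_lt n e) h

/-- The least positive solution. -/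
lemma least_solution {D : ℤ} (h4 : 4 < D) (h : ∃ t u : ℤ, t ^ 2 - D * u ^ 2 = -4) :
    ∃ t u : ℤ, t ^ 2 - D * u ^ 2 = -4 ∧ 0 < t ∧ 0 < u ∧
      ∀ t' u' : ℤ, t' ^ 2 - D * u' ^ 2 = -4 → 0 < u' → u ≤ u' := by
  classical
  have h1 : ∃ n : ℕ, 0 < n ∧ ∃ t : ℤ, t ^ 2 - D * (n : ℤ) ^ 2 = -4 := by
    obtain ⟨t, u, h⟩ := h
    refine ⟨u.natAbs, ?_, t, ?_⟩
    · rw [Int.natAbs_pos]
      rintro rfl
      nlinarith [sq_nonneg t]
    · rw [← h]
      congr 2
      exact Int.natAbs_sq u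
  obtain ⟨hn, t, ht⟩ := Nat.find_spec h1
  have hmin : ∀ m : ℕ, (0 < m ∧ ∃ t : ℤ, t ^ 2 - D * (m : ℤ) ^ 2 = -4) → Nat.find h1 ≤ m :=
    fun m hm => Nat.find_min' h1 hm
  refine ⟨|t|, Nat.find h1, by rw [sq_abs]; exact ht, ?_, by exact_mod_cast hn, ?_⟩
  · rw [abs_pos]
    rintro rfl
    have : (1 : ℤ) ≤ (Nat.find h1 : ℤ) := by exact_mod_cast hn
    nlinarith
  · intro t' u' h' hu'
    have := hmin u'.toNat ⟨by omega, t', by rw [Int.toNat_of_nonneg hu'.le]; exact h'⟩
    omega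

/-- The matrix of a period. -/
theorem period_matrix {D : ℤ} (hD : Squarefree D) (hD' : ¬ IsSquare D) {t u : ℤ}
    (h4 : 4 < D) (h : t ^ 2 - D * u ^ 2 = -4) (ht : 0 < t) (hu : 0 < u)
    (hmin : ∀ t' u' : ℤ, t' ^ 2 - D * u' ^ 2 = -4 → 0 < u' → u ≤ u') (x : XX D) :
    Odd (minimalPeriod (PhiP hD') x) ∧ ∃ v w : ℤ, t - x.1.b * u = 2 * v ∧
      t + x.1.b * u = 2 * w ∧
      N (minimalPeriod (PhiP hD') x) x.1 = !![v, x.1.c * u; x.1.a * u, w] := by
  obtain ⟨⟨a, b, c⟩, he⟩ := x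
  obtain ⟨ha, hc, hdisc, hpos⟩ := he
  simp only at ha hc
  simp only [disc] at hdisc
  have hb : b % 2 = 1 := by
    simp only [Pos] at hpos
    omega
  have he : InX D ⟨a, b, c⟩ := ⟨ha, hc, hdisc, hpos⟩
  -- parity
  have hpar : (t - b * u) % 2 = 0 := by
    have h1 : t ^ 2 - b ^ 2 * u ^ 2 = 4 * (a * c * u ^ 2 - 1) := by
      rw [← hdisc] at h
      linarith
    have h2 : (t - b * u) * (t + b * u) = 2 * (2 * (a * c * u ^ 2 - 1)) := by linarith
    by_contra hne
    have h3 : (t - b * u) % 2 = 1 := by omega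
    have h4 : (t + b * u) % 2 = 1 := by omega
    have h5 : ((t - b * u) * (t + b * u)) % 2 = 1 := by rw [Int.mul_emod, h3, h4]; rfl
    rw [h2] at h5
    omega
  obtain ⟨x, hx⟩ : ∃ x, t - b * u = 2 * x := ⟨(t - b * u) / 2, by omega⟩
  obtain ⟨s, hs⟩ : ∃ s, t + b * u = 2 * s := ⟨x + b * u, by linarith⟩
  have hdet : x * s - (a * u) * (c * u) = -1 := by
    have : 4 * (x * s - (a * u) * (c * u)) = 4 * -1 := by
      have h1 : 4 * (x * s) = (t - b * u) * (t + b * u) := by rw [hx, hs]; ring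
      rw [← hdisc] at h
      linear_combination h1 + h
    linarith
  have hsx : s - x = b * u := by linarith
  -- nonnegative
  have hbu : b ^ 2 * u ^ 2 < t ^ 2 + 1 := by
    have h1 : (1 : ℤ) ≤ a * c := by nlinarith
    have h2 : (1 : ℤ) ≤ u ^ 2 := by nlinarith
    have h3 : (1 : ℤ) ≤ a * c * u ^ 2 := by nlinarith
    rw [← hdisc] at h
    nlinarith
  have hx0 : 0 ≤ x := by
    by_contra hneg
    have h1 : t < b * u := by omega
    nlinarith
  have hs0 : 0 ≤ s := by
    by_contra hneg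
    have h1 : t < -(b * u) := by omega
    nlinarith
  -- fixed
  have hfix : tw ⟨a, b, c⟩ !![x, c * u; a * u, s] = ⟨a, b, c⟩ := by
    rw [tw_fields]
    have hd2 : x * s - c * u * (a * u) = -1 := by linarith
    rw [hd2]
    have hs' : s = x + b * u := by linarith
    subst hs'
    have e1 : x * (x + b * u) - a * u * (c * u) = -1 := hdet
    ext
    · simp only [fv]
      linear_combination (-a) * e1
    · simp only
      linear_combination (-b) * e1
    · simp only [fv]
      linear_combination (-c) * e1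
  have hau : 0 ≤ a * u := by positivity
  have hcu : 0 ≤ c * u := by positivity
  obtain ⟨k, hk⟩ := river_nonneg hD' (x + c * u + a * u + s).toNat ⟨a, b, c⟩ x (c * u) (a * u) s he
    (by rw [hfix]; exact he) hx0 hcu hau hs0 (Or.inr hdet) (by omega)
  have hkodd : Odd k := by
    have h1 := det_N k ⟨a, b, c⟩
    rw [← hk, Matrix.det_fin_two] at h1
    simp only [Matrix.of_apply, Matrix.cons_val', Matrix.cons_val_zero, Matrix.cons_val_one,
      Matrix.cons_val_fin_one] at h1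
    by_contra h2
    rw [Nat.not_odd_iff_even] at h2
    rw [h2.neg_one_pow] at h1
    linarith
  have hkfix : (PhiP hD' ^ (k : ℤ)) ⟨⟨a, b, c⟩, he⟩ = ⟨⟨a, b, c⟩, he⟩ := by
    apply Subtype.ext
    rw [PhiP_pow, iter_eq_tw, ← hk, hfix]
  set n := minimalPeriod (PhiP hD') ⟨⟨a, b, c⟩, he⟩ with hn
  have hdvd : n ∣ k := by
    have := (per_iff _ _ _).1 hkfix
    exact_mod_cast this
  have hnpos : 0 < n := per_pos _ _
  have hnodd : Odd n := Odd.of_dvd_nat hkodd hdvd
  have hnk : n = k := by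
    by_contra hne
    have hlt : n < k := lt_of_le_of_ne (Nat.le_of_dvd hkodd.pos hdvd) hne
    have hwt := wt_mono hlt ⟨a, b, c⟩
    have hnfix : tw ⟨a, b, c⟩ (N n ⟨a, b, c⟩) = ⟨a, b, c⟩ := by
      have h1 : (PhiP hD' ^ (n : ℤ)) ⟨⟨a, b, c⟩, he⟩ = ⟨⟨a, b, c⟩, he⟩ := (per_iff _ _ _).2 dvd_rfl
      have h2 := congrArg Subtype.val h1
      rw [PhiP_pow, iter_eq_tw] at h2
      exact h2
    have hnn := N_nonneg n ⟨a, b, c⟩
    have hdn := det_N n ⟨a, b, c⟩
    set g := N n ⟨a, b, c⟩ with hg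
    have hge : g = !![g 0 0, g 0 1; g 1 0, g 1 1] := Matrix.eta_fin_two g
    rw [hnodd.neg_one_pow, Matrix.det_fin_two] at hdn
    obtain ⟨t', u', h1, h2, h3, h5, h6⟩ := fixed_matrix hD (e := ⟨a, b, c⟩) hdisc
      (x := g 0 0) (z := g 0 1) (y := g 1 0) (s := g 1 1) (by linarith) (by rw [← hge]; exact hnfix.symm)
    simp only at h2 h3 h6
    have h7 : 0 ≤ u' := by
      have := hnn 1 0
      rw [h2] at this
      by_contra hneg
      push Not at hneg
      nlinarith
    have h8 : 0 < u' := by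
      rcases h7.eq_or_lt with h | h
      · rw [← h] at h1
        nlinarith [sq_nonneg t']
      · exact h
    have h9 := hmin t' u' h1 h8
    have h10 : 0 ≤ t' := by
      rw [← h5]
      exact add_nonneg (hnn 0 0) (hnn 1 1)
    have h11 : t ≤ t' := by
      by_contra hneg
      push Not at hneg
      have k1 : u ^ 2 ≤ u' ^ 2 := by nlinarith
      have k2 : D * u ^ 2 ≤ D * u' ^ 2 := mul_le_mul_of_nonneg_left k1 (by linarith)
      have k3 : t' ^ 2 < t ^ 2 := by nlinarith
      linarith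
    have h12 : wt (N k ⟨a, b, c⟩) = t + (a + c) * u := by
      rw [← hk]
      simp only [wt, Matrix.of_apply, Matrix.cons_val', Matrix.cons_val_zero, Matrix.cons_val_one,
        Matrix.cons_val_fin_one]
      linarith
    have h13 : wt g = t' + (a + c) * u' := by
      simp only [wt]
      rw [h2, h3, ← h5]
      ring
    rw [h12, h13] at hwt
    nlinarith
  exact ⟨hnodd, x, s, hx, hs, by rw [hnk, ← hk]⟩

end Pool.Agent.Q8.MC
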