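import Pool.Agent.Q8.MC.Final

/-!
# Quadratic irrationals and forms
-/

set_option autoImplicit false

namespace Pool.Agent.Q8.MC

open Function

/-- The coefficients of the m-reduced numbers. -/
abbrev MM (D : ℤ) := {e : T // 0 < e.a ∧ 0 < e.c ∧ e.a + e.c < e.b ∧ e.b ^ 2 - 4 * e.a * e.c = D}

lemma odd_of_disc {D b k : ℤ} (hD : D % 4 = 1) (h : b ^ 2 = D + 4 * k) : b % 2 = 1 := by
  by_contra hne
  obtain ⟨b', rfl⟩ : ∃ b', b = 2 * b' := ⟨b / 2, by omega⟩
  have : (2 * b') ^ 2 = 4 * b' ^ 2 := by ring
  omega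

lemma exists_equiv {D : ℤ} (hD4 : D % 4 = 1) (hD : ¬ IsSquare D) :
    ∃ f : MM D → XX D, Bijective f := by
  have key : ∀ m : MM D, InX D ⟨m.1.a, m.1.b - 2 * m.1.a, m.1.b - m.1.a - m.1.c⟩ ∨
      InX D ⟨m.1.b - m.1.a - m.1.c, -(m.1.b - 2 * m.1.a), m.1.a⟩ := by
    rintro ⟨⟨a, b, c⟩, h1, h2, h3, h4⟩
    simp only at h1 h2 h3 h4 ⊢
    have hb : b % 2 = 1 := odd_of_disc hD4 (k := a * c) (by linarith)
    by_cases hp : Pos ⟨a, b - 2 * a, b - a - c⟩
    · left
      refine ⟨h1, by simp only; omega, ?_, hp⟩
      simp only [disc]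
      linarith
    · right
      refine ⟨by simp only; omega, h1, ?_, ?_⟩
      · simp only [disc]
        linarith
      · simp only [Pos] at hp ⊢
        omega
  classical
  refine ⟨fun m => if h : InX D ⟨m.1.a, m.1.b - 2 * m.1.a, m.1.b - m.1.a - m.1.c⟩ then ⟨_, h⟩
    else ⟨_, (key m).resolve_left h⟩, ?_, ?_⟩
  · intro m m' h
    have h' := congrArg Subtype.val h
    obtain ⟨⟨a, b, c⟩, h1, h2, h3, h4⟩ := m
    obtain ⟨⟨a', b', c'⟩, h1', h2', h3', h4'⟩ := m'
    simp only at h1 h2 h3 h4 h1' h2' h3' h4' h'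
    apply Subtype.ext
    split_ifs at h' with e1 e2 e2
    · simp only [T.mk.injEq] at h' ⊢
      omega
    · simp only [T.mk.injEq] at h'
      omega
    · simp only [T.mk.injEq] at h'
      omega
    · simp only [T.mk.injEq] at h' ⊢
      omega
  · rintro ⟨⟨a, b, c⟩, h⟩
    have ha : 0 < a := h.apos
    have hc : 0 < c := h.cpos
    have hd : b ^ 2 + 4 * a * c = D := h.disc
    have hne := sum_ne_zero hD h.disc
    simp only at hne
    rcases lt_or_gt_of_ne hne with h5 | h5
    · refine ⟨⟨⟨c, -b + 2 * c, c - b - a⟩, hc, by simp only; omega, by simp only; omega, by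
        simp only; linarith⟩, ?_⟩
      have h6 : ¬ InX D ⟨c, -b + 2 * c - 2 * c, -b + 2 * c - c - (c - b - a)⟩ := by
        intro h7
        apply not_swap h.pos
        have h8 := h7.pos
        convert h8 using 2 <;> ring
      simp only
      rw [dif_neg h6]
      apply Subtype.ext
      simp only [T.mk.injEq]
      refine ⟨by ring, by ring, trivial⟩
    · refine ⟨⟨⟨a, b + 2 * a, a + b - c⟩, ha, by simp only; omega, by simp only; omega, by
        simp only; linarith⟩, ?_⟩
      have h6 : InX D ⟨a, b + 2 * a - 2 * a, b + 2 * a - a - (a + b - c)⟩ := by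
        convert h using 2 <;> ring
      simp only
      rw [dif_pos h6]
      apply Subtype.ext
      simp only [T.mk.injEq]
      refine ⟨trivial, by ring, by ring⟩

/-- `w` is a real quadratic irrational of discriminant `D` with the conjugate `w'`. -/
def IsConj (D : ℤ) (w w' : ℝ) : Prop :=
  Irrational w ∧ ∃ a b c : ℤ, 0 < a ∧ Int.gcd a (Int.gcd b c) = 1 ∧
    (a : ℝ) * w ^ 2 + b * w + c = 0 ∧ (a : ℝ) * w' ^ 2 + b * w' + c = 0 ∧ w' ≠ w ∧
    b ^ 2 - 4 * a * c = D

/-- the m-reduced numbers of discriminant `D` -/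
def mRed (D : ℤ) : Set ℝ := {w | ∃ w', IsConj D w w' ∧ 1 < w ∧ 0 < w' ∧ w' < 1}

theorem mRed_card {D : ℤ} (hD4 : D % 4 = 1) (hD0 : 0 < D) (hsq : Squarefree D)
    (hD : ¬ IsSquare D) : (mRed D).Finite ∧ (mRed D).ncard = Fintype.card (XX D) := by
  obtain ⟨f, hf⟩ := exists_equiv hD4 hD
  have hfin : Finite (MM D) := Finite.of_injective f hf.1
  have hDr : (0 : ℝ) < D := by exact_mod_cast hD0
  have hirr : Irrational (√(D : ℝ)) := by
    rw [irrational_sqrt_intCast_iff]
    exact ⟨hD, hD0.le⟩
  set g : MM D → ℝ := fun m => ((m.1.b : ℝ) + √(D : ℝ)) / (2 * m.1.a) with hg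
  have hginj : Injective g := by
    rintro ⟨⟨a, b, c⟩, h1, h2, h3, h4⟩ ⟨⟨a', b', c'⟩, h1', h2', h3', h4'⟩ h
    simp only [hg] at h
    simp only at h1 h1' h4 h4'
    have ha : (0 : ℝ) < a := by exact_mod_cast h1
    have ha' : (0 : ℝ) < a' := by exact_mod_cast h1'
    rw [div_eq_div_iff (by positivity) (by positivity)] at h
    have h5 : √(D : ℝ) * ((a' - a : ℤ) : ℝ) = ((a * b' - a' * b : ℤ) : ℝ) := by
      push_cast
      linarith
    have h6 : a' = a := by
      by_contra hne
      have h7 : ((a' - a : ℤ) : ℝ) ≠ 0 := by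
        exact_mod_cast sub_ne_zero.2 hne
      apply hirr
      refine ⟨((a * b' - a' * b : ℤ) : ℚ) / ((a' - a : ℤ) : ℚ), ?_⟩
      rw [Rat.cast_div, Rat.cast_intCast, Rat.cast_intCast, ← h5, mul_div_assoc, div_self h7,
        mul_one]
    subst h6
    have h8 : b' = b := by
      simp only [sub_self, Int.cast_zero, mul_zero] at h5
      have h9 : a' * b' - a' * b = 0 := by exact_mod_cast h5.symm
      have h10 : a' * (b' - b) = 0 := by linarith
      rcases mul_eq_zero.1 h10 with h11 | h11
      · omega
      · omega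
    subst h8
    have h9 : c = c' := by
      have h10 : 4 * a' * (c - c') = 0 := by linarith
      rcases mul_eq_zero.1 h10 with h11 | h11
      · omega
      · omega
    subst h9
    rfl
  have himg : mRed D = Set.range g := by
    ext w
    constructor
    · rintro ⟨w', ⟨hw, a, b, c, h1, h2, h3, h4, h5, h6⟩, h7, h8, h9⟩
      have ha : (0 : ℝ) < a := by exact_mod_cast h1
      have hsum : (a : ℝ) * (w + w') = -b := by
        have h10 : (w - w') * ((a : ℝ) * (w + w') + b) = 0 := by
          linear_combination h3 - h4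
        rcases mul_eq_zero.1 h10 with h11 | h11
        · exact absurd (sub_eq_zero.1 h11).symm h5
        · linarith
      have hprod : (a : ℝ) * (w * w') = c := by
        linear_combination w * hsum - h3
      have hc : 0 < c := by
        have : (0 : ℝ) < c := by
          rw [← hprod]
          have : 0 < w := by linarith
          positivity
        exact_mod_cast this
      have hlt : a + c < -b := by
        have h10 : (a : ℝ) * ((w - 1) * (1 - w')) = -b - a - c := by
          linear_combination hsum - hprod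
        have h11 : 0 < (a : ℝ) * ((w - 1) * (1 - w')) := by
          have : 0 < w - 1 := by linarith
          have : 0 < 1 - w' := by linarith
          positivity
        rw [h10] at h11
        have h12 : (a : ℝ) + c < -b := by linarith
        exact_mod_cast h12
      refine ⟨⟨⟨a, -b, c⟩, h1, hc, hlt, by simp only; linarith⟩, ?_⟩
      simp only [hg]
      have hsq : √(D : ℝ) = a * (w - w') := by
        have h10 : (D : ℝ) = (a * (w - w')) ^ 2 := by
          have h11 : (D : ℝ) = (b : ℝ) ^ 2 - 4 * a * c := by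
            rw [← h6]
            push_cast
            ring
          have hb : (b : ℝ) = -(a * (w + w')) := by linarith
          rw [h11, ← hprod, hb]
          ring
        rw [h10]
        apply Real.sqrt_sq
        have : 0 < w - w' := by linarith
        positivity
      rw [hsq, div_eq_iff (by positivity)]
      push_cast
      linarith
    · rintro ⟨⟨⟨a, b, c⟩, h1, h2, h3, h4⟩, rfl⟩
      simp only at h1 h2 h3 h4
      have ha : (0 : ℝ) < a := by exact_mod_cast h1
      have hc : (0 : ℝ) < c := by exact_mod_cast h2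
      have hb : (a : ℝ) + c < b := by exact_mod_cast h3
      have hDe : (D : ℝ) = (b : ℝ) ^ 2 - 4 * a * c := by
        rw [← h4]
        push_cast
        ring
      have hs := Real.sq_sqrt hDr.le
      have hs0 : 0 < √(D : ℝ) := Real.sqrt_pos.2 hDr
      refine ⟨((b : ℝ) - √(D : ℝ)) / (2 * a), ⟨?_, a, -b, c, h1, ?_, ?_, ?_, ?_, by linarith⟩,
        ?_, ?_, ?_⟩
      · simp only [hg]
        intro hr
        apply hirr
        obtain ⟨r, hr⟩ := hr
        refine ⟨2 * a * r - b, ?_⟩
        push_cast
        rw [hr]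
        field_simp
        ring
      · have hd : disc ⟨a, b, -c⟩ = D := by
          simp only [disc]
          linarith
        obtain ⟨α, β, γ, h5⟩ := bezout3 hsq hd
        simp only at h5
        have h6 : ((Int.gcd a (Int.gcd (-b) c : ℤ) : ℕ) : ℤ) ∣ 1 := by
          rw [← h5]
          have e1 : ((Int.gcd a (Int.gcd (-b) c : ℤ) : ℕ) : ℤ) ∣ a := Int.gcd_dvd_left ..
          have e2 : ((Int.gcd a (Int.gcd (-b) c : ℤ) : ℕ) : ℤ) ∣ (Int.gcd (-b) c : ℤ) :=
            Int.gcd_dvd_right ..
          have e3 : ((Int.gcd a (Int.gcd (-b) c : ℤ) : ℕ) : ℤ) ∣ -b := e2.trans (Int.gcd_dvd_left ..)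
          have e4 : ((Int.gcd a (Int.gcd (-b) c : ℤ) : ℕ) : ℤ) ∣ c := e2.trans (Int.gcd_dvd_right ..)
          rw [dvd_neg] at e3
          refine dvd_add (dvd_add (Dvd.dvd.mul_left e1 _) (Dvd.dvd.mul_left e3 _))
            (Dvd.dvd.mul_left ((dvd_neg).2 e4) _)
        have h7 := Int.natAbs_dvd_natAbs.2 h6
        simpa using h7
      · simp only [hg]
        push_cast
        have : (a : ℝ) * ((b + √(D : ℝ)) / (2 * a)) ^ 2 + -b * ((b + √(D : ℝ)) / (2 * a)) + c =
          (√(D : ℝ) ^ 2 - b ^ 2 + 4 * a * c) / (4 * a) := by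
          field_simp
          ring
        rw [this, hs, hDe]
        ring
      · push_cast
        have : (a : ℝ) * ((b - √(D : ℝ)) / (2 * a)) ^ 2 + -b * ((b - √(D : ℝ)) / (2 * a)) + c =
          (√(D : ℝ) ^ 2 - b ^ 2 + 4 * a * c) / (4 * a) := by
          field_simp
          ring
        rw [this, hs, hDe]
        ring
      · simp only [hg]
        intro h
        rw [div_eq_div_iff (by positivity) (by positivity)] at h
        have : (√(D : ℝ)) * (4 * a) = 0 := by linarith
        have h5 : 0 < (√(D : ℝ)) * (4 * a) := by positivity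
        linarith
      · simp only [hg]
        rw [lt_div_iff₀ (by positivity)]
        by_contra hneg
        push Not at hneg
        have h5 : √(D : ℝ) ≤ 2 * a - b := by linarith
        have h6 : √(D : ℝ) ^ 2 ≤ (2 * a - b) ^ 2 := by
          apply pow_le_pow_left₀ hs0.le h5
        rw [hs, hDe] at h6
        nlinarith
      · apply div_pos _ (by positivity)
        rw [sub_pos, Real.sqrt_lt' (by linarith), hDe]
        have : 0 < 4 * (a : ℝ) * c := by positivity
        linarith
      · rw [div_lt_one (by positivity)]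
        by_contra hneg
        push Not at hneg
        have h5 : √(D : ℝ) ≤ b - 2 * a := by linarith
        have h6 : √(D : ℝ) ^ 2 ≤ (b - 2 * a) ^ 2 := by
          apply pow_le_pow_left₀ hs0.le h5
        rw [hs, hDe] at h6
        nlinarith
  refine ⟨?_, ?_⟩
  · rw [himg]
    exact Set.finite_range g
  · rw [himg, ← Nat.card_coe_set_eq, Nat.card_congr (Equiv.ofInjective g hginj).symm,
      Nat.card_congr (Equiv.ofBijective f hf), Nat.card_eq_fintype_card]

end Pool.Agent.Q8.MC
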