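import Pool.Agent.Q8.MC.Basic

/-!
# The river theorem
-/

set_option autoImplicit false

namespace Pool.Agent.Q8.MC

open Matrix

lemma fv_pos {e : T} (ha : 0 < e.a) (hc : 0 < e.c) (h : 0 < e.a + e.b - e.c) {X Y : ℤ}
    (hY : 0 ≤ Y) (hXY : Y ≤ X) (hX : 0 < X) : 0 < fv e X Y := by
  have h1 : fv e X Y = e.a * (X * (X - Y)) + (e.a + e.b - e.c) * (X * Y) + e.c * (Y * (X - Y)) := by
    simp only [fv]
    ring
  rw [h1]
  have h2 : 0 ≤ X - Y := by omega
  rcases hY.eq_or_lt with h3 | h3
  · subst h3
    have : 0 < e.a * (X * (X - 0)) := by positivity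
    nlinarith
  · have h4 : 0 < (e.a + e.b - e.c) * (X * Y) := by positivity
    have h5 : 0 ≤ e.a * (X * (X - Y)) := by positivity
    have h6 : 0 ≤ e.c * (Y * (X - Y)) := by positivity
    linarith

lemma fv_neg {e : T} (ha : 0 < e.a) (hc : 0 < e.c) (h : e.a + e.b - e.c < 0) {X Y : ℤ}
    (hX : 0 ≤ X) (hXY : X ≤ Y) (hY : 0 < Y) : fv e X Y < 0 := by
  have h1 : fv e X Y = -(e.c * (Y * (Y - X)) + (e.c - e.a - e.b) * (X * Y) + e.a * (X * (Y - X))) := by
    simp only [fv]
    ring
  rw [h1, neg_lt_zero]
  have h2 : 0 ≤ Y - X := by omega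
  have h0 : 0 < e.c - e.a - e.b := by omega
  rcases hX.eq_or_lt with h3 | h3
  · subst h3
    have : 0 < e.c * (Y * (Y - 0)) := by positivity
    nlinarith
  · have h4 : 0 < (e.c - e.a - e.b) * (X * Y) := by positivity
    have h5 : 0 ≤ e.c * (Y * (Y - X)) := by positivity
    have h6 : 0 ≤ e.a * (X * (Y - X)) := by positivity
    linarith

/-- two by two: no entries decreasing in both columns besides the trivial ones -/
lemma cross {x y z s : ℤ} (hx : y < x) (hz : z < s) (hy : 0 ≤ y) (hz0 : 0 ≤ z)
    (h : x * s - y * z = 1) : x = 1 ∧ y = 0 ∧ z = 0 ∧ s = 1 := by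
  have h1 : (y + 1) * (z + 1) ≤ x * s := by
    apply mul_le_mul <;> omega
  have h2 : y + z ≤ 0 := by nlinarith
  have hy0 : y = 0 := by omega
  have hz1 : z = 0 := by omega
  subst hy0 hz1
  have h3 : x * s = 1 := by linarith
  have h4 : x = 1 := by nlinarith
  refine ⟨h4, rfl, rfl, ?_⟩
  rw [h4] at h3
  linarith

lemma not_swap {e : T} (h : Pos e) : ¬ Pos ⟨e.c, -e.b, e.a⟩ := by
  simp only [Pos] at *
  omega

lemma tw_fields (e : T) (x z y s : ℤ) : tw e !![x, z; y, s] =
    ⟨(x * s - z * y) * fv e x y,
     (x * s - z * y) * (2 * e.a * (x * z) + e.b * (x * s + y * z) - 2 * e.c * (y * s)),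
     -((x * s - z * y) * fv e z s)⟩ := by
  simp [tw, Matrix.det_fin_two]

/-- The river theorem for nonnegative matrices. -/
theorem river_nonneg {D : ℤ} (hD : ¬ IsSquare D) (n : ℕ) : ∀ (e : T) (x z y s : ℤ), InX D e →
    InX D (tw e !![x, z; y, s]) → 0 ≤ x → 0 ≤ z → 0 ≤ y → 0 ≤ s →
    (x * s - y * z = 1 ∨ x * s - y * z = -1) → x + z + y + s ≤ n →
    ∃ k, !![x, z; y, s] = N k e := by
  induction n with
  | zero =>
    intro e x z y s _ _ hx hz hy hs hdet hn
    exfalso
    have h1 : x = 0 := by push_cast at hn; omega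
    have h2 : y = 0 := by push_cast at hn; omega
    subst h1 h2
    omega
  | succ n ih =>
    intro e x z y s he he' hx hz hy hs hdet hn
    have hsum := sum_ne_zero hD he.disc
    have ha := he.apos
    have hc := he.cpos
    have hA := he'.apos
    have hC := he'.cpos
    have hP := he'.pos
    have htw := tw_fields e x z y s
    rw [htw] at hA hC hP
    simp only at hA hC
    have hz' : x * s - z * y = x * s - y * z := by ring
    rw [hz'] at hA hC hP
    by_cases hR : 0 < e.a + e.b - e.c
    · -- first letter `A`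
      have key : (x = 1 ∧ y = 0 ∧ z = 0 ∧ s = 1) ∨ (x ≤ y ∧ z ≤ s) := by
        rcases hdet with hd | hd
        · rw [hd] at hA hC
          have h1 : z < s := by
            by_contra h
            push Not at h
            rcases hz.eq_or_lt with h2 | h2
            · have : s = 0 := by omega
              subst this
              rw [← h2] at hC
              simp [fv] at hC
            · have := fv_pos ha hc hR hs h h2
              linarith
          by_cases h2 : x ≤ y
          · exact Or.inr ⟨h2, h1.le⟩
          · push Not at h2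
            exact Or.inl (cross h2 h1 hy hz hd)
        · rw [hd] at hA hC hP
          have h1 : x < y := by
            by_contra h
            push Not at h
            rcases hx.eq_or_lt with h2 | h2
            · have : y = 0 := by omega
              subst this
              rw [← h2] at hA
              simp [fv] at hA
            · have := fv_pos ha hc hR hy h h2
              linarith
          by_cases h2 : z ≤ s
          · exact Or.inr ⟨h1.le, h2⟩
          · push Not at h2
            exfalso
            obtain ⟨h3, h4, h5, h6⟩ := cross h2 h1 hs hx (by linarith)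
            subst h3 h4 h5 h6
            apply not_swap he.pos
            convert hP using 2 <;> simp [fv]
      rcases key with ⟨rfl, rfl, rfl, rfl⟩ | ⟨h1, h2⟩
      · exact ⟨0, by simp [N, Matrix.one_fin_two]⟩
      · have hl : letter e = lA := by rw [letter, if_pos hR]
        have hprod : lA * !![y - x, s - z; x, z] = !![x, z; y, s] := by
          ext i j
          fin_cases i <;> fin_cases j <;> simp [lA, Matrix.mul_apply, Fin.sum_univ_two]
        have hxz : 1 ≤ x + z := by
          by_contra h
          have h3 : x = 0 := by omega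
          have h4 : z = 0 := by omega
          subst h3 h4
          omega
        obtain ⟨k, hk⟩ := ih (Phi e) (y - x) (s - z) x z (he.Phi hD) (by
          rw [Phi_eq_tw, tw_mul, hl, hprod]
          exact he') (by omega) (by omega) hx hz (by
          have : (y - x) * z - x * (s - z) = -(x * s - y * z) := by ring
          rw [this]
          rcases hdet with h | h <;> rw [h]
          · right; rfl
          · left; rfl) (by push_cast at hn; omega)
        refine ⟨k + 1, ?_⟩
        rw [N, ← hk, hl, hprod]
    · have hL : e.a + e.b - e.c < 0 := by omega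
      have key : (x = 1 ∧ y = 0 ∧ z = 0 ∧ s = 1) ∨ (y ≤ x ∧ s ≤ z) := by
        rcases hdet with hd | hd
        · rw [hd] at hA hC
          have h1 : y < x := by
            by_contra h
            push Not at h
            rcases hy.eq_or_lt with h2 | h2
            · have : x = 0 := by omega
              subst this
              rw [← h2] at hA
              simp [fv] at hA
            · have := fv_neg ha hc hL hx h h2
              linarith
          by_cases h2 : s ≤ z
          · exact Or.inr ⟨h1.le, h2⟩
          · push Not at h2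
            exact Or.inl (cross h1 h2 hy hz hd)
        · rw [hd] at hA hC hP
          have h1 : s < z := by
            by_contra h
            push Not at h
            rcases hs.eq_or_lt with h2 | h2
            · have : z = 0 := by omega
              subst this
              rw [← h2] at hC
              simp [fv] at hC
            · have := fv_neg ha hc hL hz h h2
              linarith
          by_cases h2 : y ≤ x
          · exact Or.inr ⟨h2, h1.le⟩
          · push Not at h2
            exfalso
            obtain ⟨h3, h4, h5, h6⟩ := cross h1 h2 hs hx (by linarith)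
            subst h3 h4 h5 h6
            apply not_swap he.pos
            convert hP using 2 <;> simp [fv]
      rcases key with ⟨rfl, rfl, rfl, rfl⟩ | ⟨h1, h2⟩
      · exact ⟨0, by simp [N, Matrix.one_fin_two]⟩
      · have hl : letter e = lB := by rw [letter, if_neg hR]
        have hprod : lB * !![y, s; x - y, z - s] = !![x, z; y, s] := by
          ext i j
          fin_cases i <;> fin_cases j <;> simp [lB, Matrix.mul_apply, Fin.sum_univ_two]
        have hys : 1 ≤ y + s := by
          by_contra h
          have h3 : y = 0 := by omega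
          have h4 : s = 0 := by omega
          subst h3 h4
          omega
        obtain ⟨k, hk⟩ := ih (Phi e) y s (x - y) (z - s) (he.Phi hD) (by
          rw [Phi_eq_tw, tw_mul, hl, hprod]
          exact he') hy hs (by omega) (by omega) (by
          have : y * (z - s) - (x - y) * s = -(x * s - y * z) := by ring
          rw [this]
          rcases hdet with h | h <;> rw [h]
          · right; rfl
          · left; rfl) (by push_cast at hn; omega)
        refine ⟨k + 1, ?_⟩
        rw [N, ← hk, hl, hprod]

/-- sign patterns -/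
lemma signs {a b c x y z s : ℤ} (ha : 0 < a) (hc : 0 < c) (h1 : 0 < a * x ^ 2 + b * x * y - c * y ^ 2)
    (h2 : a * z ^ 2 + b * z * s - c * s ^ 2 < 0) (hd : x * s - y * z = 1) :
    (0 ≤ x ∧ 0 ≤ y ∧ 0 ≤ z ∧ 0 ≤ s) ∨ (x ≤ 0 ∧ y ≤ 0 ∧ z ≤ 0 ∧ s ≤ 0) ∨
      (0 ≤ x ∧ y ≤ 0 ∧ z ≤ 0 ∧ 0 ≤ s) ∨ (x ≤ 0 ∧ 0 ≤ y ∧ 0 ≤ z ∧ s ≤ 0) := by
  have key : 0 ≤ y * z := by
    by_contra hneg
    push Not at hneg
    have hxs : x * s ≤ 0 := by omega
    rcases hxs.eq_or_lt with h0 | h0
    · rcases mul_eq_zero.1 h0 with h3 | h3
      · subst h3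
        nlinarith [sq_nonneg y]
      · subst h3
        nlinarith [sq_nonneg z]
    · have e1 : 0 < s ^ 2 * (a * x ^ 2 + b * x * y - c * y ^ 2)
          - y ^ 2 * (a * z ^ 2 + b * z * s - c * s ^ 2) := by
        have hs : s ≠ 0 := by rintro rfl; simp at h0
        have : 0 < s ^ 2 := by positivity
        nlinarith [sq_nonneg y, mul_pos this h1]
      have e2 : 0 < z ^ 2 * (a * x ^ 2 + b * x * y - c * y ^ 2)
          - x ^ 2 * (a * z ^ 2 + b * z * s - c * s ^ 2) := by
        have hx : x ≠ 0 := by rintro rfl; simp at h0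
        have : 0 < x ^ 2 := by positivity
        nlinarith [sq_nonneg z, mul_pos this (neg_pos.2 h2)]
      have e3 : s ^ 2 * (a * x ^ 2 + b * x * y - c * y ^ 2)
          - y ^ 2 * (a * z ^ 2 + b * z * s - c * s ^ 2)
          = (x * s - y * z) * (a * (x * s + y * z) + b * (s * y)) := by ring
      have e4 : z ^ 2 * (a * x ^ 2 + b * x * y - c * y ^ 2)
          - x ^ 2 * (a * z ^ 2 + b * z * s - c * s ^ 2)
          = (x * s - y * z) * (c * (x * s + y * z) - b * (x * z)) := by ring
      rw [e3, hd, one_mul] at e1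
      rw [e4, hd, one_mul] at e2
      have e5 : x * s + y * z < 0 := by linarith
      have e6 : 0 < b * (s * y) := by nlinarith
      have e7 : b * (x * z) < 0 := by nlinarith
      have e8 : (b * (s * y)) * (b * (x * z)) < 0 := mul_neg_of_pos_of_neg e6 e7
      have e9 : (b * (s * y)) * (b * (x * z)) = b ^ 2 * ((x * s) * (y * z)) := by ring
      rw [e9] at e8
      have e10 : 0 < (x * s) * (y * z) := mul_pos_of_neg_of_neg h0 hneg
      nlinarith [sq_nonneg b]
  have hxs : 0 < x * s := by omega
  rcases pos_and_pos_or_neg_and_neg_of_mul_pos hxs with ⟨h3, h4⟩ | ⟨h3, h4⟩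
  · rcases mul_nonneg_iff.1 key with ⟨h5, h6⟩ | ⟨h5, h6⟩
    · exact Or.inl ⟨h3.le, h5, h6, h4.le⟩
    · exact Or.inr (Or.inr (Or.inl ⟨h3.le, h5, h6, h4.le⟩))
  · rcases mul_nonneg_iff.1 key with ⟨h5, h6⟩ | ⟨h5, h6⟩
    · exact Or.inr (Or.inr (Or.inr ⟨h3.le, h5, h6, h4.le⟩))
    · exact Or.inr (Or.inl ⟨h3.le, h5, h6, h4.le⟩)

/-- The river theorem. -/
theorem river {D : ℤ} (hD : ¬ IsSquare D) {e : T} {x z y s : ℤ} (he : InX D e)
    (he' : InX D (tw e !![x, z; y, s])) (hdet : x * s - y * z = 1 ∨ x * s - y * z = -1) :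
    (∃ k : ℕ, Phi^[k] e = tw e !![x, z; y, s] ∧ x * s - y * z = (-1) ^ k) ∨
      ∃ k : ℕ, Phi^[k] (tw e !![x, z; y, s]) = e ∧ x * s - y * z = (-1) ^ k := by
  have ha := he.apos
  have hc := he.cpos
  have hA := he'.apos
  have hC := he'.cpos
  have htw := tw_fields e x z y s
  have hz' : x * s - z * y = x * s - y * z := by ring
  -- four patterns
  have pat : (0 ≤ x ∧ 0 ≤ y ∧ 0 ≤ z ∧ 0 ≤ s) ∨ (x ≤ 0 ∧ y ≤ 0 ∧ z ≤ 0 ∧ s ≤ 0) ∨
      (0 ≤ (x * s - y * z) * s ∧ 0 ≤ -(x * s - y * z) * z ∧ 0 ≤ -(x * s - y * z) * y ∧
        0 ≤ (x * s - y * z) * x) ∨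
      (0 ≤ -(x * s - y * z) * s ∧ 0 ≤ (x * s - y * z) * z ∧ 0 ≤ (x * s - y * z) * y ∧
        0 ≤ -(x * s - y * z) * x) := by
    rw [htw] at hA hC
    simp only [hz', fv] at hA hC
    rcases hdet with hd | hd
    · rw [hd] at hA hC ⊢
      rcases signs ha hc (b := e.b) (x := x) (y := y) (z := z) (s := s) (by linarith)
        (by linarith) hd with h | h | h | h
      · exact Or.inl h
      · exact Or.inr (Or.inl h)
      · right; right; left
        omega
      · right; right; right
        omega
    · rw [hd] at hA hC ⊢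
      rcases signs ha hc (b := e.b) (x := z) (y := s) (z := x) (s := y) (by linarith)
        (by linarith) (by linarith) with h | h | h | h
      · left; omega
      · right; left; omega
      · right; right; left
        omega
      · right; right; right
        omega
  have hmdet : ∀ k : ℕ, ∀ e : T, ∀ x z y s : ℤ, !![x, z; y, s] = N k e →
      x * s - y * z = (-1) ^ k := by
    intro k e x z y s h
    rw [← det_N k e, ← h, Matrix.det_fin_two]
    simp
    ring
  rcases pat with h | h | h | h
  · left
    obtain ⟨k, hk⟩ := river_nonneg hD (x + z + y + s).toNat e x z y s he he' h.1 h.2.2.1 h.2.1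
      h.2.2.2 hdet (by omega)
    exact ⟨k, by rw [iter_eq_tw, hk], hmdet k e _ _ _ _ hk⟩
  · left
    have hneg : !![-x, -z; -y, -s] = -!![x, z; y, s] := by
      ext i j
      fin_cases i <;> fin_cases j <;> rfl
    have h3 : tw e !![-x, -z; -y, -s] = tw e !![x, z; y, s] := by rw [hneg, tw_neg]
    obtain ⟨k, hk⟩ := river_nonneg hD (-x - z - y - s).toNat e (-x) (-z) (-y) (-s) he
      (by rw [h3]; exact he') (by omega) (by omega) (by omega)
      (by omega) (by rcases hdet with h | h <;> [left; right] <;> linarith) (by omega)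
    refine ⟨k, by rw [iter_eq_tw, ← hk, h3], ?_⟩
    rw [← hmdet k e _ _ _ _ hk]
    ring
  · right
    set δ := x * s - y * z with hδ
    have hδ2 : δ * δ = 1 := by rcases hdet with h | h <;> rw [h] <;> norm_num
    have hprod : !![x, z; y, s] * !![δ * s, -δ * z; -δ * y, δ * x] = 1 := by
      ext i j
      fin_cases i <;> fin_cases j <;> simp [Matrix.mul_apply, Fin.sum_univ_two] <;>
        first | ring1 | linear_combination hδ2 - δ * hδ
    have h4 : tw (tw e !![x, z; y, s]) !![δ * s, -δ * z; -δ * y, δ * x] = e := by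
      rw [tw_mul, hprod, tw_one]
    have hdet' : (δ * s) * (δ * x) - (-δ * y) * (-δ * z) = δ := by
      linear_combination δ * hδ2 - δ * δ * hδ
    obtain ⟨k, hk⟩ := river_nonneg hD (δ * s + -δ * z + -δ * y + δ * x).toNat
      (tw e !![x, z; y, s]) _ _ _ _ he' (by rw [h4]; exact he) h.1 h.2.1 h.2.2.1 h.2.2.2
      (by rw [hdet']; exact hdet) (by omega)
    refine ⟨k, by rw [iter_eq_tw, ← hk, h4], ?_⟩
    rw [← hmdet k _ _ _ _ _ hk, hdet']
  · right
    set δ := x * s - y * z with hδ
    have hδ2 : δ * δ = 1 := by rcases hdet with h | h <;> rw [h] <;> norm_num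
    have hprod : !![x, z; y, s] * !![δ * s, -δ * z; -δ * y, δ * x] = 1 := by
      ext i j
      fin_cases i <;> fin_cases j <;> simp [Matrix.mul_apply, Fin.sum_univ_two] <;>
        first | ring1 | linear_combination hδ2 - δ * hδ
    have hneg : !![-δ * s, δ * z; δ * y, -δ * x] = -!![δ * s, -δ * z; -δ * y, δ * x] := by
      ext i j
      fin_cases i <;> fin_cases j <;> simp
    have h4 : tw (tw e !![x, z; y, s]) !![-δ * s, δ * z; δ * y, -δ * x] = e := by
      rw [hneg, tw_neg, tw_mul, hprod, tw_one]
    have hdet' : (-δ * s) * (-δ * x) - (δ * y) * (δ * z) = δ := by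
      linear_combination δ * hδ2 - δ * δ * hδ
    obtain ⟨k, hk⟩ := river_nonneg hD (-δ * s + δ * z + δ * y + -δ * x).toNat
      (tw e !![x, z; y, s]) _ _ _ _ he' (by rw [h4]; exact he) h.1 h.2.1 h.2.2.1 h.2.2.2
      (by rw [hdet']; exact hdet) (by omega)
    refine ⟨k, by rw [iter_eq_tw, ← hk, h4], ?_⟩
    rw [← hmdet k _ _ _ _ _ hk, hdet']

end Pool.Agent.Q8.MC
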