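import Pool.Agent.Q8.MC.River
import Pool.Agent.Q8.MC.Dyn

/-!
# The finite set of forms and its two involutions
-/

set_option autoImplicit false

namespace Pool.Agent.Q8.MC

open Matrix Function

/-- the finite set of the forms of positive color -/
abbrev XX (D : ℤ) := {e : T // InX D e}

lemma InX.bounds {D : ℤ} {e : T} (h : InX D e) :
    0 ≤ e.a ∧ e.a ≤ D ∧ -D ≤ e.b ∧ e.b ≤ D ∧ 0 ≤ e.c ∧ e.c ≤ D := by
  obtain ⟨h1, h2, h3, -⟩ := h
  simp only [MC.disc] at h3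
  have h4 : 0 < e.a * e.c := mul_pos h1 h2
  have h5 : 4 * (e.a * e.c) ≤ D := by nlinarith [sq_nonneg e.b]
  have h6 : e.a ≤ e.a * e.c := by nlinarith
  have h7 : e.c ≤ e.a * e.c := by nlinarith
  have h8 : e.b ^ 2 ≤ D := by nlinarith
  refine ⟨h1.le, by linarith, ?_, ?_, h2.le, by linarith⟩
  · nlinarith [sq_nonneg (e.b + 1), sq_nonneg e.b]
  · nlinarith [sq_nonneg (e.b - 1), sq_nonneg e.b]

instance (D : ℤ) : Finite (XX D) := by
  have : Finite (Set.Icc (0 : ℤ) D × Set.Icc (-D) D × Set.Icc (0 : ℤ) D) := inferInstance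
  apply Finite.of_injective (β := Set.Icc (0 : ℤ) D × Set.Icc (-D) D × Set.Icc (0 : ℤ) D)
    (fun x => (⟨x.1.a, x.2.bounds.1, x.2.bounds.2.1⟩,
      ⟨x.1.b, x.2.bounds.2.2.1, x.2.bounds.2.2.2.1⟩,
      ⟨x.1.c, x.2.bounds.2.2.2.2.1, x.2.bounds.2.2.2.2.2⟩))
  intro x y h
  simp only [Prod.mk.injEq, Subtype.mk.injEq] at h
  exact Subtype.ext (T.ext h.1 h.2.1 h.2.2)

noncomputable instance (D : ℤ) : Fintype (XX D) := Fintype.ofFinite _

/-- the first involution -/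
def tauP (D : ℤ) : Equiv.Perm (XX D) :=
  Function.Involutive.toPerm (fun x => ⟨tau x.1, x.2.tau⟩) (fun x => Subtype.ext (tau_tau x.1))

/-- the second involution -/
def psiP {D : ℤ} (hD : ¬ IsSquare D) : Equiv.Perm (XX D) :=
  Function.Involutive.toPerm (fun x => ⟨psi x.1, x.2.psi hD⟩)
    (fun x => Subtype.ext (psi_psi hD x.2))

lemma tauP_val {D : ℤ} (x : XX D) : (tauP D x).1 = tau x.1 := rfl

lemma psiP_val {D : ℤ} (hD : ¬ IsSquare D) (x : XX D) : (psiP hD x).1 = psi x.1 := rfl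

lemma tauP_tauP {D : ℤ} (x : XX D) : tauP D (tauP D x) = x := Subtype.ext (tau_tau x.1)

lemma psiP_psiP {D : ℤ} (hD : ¬ IsSquare D) (x : XX D) : psiP hD (psiP hD x) = x :=
  Subtype.ext (psi_psi hD x.2)

/-- the step -/
def PhiP {D : ℤ} (hD : ¬ IsSquare D) : Equiv.Perm (XX D) := tauP D * psiP hD

lemma PhiP_val {D : ℤ} (hD : ¬ IsSquare D) (x : XX D) : (PhiP hD x).1 = Phi x.1 :=
  tau_psi x.1

lemma PhiP_pow {D : ℤ} (hD : ¬ IsSquare D) (k : ℕ) (x : XX D) :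
    ((PhiP hD ^ (k : ℤ)) x).1 = Phi^[k] x.1 := by
  induction k generalizing x with
  | zero => simp
  | succ k ih =>
    rw [Function.iterate_succ_apply, ← PhiP_val hD, ← ih, ← zpow_one_add_apply']
    push_cast
    rfl
where
  zpow_one_add_apply' {D : ℤ} {hD : ¬ IsSquare D} {k : ℕ} {x : XX D} :
      (PhiP hD ^ ((k : ℤ) + 1)) x = (PhiP hD ^ (k : ℤ)) (PhiP hD x) := by
    rw [zpow_add_apply, zpow_one]

/-- `e'` is obtained from `e` by a matrix of determinant `δ`. -/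
def W (δ : ℤ) (e e' : T) : Prop :=
  ∃ x z y s : ℤ, x * s - y * z = δ ∧ e' = tw e !![x, z; y, s]

lemma W_one (e : T) : W 1 e e := ⟨1, 0, 0, 1, by norm_num, by
  rw [show (!![1, 0; 0, 1] : M) = 1 from by ext i j; fin_cases i <;> fin_cases j <;> rfl, tw_one]⟩

lemma W_of_mat {e : T} (g : M) : W g.det e (tw e g) := by
  refine ⟨g 0 0, g 0 1, g 1 0, g 1 1, ?_, ?_⟩
  · rw [Matrix.det_fin_two]
    ring
  · congr 1
    ext i j
    fin_cases i <;> fin_cases j <;> rfl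

lemma W.trans {δ δ' : ℤ} {e e' e'' : T} (h : W δ e e') (h' : W δ' e' e'') :
    W (δ * δ') e e'' := by
  obtain ⟨x, z, y, s, h1, rfl⟩ := h
  obtain ⟨x', z', y', s', h1', rfl⟩ := h'
  rw [tw_mul]
  have := W_of_mat (e := e) (!![x, z; y, s] * !![x', z'; y', s'])
  rw [Matrix.det_mul, Matrix.det_fin_two, Matrix.det_fin_two] at this
  simp only [Matrix.of_apply, Matrix.cons_val', Matrix.cons_val_zero, Matrix.cons_val_one,
    Matrix.cons_val_fin_one] at this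
  rw [← h1, ← h1']
  convert this using 1
  ring

lemma W.symm {δ : ℤ} {e e' : T} (hδ : δ = 1 ∨ δ = -1) (h : W δ e e') : W δ e' e := by
  obtain ⟨x, z, y, s, h1, rfl⟩ := h
  have hδ2 : δ * δ = 1 := by rcases hδ with h | h <;> rw [h] <;> norm_num
  refine ⟨δ * s, -δ * z, -δ * y, δ * x, ?_, ?_⟩
  · linear_combination δ * δ * h1 + δ * hδ2
  · rw [tw_mul]
    have hprod : (!![x, z; y, s] * !![δ * s, -δ * z; -δ * y, δ * x] : M) = 1 := by
      ext i j
      fin_cases i <;> fin_cases j <;> simp [Matrix.mul_apply, Fin.sum_univ_two] <;>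
        first | ring1 | linear_combination hδ2 + δ * h1
    rw [hprod, tw_one]

lemma W_iter (k : ℕ) (e : T) : W ((-1) ^ k) e (Phi^[k] e) := by
  rw [iter_eq_tw, ← det_N k e]
  exact W_of_mat _

lemma negOnePow_val (k : ℤ) : ((k.negOnePow : ℤˣ) : ℤ) = 1 ∨ ((k.negOnePow : ℤˣ) : ℤ) = -1 := by
  rcases Int.units_eq_one_or k.negOnePow with h | h <;> rw [h] <;> simp

lemma W_zpow {D : ℤ} (hD : ¬ IsSquare D) (k : ℤ) (x : XX D) :
    W ((k.negOnePow : ℤˣ) : ℤ) x.1 ((PhiP hD ^ k) x).1 := by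
  rcases Int.eq_nat_or_neg k with ⟨n, rfl | rfl⟩
  · rw [PhiP_pow, Int.negOnePow_def, zpow_natCast]
    have := W_iter n x.1
    push_cast
    exact this
  · have h1 := W_iter n ((PhiP hD ^ (-(n : ℤ))) x).1
    rw [← PhiP_pow hD, ← zpow_add_apply] at h1
    simp only [add_neg_cancel, zpow_zero, Equiv.Perm.coe_one, id_eq] at h1
    rw [Int.negOnePow_neg, Int.negOnePow_def, zpow_natCast]
    push_cast
    exact h1.symm (neg_one_pow_eq_or ℤ n)

/-- The river theorem for the permutation. -/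
theorem river_zpow {D : ℤ} (hD : ¬ IsSquare D) {δ : ℤ} (hδ : δ = 1 ∨ δ = -1) {x y : XX D}
    (h : W δ x.1 y.1) : ∃ k : ℤ, (PhiP hD ^ k) x = y ∧ ((k.negOnePow : ℤˣ) : ℤ) = δ := by
  obtain ⟨a, b, c, d, h1, h2⟩ := h
  rcases river hD x.2 (x := a) (z := b) (y := c) (s := d) (by rw [← h2]; exact y.2)
    (by rw [h1]; exact hδ) with ⟨k, hk, hk'⟩ | ⟨k, hk, hk'⟩
  · refine ⟨k, Subtype.ext ?_, ?_⟩
    · rw [PhiP_pow, hk, h2]
    · rw [Int.negOnePow_def, zpow_natCast, ← h1, hk']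
      push_cast
      rfl
  · refine ⟨-(k : ℤ), ?_, ?_⟩
    · have h3 : (PhiP hD ^ (k : ℤ)) y = x := Subtype.ext (by rw [PhiP_pow, h2, hk])
      rw [← h3, ← zpow_add_apply]
      simp
    · rw [Int.negOnePow_neg, Int.negOnePow_def, zpow_natCast, ← h1, hk']
      push_cast
      rfl

end Pool.Agent.Q8.MC
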